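import Pool.Agent.T2H62.MD.K
import Pool.Agent.T2H53.GW.LowB

set_option autoImplicit false

/-! # Random primes: large gaps in all dyadic intervals -/

namespace Pool.Agent.T2H62.MD

open Finset Filter Topology MeasureTheory ProbabilityTheory
open Pool.Agent.T2H53.GW
open Pool.Agent.H305R2 (VV VV_tendsto)

variable {Ω : Type*} [MeasurableSpace Ω] {μ : Measure Ω} [IsProbabilityMeasure μ] {S : ℕ → Set Ω}

/-- the probabilities tend to `0` -/
theorem pr_small (A : ℝ) (hA : 0 < A) (w : ℝ) (hw : 0 < w) : ∀ᶠ n : ℕ in atTop, pr A n ≤ w := by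
  have hT : Tendsto (fun n : ℕ => (n : ℝ)) atTop atTop := tendsto_natCast_atTop_atTop
  have hL : Tendsto (fun n : ℕ => Real.log (n : ℝ)) atTop atTop := Real.tendsto_log_atTop.comp hT
  have hJ : Tendsto (fun x : ℕ => ⌊A * Real.log x⌋₊) atTop atTop :=
    tendsto_nat_floor_atTop.comp (hL.const_mul_atTop hA)
  have h1 := VV_tendsto.eventually (eventually_lt_nhds (show Real.exp Real.eulerMascheroniConstant < 2 by
    have := GG_lt_two
    unfold GG at this
    exact this))
  have h2 : ∀ᶠ n : ℕ in atTop, 2 * Real.log (A * Real.log n) ≤ w * Real.log n := by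
    have h3 : (fun u : ℝ => Real.log (A * u)) =o[atTop] (fun u : ℝ => A * u) :=
      Real.isLittleO_log_id_atTop.comp_tendsto (tendsto_id.const_mul_atTop hA)
    have h4 := h3.bound (show (0 : ℝ) < w / (2 * A) by positivity)
    filter_upwards [hL.eventually h4, hL.eventually_ge_atTop 1] with n h5 h6
    have h7 := (le_abs_self _).trans h5
    rw [Real.norm_eq_abs, abs_of_nonneg (by positivity)] at h7
    have h8 : w / (2 * A) * (A * Real.log n) = w * Real.log n / 2 := by field_simp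
    rw [h8] at h7
    linarith
  filter_upwards [hJ.eventually h1, hJ.eventually_ge_atTop 3, h2, hL.eventually_ge_atTop 1] with n a1 a2 a3 a4
  obtain ⟨j, hj⟩ : ∃ j, j = ⌊A * Real.log n⌋₊ := ⟨_, rfl⟩
  rw [← hj] at a1 a2
  have hj3 : (3 : ℝ) ≤ j := by exact_mod_cast a2
  have hlj : 0 < Real.log (j : ℝ) := Real.log_pos (by linarith)
  rw [div_lt_iff₀ hlj] at a1
  have hjA : (j : ℝ) ≤ A * Real.log n := by
    rw [hj]
    exact Nat.floor_le (by positivity)
  have h5 : Real.log (j : ℝ) ≤ Real.log (A * Real.log n) := Real.log_le_log (by linarith) hjA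
  unfold pr
  split_ifs
  · refine (min_le_right _ _).trans ?_
    rw [← hj, div_le_iff₀ (by linarith)]
    linarith
  · exact hw.le

/-- the sum of the probabilities in `(N, x]`, `x ≤ 2 N` -/
theorem sum_dyadic (A : ℝ) (hA : 0 < A) : ∀ᶠ N : ℕ in atTop, ∀ x : ℕ, N ≤ x → x ≤ 2 * N →
    ∑ n ∈ Ioc N x, pr A n ≤ ((x : ℝ) - N) / Real.log N + 2 * (N : ℝ) ^ (1 / 4 : ℝ) := by
  obtain ⟨n₀, hn₀⟩ := eventually_atTop.1 (err_small A hA)
  filter_upwards [eventually_ge_atTop n₀, eventually_ge_atTop 3] with N h1 h2 x hx1 hx2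
  have hN0 : (0 : ℝ) < N := by exact_mod_cast (by omega : 0 < N)
  have hlN : 0 < Real.log (N : ℝ) := Real.log_pos (by exact_mod_cast (by omega : 1 < N))
  have h3 := blocks A hA.le N x (by omega) (by omega)
  have h4 := hn₀ x (by omega)
  have h5 : ∑ n ∈ Ioc N x, 1 / Real.log (n : ℝ) ≤ ((x : ℝ) - N) / Real.log N := by
    have h6 : ∀ n ∈ Ioc N x, 1 / Real.log (n : ℝ) ≤ 1 / Real.log (N : ℝ) := by
      intro n hn
      rw [mem_Ioc] at hn
      apply one_div_le_one_div_of_le hlN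
      exact Real.log_le_log hN0 (by exact_mod_cast hn.1.le)
    refine (sum_le_card_nsmul _ _ _ h6).trans (le_of_eq ?_)
    rw [Nat.card_Ioc, nsmul_eq_mul, Nat.cast_sub hx1]
    ring
  have h6 : (x : ℝ) ^ (1 / 4 : ℝ) ≤ 2 * (N : ℝ) ^ (1 / 4 : ℝ) := by
    have h7 : (x : ℝ) ≤ 2 * N := by exact_mod_cast hx2
    calc (x : ℝ) ^ (1 / 4 : ℝ) ≤ (2 * (N : ℝ)) ^ (1 / 4 : ℝ) := Real.rpow_le_rpow (by positivity) h7 (by norm_num)
      _ = (2 : ℝ) ^ (1 / 4 : ℝ) * (N : ℝ) ^ (1 / 4 : ℝ) := Real.mul_rpow (by norm_num) hN0.le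
      _ ≤ 2 * (N : ℝ) ^ (1 / 4 : ℝ) := by
          apply mul_le_mul_of_nonneg_right _ (by positivity)
          calc (2 : ℝ) ^ (1 / 4 : ℝ) ≤ (2 : ℝ) ^ (1 : ℝ) := Real.rpow_le_rpow_of_exponent_le (by norm_num) (by norm_num)
            _ = 2 := Real.rpow_one _
  linarith

/-- convexity of the exponential function -/
theorem exp_sum_ge (I : Finset ℕ) (s : ℕ → ℝ) (m : ℝ) (h : ∑ i ∈ I, s i ≤ I.card * m) :
    (I.card : ℝ) * Real.exp (-m) ≤ ∑ i ∈ I, Real.exp (-(s i)) := by
  have h1 : ∀ i ∈ I, Real.exp (-m) * (1 + m - s i) ≤ Real.exp (-(s i)) := by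
    intro i _
    have h2 := Real.add_one_le_exp (m - s i)
    have h3 : Real.exp (-(s i)) = Real.exp (-m) * Real.exp (m - s i) := by
      rw [← Real.exp_add]
      congr 1
      ring
    rw [h3]
    exact mul_le_mul_of_nonneg_left (by linarith) (Real.exp_pos _).le
  refine le_trans ?_ (sum_le_sum h1)
  rw [← mul_sum, sum_sub_distrib, sum_const, nsmul_eq_mul]
  have h4 := (Real.exp_pos (-m)).le
  nlinarith

theorem empty_block (A : ℝ) (hA : 0 < A) (hm : ∀ n, MeasurableSet (S n)) (hi : iIndepSet S μ)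
    (hp : ∀ n, μ.real (S n) = pr A n) (c : ℝ) (hc : 0 < c) (hc1 : c < 1) :
    ∀ᵐ ω ∂μ, ∀ᶠ N : ℕ in atTop, ∃ a : ℕ, N ≤ a ∧ a + ⌊c * Real.log N ^ 2⌋₊ ≤ 2 * N ∧
      ∀ n ∈ Ioc a (a + ⌊c * Real.log N ^ 2⌋₊), ω ∉ S n := by
  classical
  -- parameters
  obtain ⟨d, hd⟩ : ∃ d : ℝ, d = (1 - c) / 8 := ⟨_, rfl⟩
  have hd0 : 0 < d := by rw [hd]; linarith
  have hd1 : d ≤ 1 / 8 := by rw [hd]; linarith
  obtain ⟨c', hc'⟩ : ∃ c' : ℝ, c' = (1 + d) * c / (1 - d) := ⟨_, rfl⟩
  have hc'1 : c' < 1 - d := by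
    rw [hc', div_lt_iff₀ (by linarith)]
    have : c = 1 - 8 * d := by rw [hd]; ring
    rw [this]
    nlinarith
  have hc'0 : 0 < c' := by
    rw [hc']
    have : 0 < 1 - d := by linarith
    positivity
  have hT : Tendsto (fun n : ℕ => (n : ℝ)) atTop atTop := tendsto_natCast_atTop_atTop
  have hL : Tendsto (fun n : ℕ => Real.log (n : ℝ)) atTop atTop := Real.tendsto_log_atTop.comp hT
  obtain ⟨y, hy⟩ : ∃ y : ℕ → ℕ, y = fun N : ℕ => ⌊c * Real.log N ^ 2⌋₊ := ⟨_, rfl⟩
  obtain ⟨K, hK⟩ : ∃ K : ℕ → ℕ, K = fun N : ℕ => N / y N := ⟨_, rfl⟩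
  obtain ⟨F, hF⟩ : ∃ F : ℕ → ℕ → Finset ℕ, F = fun N i => Ioc (N + i * y N) (N + (i + 1) * y N) := ⟨_, rfl⟩
  have hdis : ∀ N, ∀ a ∈ range (K N), ∀ b ∈ range (K N), a ≠ b → Disjoint (F N a) (F N b) := by
    intro N a _ b _ hab
    rw [Finset.disjoint_left, hF]
    intro n hn hn'
    rw [mem_Ioc] at hn hn'
    rcases Nat.lt_or_ge a b with h | h
    · have : (a + 1) * y N ≤ b * y N := Nat.mul_le_mul_right _ h
      omega
    · have h' : b < a := lt_of_le_of_ne h (fun h => hab h.symm)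
      have : (b + 1) * y N ≤ a * y N := Nat.mul_le_mul_right _ h'
      omega
  have hun : ∀ N M, (range M).biUnion (F N) = Ioc N (N + M * y N) := by
    intro N M
    induction M with
    | zero => simp
    | succ M ih =>
      rw [range_add_one, biUnion_insert, ih, hF]
      ext n
      rw [mem_union, mem_Ioc, mem_Ioc, mem_Ioc]
      have h1 : (M + 1) * y N = M * y N + y N := by ring
      rw [h1]
      omega
  obtain ⟨n₁, hn₁⟩ := eventually_atTop.1 (pr_small A hA d hd0)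
  have hprob : ∀ᶠ N : ℕ in atTop, μ.real (⋂ a ∈ range (K N), HF S (F N a)) ≤ 1 / (N : ℝ) ^ 2 := by
    filter_upwards [sum_dyadic A hA, eventually_ge_atTop n₁, eventually_ge_atTop 3,
      log_pow_small 2 (2 * c) 1 (by norm_num) (by positivity), hL.eventually_ge_atTop (2 / c + 2),
      log_pow_small 1 (4 / d) (3 / 4) (by norm_num) (by positivity),
      log_pow_small 3 (4 * c) d hd0 (by positivity)] with N e1 e2 e3 e4 e5 e6 e7
    have hN0 : (0 : ℝ) < N := by exact_mod_cast (by omega : 0 < N)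
    have hc2 : 0 < 2 / c := by positivity
    have hlN : 2 < Real.log (N : ℝ) := by linarith
    rw [Real.rpow_one] at e4
    have hy1 : (y N : ℝ) ≤ c * Real.log N ^ 2 := by
      rw [hy]
      exact Nat.floor_le (by positivity)
    have hy2 : 1 ≤ y N := by
      rw [hy]
      apply Nat.le_floor
      rw [Nat.cast_one]
      have h1 : 2 / c ≤ Real.log (N : ℝ) := by linarith
      rw [div_le_iff₀ hc] at h1
      nlinarith
    have hyN : (y N : ℝ) ≤ N / 2 := by linarith
    have hKy : K N * y N ≤ N := by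
      rw [hK]
      exact Nat.div_mul_le_self _ _
    have hKy' : (N : ℝ) / 2 ≤ (K N : ℝ) * y N := by
      have h1 : N < y N * (K N + 1) := by
        rw [hK]
        exact Nat.lt_mul_div_succ _ (by omega)
      have h2 : (N : ℝ) < y N * (K N + 1) := by exact_mod_cast h1
      nlinarith
    have hy0 : (0 : ℝ) < y N := by exact_mod_cast hy2
    -- the sums over the blocks
    have hs : ∑ i ∈ range (K N), (∑ n ∈ F N i, pr A n) / (1 - d) ≤ ((range (K N)).card : ℝ) * (c' * Real.log N) := by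
      rw [← sum_div, ← sum_biUnion (fun a ha b hb hab => hdis N a ha b hb hab), hun, card_range]
      have h1 := e1 (N + K N * y N) (by omega) (by omega)
      have h2 : (((N + K N * y N : ℕ) : ℝ) - N) = K N * y N := by push_cast; ring
      rw [h2] at h1
      have h3 : 2 * (N : ℝ) ^ (1 / 4 : ℝ) ≤ d * ((K N : ℝ) * y N / Real.log N) := by
        have h4 : 2 * (N : ℝ) ^ (1 / 4 : ℝ) ≤ d * ((N / 2) / Real.log N) := by
          rw [← mul_div_assoc, le_div_iff₀ (by linarith)]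
          rw [pow_one] at e6
          have h5 : (N : ℝ) ^ (1 / 4 : ℝ) * (N : ℝ) ^ (3 / 4 : ℝ) = N := by
            rw [← Real.rpow_add hN0]
            norm_num
          have h6 := mul_le_mul_of_nonneg_left e6 (show 0 ≤ (N : ℝ) ^ (1 / 4 : ℝ) by positivity)
          rw [h5] at h6
          have h7 := mul_le_mul_of_nonneg_left h6 (show 0 ≤ d / 2 by positivity)
          calc 2 * (N : ℝ) ^ (1 / 4 : ℝ) * Real.log N = d / 2 * ((N : ℝ) ^ (1 / 4 : ℝ) * (4 / d * Real.log N)) := by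
                field_simp
                ring
            _ ≤ d / 2 * N := h7
            _ = d * (N / 2) := by ring
        refine h4.trans (mul_le_mul_of_nonneg_left ?_ hd0.le)
        exact div_le_div_of_nonneg_right hKy' (by linarith)
      have h4 : ∑ n ∈ Ioc N (N + K N * y N), pr A n ≤ (1 + d) * ((K N : ℝ) * y N / Real.log N) := by linarith
      have h5 : (K N : ℝ) * y N / Real.log N ≤ K N * (c * Real.log N) := by
        rw [div_le_iff₀ (by linarith)]
        have h6 := mul_le_mul_of_nonneg_left hy1 (Nat.cast_nonneg (K N) : (0 : ℝ) ≤ K N)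
        calc (K N : ℝ) * y N ≤ K N * (c * Real.log N ^ 2) := h6
          _ = K N * (c * Real.log N) * Real.log N := by ring
      rw [div_le_iff₀ (by linarith)]
      calc ∑ n ∈ Ioc N (N + K N * y N), pr A n ≤ (1 + d) * ((K N : ℝ) * y N / Real.log N) := h4
        _ ≤ (1 + d) * (K N * (c * Real.log N)) := mul_le_mul_of_nonneg_left h5 (by linarith)
        _ = K N * (c' * Real.log N) * (1 - d) := by
            have : (1 - d) ≠ 0 := by
              have : 0 < 1 - d := by linarith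
              exact this.ne'
            rw [hc']
            field_simp
    have h6 := exp_sum_ge (range (K N)) (fun i => (∑ n ∈ F N i, pr A n) / (1 - d)) (c' * Real.log N) hs
    have hq : ∀ i ∈ range (K N), Real.exp (-((∑ n ∈ F N i, pr A n) / (1 - d))) ≤ ∏ n ∈ F N i, (1 - μ.real (S n)) := by
      intro i _
      rw [sum_div, ← sum_neg_distrib, Real.exp_sum]
      refine prod_le_prod (fun n _ => (Real.exp_pos _).le) (fun n hn => ?_)
      rw [hp]
      refine one_sub_ge (pr_nonneg A n) (hn₁ n ?_) (by linarith)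
      rw [hF, mem_Ioc] at hn
      omega
    rw [real_inter_HF hm hi (range (K N)) (F N) (hdis N)]
    have h7 : ∏ a ∈ range (K N), (1 - ∏ n ∈ F N a, (1 - μ.real (S n))) ≤
        Real.exp (-(∑ a ∈ range (K N), Real.exp (-((∑ n ∈ F N a, pr A n) / (1 - d))))) := by
      rw [← sum_neg_distrib, Real.exp_sum]
      refine prod_le_prod (fun a _ => ?_) fun a ha => ?_
      · have : ∏ n ∈ F N a, (1 - μ.real (S n)) ≤ 1 :=
          prod_le_one (fun n _ => by linarith [measureReal_le_one (μ := μ) (s := S n)])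
            fun n _ => by linarith [measureReal_nonneg (μ := μ) (s := S n)]
        linarith
      · have h3 := Real.add_one_le_exp (-(Real.exp (-((∑ n ∈ F N a, pr A n) / (1 - d)))))
        have h4 := hq a ha
        linarith
    refine h7.trans ?_
    -- `K exp (-c' log N) ≥ 2 log N`
    have h8 : 2 * Real.log N ≤ ((range (K N)).card : ℝ) * Real.exp (-(c' * Real.log N)) := by
      rw [card_range]
      have h9 : Real.exp (-(c' * Real.log N)) = (N : ℝ) ^ (-c') := by
        rw [Real.rpow_def_of_pos hN0]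
        congr 1
        ring
      rw [h9]
      have h10 : (N : ℝ) ^ d ≤ (N : ℝ) * (N : ℝ) ^ (-c') := by
        have h11 : (N : ℝ) * (N : ℝ) ^ (-c') = (N : ℝ) ^ (1 - c') := by
          rw [← Real.rpow_one_add' hN0.le (by
            have : 0 < 1 + -c' := by linarith
            exact this.ne')]
          congr 1
        rw [h11]
        exact Real.rpow_le_rpow_of_exponent_le (by exact_mod_cast (by omega : 1 ≤ N)) (by linarith)
      have h12 : (N : ℝ) / (2 * (c * Real.log N ^ 2)) ≤ K N := by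
        rw [div_le_iff₀ (by positivity)]
        have h13 := mul_le_mul_of_nonneg_left hy1 (Nat.cast_nonneg (K N) : (0 : ℝ) ≤ K N)
        nlinarith
      have h14 : 0 ≤ (N : ℝ) ^ (-c') := by positivity
      refine le_trans ?_ (mul_le_mul_of_nonneg_right h12 h14)
      rw [div_mul_eq_mul_div, le_div_iff₀ (by positivity)]
      calc 2 * Real.log N * (2 * (c * Real.log N ^ 2)) = 4 * c * Real.log N ^ 3 := by ring
        _ ≤ (N : ℝ) ^ d := e7
        _ ≤ (N : ℝ) * (N : ℝ) ^ (-c') := h10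
    calc Real.exp (-(∑ a ∈ range (K N), Real.exp (-((∑ n ∈ F N a, pr A n) / (1 - d))))) ≤
          Real.exp (-(2 * Real.log N)) := Real.exp_le_exp.2 (by linarith)
      _ = 1 / (N : ℝ) ^ 2 := by
          rw [Real.exp_neg, show 2 * Real.log N = Real.log ((N : ℝ) ^ 2) by rw [Real.log_pow]; norm_num,
            Real.exp_log (by positivity), one_div]
  obtain ⟨n₀, hn₀⟩ := eventually_atTop.1 hprob
  have hsum : Summable (fun N : ℕ => 1 / (N : ℝ) ^ 2) := Real.summable_one_div_nat_pow.2 (by norm_num)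
  have h2 := bc (μ := μ) (fun N => ⋂ a ∈ range (K N), HF S (F N a)) n₀ _ hsum (fun n hn => hn₀ n hn)
  filter_upwards [h2] with ω hω
  filter_upwards [hω] with N h3
  simp only [Set.mem_iInter, not_forall] at h3
  obtain ⟨i, hi1, hi2⟩ := h3
  rw [mem_range] at hi1
  refine ⟨N + i * y N, by omega, ?_, ?_⟩
  · have h4 : (i + 1) * y N ≤ K N * y N := Nat.mul_le_mul_right _ hi1
    have h5 : K N * y N ≤ N := by
      rw [hK]
      exact Nat.div_mul_le_self _ _
    have h6 : ⌊c * Real.log (N : ℝ) ^ 2⌋₊ = y N := by rw [hy]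
    have h7 : (i + 1) * y N = i * y N + y N := by ring
    rw [h6]
    omega
  · intro n hn hnS
    apply hi2
    unfold HF
    simp only [Set.mem_iUnion]
    refine ⟨n, ?_, hnS⟩
    have h6 : ⌊c * Real.log (N : ℝ) ^ 2⌋₊ = y N := by rw [hy]
    rw [h6] at hn
    rw [hF, mem_Ioc]
    rw [mem_Ioc] at hn
    have h7 : (i + 1) * y N = i * y N + y N := by ring
    omega

/-- for all constants `c < 1` -/
theorem gaps_lower (A : ℝ) (hA : 0 < A) (hm : ∀ n, MeasurableSet (S n)) (hi : iIndepSet S μ)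
    (hp : ∀ n, μ.real (S n) = pr A n) :
    ∀ᵐ ω ∂μ, ∀ c : ℝ, c < 1 → ∀ᶠ N : ℕ in atTop, ∃ a : ℕ, N ≤ a ∧ a + ⌊c * Real.log N ^ 2⌋₊ ≤ 2 * N ∧
      ∀ n ∈ Ioc a (a + ⌊c * Real.log N ^ 2⌋₊), ω ∉ S n := by
  have hmain : ∀ᵐ ω ∂μ, ∀ j : ℕ, ∀ᶠ N : ℕ in atTop, ∃ a : ℕ, N ≤ a ∧
      a + ⌊(1 - 1 / ((j : ℝ) + 2)) * Real.log N ^ 2⌋₊ ≤ 2 * N ∧
      ∀ n ∈ Ioc a (a + ⌊(1 - 1 / ((j : ℝ) + 2)) * Real.log N ^ 2⌋₊), ω ∉ S n := by
    rw [ae_all_iff]; intro j
    have hj : (0 : ℝ) ≤ j := Nat.cast_nonneg _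
    have h1 : 1 / ((j : ℝ) + 2) ≤ 1 / 2 := one_div_le_one_div_of_le (by norm_num) (by linarith)
    have h2 : 0 < 1 / ((j : ℝ) + 2) := by positivity
    exact empty_block A hA hm hi hp _ (by linarith) (by linarith)
  filter_upwards [hmain] with ω hω c hc
  obtain ⟨j, hj⟩ := exists_nat_gt (1 / (1 - c))
  have hcj : c ≤ 1 - 1 / ((j : ℝ) + 2) := by
    have h5 : 1 / ((j : ℝ) + 2) ≤ 1 - c := by
      rw [div_le_iff₀ (by positivity)]
      rw [div_lt_iff₀ (by linarith)] at hj
      nlinarith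
    linarith
  filter_upwards [hω j] with N hN
  obtain ⟨a, h1, h2, h3⟩ := hN
  have h4 : ⌊c * Real.log N ^ 2⌋₊ ≤ ⌊(1 - 1 / ((j : ℝ) + 2)) * Real.log N ^ 2⌋₊ :=
    Nat.floor_le_floor (mul_le_mul_of_nonneg_right hcj (sq_nonneg _))
  refine ⟨a, h1, by omega, fun n hn => h3 n ?_⟩
  rw [mem_Ioc] at hn ⊢
  omega

end Pool.Agent.T2H62.MD
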