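import Pool.Agent.T2H62.MD.H
import Pool.Agent.Y835.SB.Lin2

set_option autoImplicit false

/-! # Random primes: the gaps are less than every power of `log x` beyond the square -/

namespace Pool.Agent.T2H62.MD

open Finset Filter Topology MeasureTheory ProbabilityTheory
open Pool.Agent.T2H53.GW

variable {Ω : Type*} [MeasurableSpace Ω] {μ : Measure Ω} [IsProbabilityMeasure μ] {S : ℕ → Set Ω}

/-- without prime factors `≤ A log n` the probability is at least `1 / log n` -/
theorem pr_ge {A : ℝ} {n : ℕ} (hn : 3 ≤ n) (h : ∀ p : ℕ, p.Prime → (p : ℝ) ≤ A * Real.log n → ¬ p ∣ n) :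
    1 / Real.log n ≤ pr A n := by
  have hn0 : (0 : ℝ) < n := by exact_mod_cast (by omega : 0 < n)
  have hn3' : (3 : ℝ) ≤ n := by exact_mod_cast hn
  have hl : 1 ≤ Real.log n := by
    rw [Real.le_log_iff_exp_le hn0]
    have := Real.exp_one_lt_d9
    linarith
  unfold pr
  rw [if_pos h]
  refine le_min ?_ ?_
  · rw [div_le_one (by linarith)]; exact hl
  · exact div_le_div_of_nonneg_right (one_le_VV _) (by linarith)

theorem log_log_small (M : ℝ) (k : ℕ) (e : ℝ) (he : 0 < e) : ∀ᶠ N : ℕ in atTop,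
    M * Real.log (Real.log N) ^ k ≤ Real.log N ^ e := by
  have hT : Tendsto (fun n : ℕ => (n : ℝ)) atTop atTop := tendsto_natCast_atTop_atTop
  have hL : Tendsto (fun n : ℕ => Real.log (n : ℝ)) atTop atTop := Real.tendsto_log_atTop.comp hT
  obtain ⟨M', hM', hMM⟩ : ∃ M' : ℝ, 0 < M' ∧ M ≤ M' := ⟨|M| + 1, by positivity, by linarith [le_abs_self M]⟩
  have h3 := (isLittleO_log_rpow_rpow_atTop (s := e) (k : ℝ) he).comp_tendsto hL
  have h4 := h3.bound (show (0 : ℝ) < 1 / M' by positivity)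
  filter_upwards [h4, hL.eventually_ge_atTop 1] with N hN hN1
  simp only [Function.comp, Real.norm_eq_abs, Real.rpow_natCast] at hN
  have h5 : 0 ≤ Real.log (Real.log N) := Real.log_nonneg hN1
  have h6 : 0 ≤ Real.log (Real.log N) ^ k := by positivity
  have h10 : 0 ≤ Real.log (N : ℝ) ^ e := Real.rpow_nonneg (by linarith) _
  rw [abs_of_nonneg h6, abs_of_nonneg h10] at hN
  have h7 := mul_le_mul_of_nonneg_left hN hM'.le
  have h8 : M' * (1 / M' * Real.log (N : ℝ) ^ e) = Real.log (N : ℝ) ^ e := by field_simp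
  rw [h8] at h7
  have h9 : M * Real.log (Real.log N) ^ k ≤ M' * Real.log (Real.log N) ^ k :=
    mul_le_mul_of_nonneg_right hMM h6
  linarith

/-- every interval `(N, N + (log N) ^ t]` contains many integers without small prime factors: the sum of probabilities -/
theorem mean_short (A : ℝ) (hA : 0 < A) (t : ℝ) (ht : 2 < t) (ht3 : t ≤ 3) : ∀ᶠ N : ℕ in atTop,
    2 * Real.log N ≤ ∑ n ∈ Ioc N (N + ⌊Real.log N ^ t⌋₊), pr A n := by
  classical
  obtain ⟨ζ, hζ⟩ : ∃ ζ : ℝ, ζ = (1 / t + 1 / 2) / 2 := ⟨_, rfl⟩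
  have ht0 : 0 < t := by linarith
  have h1t : 1 / t < 1 / 2 := one_div_lt_one_div_of_lt (by norm_num) ht
  have h1t0 : 0 < 1 / t := by positivity
  have hζ1 : 1 / 4 ≤ ζ := by rw [hζ]; linarith
  have hζ2 : ζ < 1 / 2 := by rw [hζ]; linarith
  have hζt : 1 < t * ζ := by
    have h2 : t * ζ = (1 + t / 2) / 2 := by rw [hζ]; field_simp
    rw [h2]
    linarith
  obtain ⟨c, hc, Y0, hlin⟩ := Pool.Agent.Y835.SB.lin_low ζ hζ1 hζ2
  have hT : Tendsto (fun n : ℕ => (n : ℝ)) atTop atTop := tendsto_natCast_atTop_atTop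
  have hL : Tendsto (fun n : ℕ => Real.log (n : ℝ)) atTop atTop := Real.tendsto_log_atTop.comp hT
  have hY : Tendsto (fun N : ℕ => ⌊Real.log (N : ℝ) ^ t⌋₊) atTop atTop :=
    tendsto_nat_floor_atTop.comp ((tendsto_rpow_atTop ht0).comp hL)
  -- sizes
  have hs1 : ∀ᶠ N : ℕ in atTop, 2 * A * Real.log N < (Real.log N ^ t - 1) ^ ζ := by
    have h2 : ∀ᶠ u : ℝ in atTop, 4 * A * u < u ^ (t * ζ) := by
      have h3 := (tendsto_rpow_atTop (show 0 < t * ζ - 1 by linarith)).eventually_gt_atTop (4 * A)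
      filter_upwards [h3, eventually_gt_atTop (0 : ℝ)] with u hu hu0
      have h4 : u ^ (t * ζ) = u ^ (t * ζ - 1) * u := by
        rw [← Real.rpow_add_one hu0.ne']
        congr 1
        ring
      rw [h4]
      exact mul_lt_mul_of_pos_right hu hu0
    filter_upwards [hL.eventually h2, hL.eventually_ge_atTop 2] with N h3 h4
    have h5 : (Real.log N ^ t) / 2 ≤ Real.log N ^ t - 1 := by
      have h6 : (2 : ℝ) ≤ Real.log N ^ t := by
        calc (2 : ℝ) ≤ Real.log N := h4
          _ = Real.log N ^ (1 : ℝ) := (Real.rpow_one _).symm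
          _ ≤ Real.log N ^ t := Real.rpow_le_rpow_of_exponent_le (by linarith) (by linarith)
      linarith
    have h6 : ((Real.log N ^ t) / 2) ^ ζ ≤ (Real.log N ^ t - 1) ^ ζ :=
      Real.rpow_le_rpow (by positivity) h5 (by linarith)
    refine lt_of_lt_of_le ?_ h6
    rw [Real.div_rpow (by positivity) (by norm_num), ← Real.rpow_mul (by linarith), lt_div_iff₀ (by positivity)]
    have h7 : (2 : ℝ) ^ ζ ≤ 2 := by
      calc (2 : ℝ) ^ ζ ≤ (2 : ℝ) ^ (1 : ℝ) := Real.rpow_le_rpow_of_exponent_le (by norm_num) (by linarith)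
        _ = 2 := Real.rpow_one _
    have h8 : 0 ≤ 2 * A * Real.log N := by
      have : 0 ≤ Real.log (N : ℝ) := by linarith
      positivity
    nlinarith
  filter_upwards [hs1, hY.eventually_ge_atTop (max Y0 4), hL.eventually_ge_atTop 2, log_log_small (8 * t / c * 2) 1 (t - 2)
    (by linarith), eventually_ge_atTop 3, log_pow_small 3 1 1 one_pos one_pos] with N e1 e2 e3 e4 e5 e6
  obtain ⟨Y, hYd⟩ : ∃ Y, Y = ⌊Real.log (N : ℝ) ^ t⌋₊ := ⟨_, rfl⟩
  rw [← hYd] at e2 ⊢
  have hN0 : (0 : ℝ) < N := by exact_mod_cast (by omega : 0 < N)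
  have hl0 : 0 < Real.log (N : ℝ) := by linarith
  have hlt0 : 0 < Real.log (N : ℝ) ^ t := Real.rpow_pos_of_pos hl0 _
  have hYle : (Y : ℝ) ≤ Real.log N ^ t := by rw [hYd]; exact Nat.floor_le hlt0.le
  have hYge : Real.log N ^ t - 1 < Y := by
    rw [hYd]
    have := Nat.lt_floor_add_one (Real.log (N : ℝ) ^ t)
    linarith
  have hY4 : (4 : ℝ) ≤ Y := by exact_mod_cast (le_max_right Y0 4).trans e2
  have hYN : (Y : ℝ) ≤ N := by
    refine hYle.trans ?_
    rw [one_mul, Real.rpow_one] at e6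
    refine le_trans ?_ e6
    rw [← Real.rpow_natCast]
    exact Real.rpow_le_rpow_of_exponent_le (by linarith) (by norm_num; exact ht3)
  have hYN' : Y ≤ N := by exact_mod_cast hYN
  -- the integers without small prime factors
  have h1 := hlin Y ((le_max_left _ _).trans e2) N
  have hl2 : ∀ n ∈ Ioc N (N + Y), 3 ≤ n ∧ Real.log (n : ℝ) ≤ 2 * Real.log N := by
    intro n hn
    rw [mem_Ioc] at hn
    refine ⟨by omega, ?_⟩
    have h2 : (n : ℝ) ≤ (N : ℝ) * N := by
      have h3 : n ≤ N * N := by nlinarith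
      exact_mod_cast h3
    calc Real.log (n : ℝ) ≤ Real.log ((N : ℝ) * N) := Real.log_le_log (by exact_mod_cast (by omega : 0 < n)) h2
      _ = 2 * Real.log N := by rw [Real.log_mul hN0.ne' hN0.ne']; ring
  obtain ⟨G, hG⟩ : ∃ G : Finset ℕ, G = (Ioc N (N + Y)).filter (fun n => ∀ p : ℕ, p.Prime → (p : ℝ) < (Y : ℝ) ^ ζ → ¬ p ∣ n) :=
    ⟨_, rfl⟩
  have hGc : c * (Y / Real.log Y) ≤ (G.card : ℝ) := by
    refine h1.trans ?_
    have h2 : ((Icc 1 Y).filter (fun h => ∀ p : ℕ, p.Prime → (p : ℝ) < (Y : ℝ) ^ ζ → ¬ p ∣ N + h)).card ≤ G.card := by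
      rw [← card_image_of_injective _ (f := fun h => N + h) (fun a b h => Nat.add_left_cancel h)]
      apply card_le_card
      intro n hn
      rw [mem_image] at hn
      obtain ⟨h, hh, rfl⟩ := hn
      rw [mem_filter, mem_Icc] at hh
      rw [hG, mem_filter, mem_Ioc]
      exact ⟨by omega, hh.2⟩
    exact_mod_cast h2
  have hpr : ∀ n ∈ G, 1 / (2 * Real.log N) ≤ pr A n := by
    intro n hn
    rw [hG, mem_filter] at hn
    obtain ⟨h3, h4⟩ := hl2 n hn.1
    have hn3 : (3 : ℝ) ≤ n := by exact_mod_cast h3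
    have hln : 1 ≤ Real.log (n : ℝ) := by
      rw [Real.le_log_iff_exp_le (by linarith)]
      have := Real.exp_one_lt_d9
      linarith
    refine le_trans ?_ (pr_ge h3 fun p hp hpA => hn.2 p hp ?_)
    · exact one_div_le_one_div_of_le (by linarith) h4
    · calc (p : ℝ) ≤ A * Real.log n := hpA
        _ ≤ A * (2 * Real.log N) := mul_le_mul_of_nonneg_left h4 hA.le
        _ = 2 * A * Real.log N := by ring
        _ < (Real.log N ^ t - 1) ^ ζ := e1
        _ ≤ (Y : ℝ) ^ ζ := by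
            apply Real.rpow_le_rpow _ hYge.le (by linarith)
            have : (1 : ℝ) ≤ Real.log N ^ t := Real.one_le_rpow (by linarith) ht0.le
            linarith
  have hsum : (G.card : ℝ) * (1 / (2 * Real.log N)) ≤ ∑ n ∈ Ioc N (N + Y), pr A n := by
    calc (G.card : ℝ) * (1 / (2 * Real.log N)) = ∑ n ∈ G, 1 / (2 * Real.log N) := by rw [sum_const, nsmul_eq_mul]
      _ ≤ ∑ n ∈ G, pr A n := sum_le_sum hpr
      _ ≤ ∑ n ∈ Ioc N (N + Y), pr A n := by
          apply sum_le_sum_of_subset_of_nonneg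
          · rw [hG]; exact filter_subset _ _
          · intro n _ _
            exact pr_nonneg A n
  refine le_trans ?_ hsum
  -- `c Y / (log Y * 2 log N) ≥ 2 log N`
  have hlY : 0 < Real.log (Y : ℝ) := Real.log_pos (by linarith)
  have hlY' : Real.log (Y : ℝ) ≤ t * Real.log (Real.log N) := by
    calc Real.log (Y : ℝ) ≤ Real.log (Real.log (N : ℝ) ^ t) := Real.log_le_log (by linarith) hYle
      _ = t * Real.log (Real.log N) := Real.log_rpow hl0 _
  have hYhalf : Real.log (N : ℝ) ^ t / 2 ≤ Y := by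
    have : (2 : ℝ) ≤ Real.log (N : ℝ) ^ t := by linarith
    linarith
  have hsplit : Real.log (N : ℝ) ^ t = Real.log N ^ (t - 2) * Real.log N ^ 2 := by
    rw [← Real.rpow_natCast, ← Real.rpow_add hl0]
    congr 1
    norm_num
  rw [pow_one] at e4
  have h5 : 4 * Real.log N ^ 2 * Real.log Y ≤ c * Y := by
    have h6 : 4 * Real.log N ^ 2 * Real.log Y ≤ 4 * Real.log N ^ 2 * (t * Real.log (Real.log N)) :=
      mul_le_mul_of_nonneg_left hlY' (by positivity)
    have h7 : 8 * t / c * 2 * Real.log (Real.log N) * Real.log N ^ 2 ≤ Real.log (N : ℝ) ^ t := by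
      rw [hsplit]
      exact mul_le_mul_of_nonneg_right e4 (by positivity)
    have h8 : c * (8 * t / c * 2 * Real.log (Real.log N) * Real.log N ^ 2) ≤ c * (2 * Y) := by
      apply mul_le_mul_of_nonneg_left _ hc.le
      linarith
    have h9 : c * (8 * t / c * 2 * Real.log (Real.log N) * Real.log N ^ 2) =
        16 * t * Real.log (Real.log N) * Real.log N ^ 2 := by
      field_simp
      ring
    rw [h9] at h8
    have h10 : 0 ≤ t * Real.log (Real.log N) * Real.log N ^ 2 := by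
      have : 0 ≤ Real.log (Real.log (N : ℝ)) := Real.log_nonneg (by linarith)
      positivity
    nlinarith
  have h6 : 2 * Real.log N ≤ (c * (Y / Real.log Y)) * (1 / (2 * Real.log N)) := by
    have h7 : (c * (Y / Real.log Y)) * (1 / (2 * Real.log N)) = c * Y / (Real.log Y * (2 * Real.log N)) := by
      field_simp
    rw [h7, le_div_iff₀ (by positivity)]
    calc 2 * Real.log N * (Real.log Y * (2 * Real.log N)) = 4 * Real.log N ^ 2 * Real.log Y := by ring
      _ ≤ c * Y := h5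
  exact h6.trans (mul_le_mul_of_nonneg_right hGc (by positivity))

/-- the gaps between random primes -/
theorem gaps_upper (A : ℝ) (hA : 0 < A) (hm : ∀ n, MeasurableSet (S n)) (hi : iIndepSet S μ)
    (hp : ∀ n, μ.real (S n) = pr A n) :
    ∀ᵐ ω ∂μ, ∀ t : ℝ, 2 < t → ∀ᶠ N : ℕ in atTop, ∃ n ∈ Ioc N (N + ⌊Real.log N ^ t⌋₊), ω ∈ S n := by
  classical
  have hmain : ∀ᵐ ω ∂μ, ∀ j : ℕ, ∀ᶠ N : ℕ in atTop,
      ∃ n ∈ Ioc N (N + ⌊Real.log N ^ (2 + 1 / ((j : ℝ) + 1))⌋₊), ω ∈ S n := by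
    rw [ae_all_iff]; intro j
    have hj0 : (0 : ℝ) < 1 / ((j : ℝ) + 1) := by positivity
    have hj1 : 1 / ((j : ℝ) + 1) ≤ 1 := by
      rw [div_le_one (by positivity)]
      have : (0 : ℝ) ≤ j := Nat.cast_nonneg _
      linarith
    obtain ⟨n₀, hn₀⟩ := eventually_atTop.1 (mean_short A hA (2 + 1 / ((j : ℝ) + 1)) (by linarith) (by linarith))
    have hsum : Summable (fun N : ℕ => 1 / (N : ℝ) ^ 2) := Real.summable_one_div_nat_pow.2 (by norm_num)
    have h2 := bc (μ := μ) (fun N => (HF S (Ioc N (N + ⌊Real.log N ^ (2 + 1 / ((j : ℝ) + 1))⌋₊)))ᶜ) (max n₀ 1) _ hsum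
      (fun N hN => by
        refine (none_le S hm hi _).trans ?_
        have h3 := hn₀ N ((le_max_left _ _).trans hN)
        have hN0 : (0 : ℝ) < N := by exact_mod_cast (le_max_right _ _).trans hN
        simp only [hp]
        calc Real.exp (-(∑ n ∈ Ioc N (N + ⌊Real.log N ^ (2 + 1 / ((j : ℝ) + 1))⌋₊), pr A n)) ≤
              Real.exp (-(2 * Real.log N)) := Real.exp_le_exp.2 (by linarith)
          _ = 1 / (N : ℝ) ^ 2 := by
              rw [Real.exp_neg, show 2 * Real.log N = Real.log ((N : ℝ) ^ 2) by rw [Real.log_pow]; norm_num,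
                Real.exp_log (by positivity), one_div])
    filter_upwards [h2] with ω hω
    filter_upwards [hω] with N h3
    rw [Set.notMem_compl_iff] at h3
    unfold HF at h3
    simp only [Set.mem_iUnion] at h3
    obtain ⟨n, hn, hn2⟩ := h3
    exact ⟨n, hn, hn2⟩
  filter_upwards [hmain] with ω hω t ht
  obtain ⟨j, hj⟩ := exists_nat_gt (1 / (t - 2))
  have hT : Tendsto (fun n : ℕ => (n : ℝ)) atTop atTop := tendsto_natCast_atTop_atTop
  have hL : Tendsto (fun n : ℕ => Real.log (n : ℝ)) atTop atTop := Real.tendsto_log_atTop.comp hT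
  filter_upwards [hω j, hL.eventually_ge_atTop 1] with N h3 h4
  obtain ⟨n, hn, hnS⟩ := h3
  have hexp : 2 + 1 / ((j : ℝ) + 1) ≤ t := by
    have h5 : 1 / ((j : ℝ) + 1) ≤ t - 2 := by
      rw [div_le_iff₀ (by positivity)]
      rw [div_lt_iff₀ (by linarith)] at hj
      nlinarith
    linarith
  rw [mem_Ioc] at hn
  refine ⟨n, mem_Ioc.2 ⟨hn.1, hn.2.trans ?_⟩, hnS⟩
  apply Nat.add_le_add_left
  exact Nat.floor_le_floor (Real.rpow_le_rpow_of_exponent_le h4 hexp)

end Pool.Agent.T2H62.MD
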