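import Pool.Agent.T2H62.MD.B

set_option autoImplicit false

/-! # Exponential bounds for the number of the occurring events -/

namespace Pool.Agent.T2H62.MD

open Finset Filter Topology MeasureTheory ProbabilityTheory
open Pool.Agent.T2H53.GW

variable {Ω : Type*} [MeasurableSpace Ω] {μ : Measure Ω} [IsProbabilityMeasure μ]

theorem cnt_meas {ι : Type*} (I : Finset ι) (F : ι → Set Ω) (hF : ∀ i, MeasurableSet (F i)) : Measurable (cnt I F) := by
  unfold cnt
  refine Finset.measurable_sum I fun i _ => ?_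
  exact measurable_const.indicator (hF i)

theorem cnt_le {ι : Type*} (I : Finset ι) (F : ι → Set Ω) (ω : Ω) : 0 ≤ cnt I F ω ∧ cnt I F ω ≤ I.card := by
  unfold cnt
  constructor
  · exact sum_nonneg fun i _ => Set.indicator_nonneg (fun _ _ => zero_le_one) _
  · calc ∑ i ∈ I, (F i).indicator (fun _ => (1 : ℝ)) ω ≤ ∑ i ∈ I, (1 : ℝ) := sum_le_sum fun i _ =>
          Set.indicator_le_self' (fun _ _ => zero_le_one) _
      _ = I.card := by simp

/-- the moment generating function -/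
theorem mgf_le (F : ℕ → Set Ω) (hF : ∀ n, MeasurableSet (F n)) (hi : iIndepSet F μ) (I : Finset ℕ) (s : ℝ) :
    mgf (cnt I F) μ s ≤ Real.exp ((∑ n ∈ I, μ.real (F n)) * (Real.exp s - 1)) := by
  have h1 : iIndepFun (fun n => (F n).indicator (fun _ => (1 : ℝ))) μ := hi.iIndepFun_indicator
  have h2 : cnt I F = ∑ i ∈ I, (fun n => (F n).indicator (fun _ => (1 : ℝ))) i := by
    ext ω
    rw [Finset.sum_apply]
    rfl
  rw [h2, h1.mgf_sum (fun n => measurable_const.indicator (hF n)), sum_mul, Real.exp_sum]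
  refine prod_le_prod (fun n _ => mgf_nonneg) fun n _ => ?_
  have h3 : mgf ((F n).indicator (fun _ => (1 : ℝ))) μ s = 1 + μ.real (F n) * (Real.exp s - 1) := by
    unfold mgf
    have h4 : ∀ ω, Real.exp (s * (F n).indicator (fun _ => (1 : ℝ)) ω) =
        1 + (F n).indicator (fun _ => Real.exp s - 1) ω := by
      intro ω
      by_cases h : ω ∈ F n
      · rw [Set.indicator_of_mem h, Set.indicator_of_mem h]
        rw [mul_one]
        ring
      · rw [Set.indicator_of_notMem h, Set.indicator_of_notMem h]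
        simp
    simp_rw [h4]
    rw [integral_add (integrable_const _) ((integrable_const _).indicator (hF n)), integral_indicator_const _ (hF n)]
    simp
  rw [h3]
  have h5 := Real.add_one_le_exp (μ.real (F n) * (Real.exp s - 1))
  linarith

theorem exp_sq {s : ℝ} (h1 : -1 ≤ s) (h2 : s ≤ 1) : Real.exp s - 1 ≤ s + s ^ 2 := by
  have h4 : |Real.exp s - 1 - s| ≤ s ^ 2 := Real.abs_exp_sub_one_sub_id_le (abs_le.2 ⟨h1, h2⟩)
  linarith [(abs_le.1 h4).2]

/-- Chernoff's bound -/
theorem chernoff (F : ℕ → Set Ω) (hF : ∀ n, MeasurableSet (F n)) (hi : iIndepSet F μ) (I : Finset ℕ) (M t : ℝ)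
    (hM : ∑ n ∈ I, μ.real (F n) ≤ M) (ht : 0 ≤ t) (htM : t ≤ M) (hM0 : 0 < M) :
    μ.real {ω | t ≤ |cnt I F ω - ∑ n ∈ I, μ.real (F n)|} ≤ 2 * Real.exp (-(t ^ 2 / (4 * M))) := by
  obtain ⟨m, hm⟩ : ∃ m, m = ∑ n ∈ I, μ.real (F n) := ⟨_, rfl⟩
  rw [← hm] at hM ⊢
  have hm0 : 0 ≤ m := by
    rw [hm]
    exact sum_nonneg fun n _ => measureReal_nonneg
  have hint : ∀ s : ℝ, Integrable (fun ω => Real.exp (s * cnt I F ω)) μ := by
    intro s
    refine Integrable.of_bound (C := Real.exp (|s| * I.card)) ?_ ?_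
    · exact ((cnt_meas I F hF).const_mul s).exp.aestronglyMeasurable
    · refine Eventually.of_forall fun ω => ?_
      rw [Real.norm_eq_abs, abs_of_pos (Real.exp_pos _)]
      apply Real.exp_le_exp.2
      obtain ⟨h1, h2⟩ := cnt_le I F ω
      calc s * cnt I F ω ≤ |s| * cnt I F ω := mul_le_mul_of_nonneg_right (le_abs_self s) h1
        _ ≤ |s| * I.card := mul_le_mul_of_nonneg_left h2 (abs_nonneg s)
  have hup : ∀ s : ℝ, -1 ≤ s → s ≤ 1 → mgf (cnt I F) μ s ≤ Real.exp (m * s + M * s ^ 2) := by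
    intro s hs1 hs2
    refine (mgf_le F hF hi I s).trans (Real.exp_le_exp.2 ?_)
    rw [← hm]
    have h1 := mul_le_mul_of_nonneg_left (exp_sq hs1 hs2) hm0
    have h2 := mul_le_mul_of_nonneg_right hM (sq_nonneg s)
    nlinarith
  obtain ⟨s, hs⟩ : ∃ s, s = t / (2 * M) := ⟨_, rfl⟩
  have hs0 : 0 ≤ s := by rw [hs]; positivity
  have hs1 : s ≤ 1 := by
    rw [hs, div_le_one (by positivity)]
    linarith
  have hval : M * s ^ 2 - s * t = -(t ^ 2 / (4 * M)) := by
    rw [hs]
    field_simp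
    ring
  have h1 : μ.real {ω | m + t ≤ cnt I F ω} ≤ Real.exp (-(t ^ 2 / (4 * M))) := by
    refine (measure_ge_le_exp_mul_mgf (m + t) hs0 (hint s)).trans ?_
    have h2 := mul_le_mul_of_nonneg_left (hup s (by linarith) hs1) (Real.exp_pos (-s * (m + t))).le
    refine h2.trans (le_of_eq ?_)
    rw [← Real.exp_add]
    congr 1
    rw [← hval]
    ring
  have h2 : μ.real {ω | cnt I F ω ≤ m - t} ≤ Real.exp (-(t ^ 2 / (4 * M))) := by
    refine (measure_le_le_exp_mul_mgf (m - t) (by linarith : -s ≤ 0) (hint (-s))).trans ?_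
    have h2 := mul_le_mul_of_nonneg_left (hup (-s) (by linarith) (by linarith)) (Real.exp_pos (-(-s) * (m - t))).le
    refine h2.trans (le_of_eq ?_)
    rw [← Real.exp_add]
    congr 1
    rw [← hval]
    ring
  have hsub : {ω | t ≤ |cnt I F ω - m|} ⊆ {ω | m + t ≤ cnt I F ω} ∪ {ω | cnt I F ω ≤ m - t} := by
    intro ω hω
    simp only [Set.mem_ofPred_eq, Set.mem_union] at hω ⊢
    rcases le_abs.1 hω with h | h
    · left; linarith
    · right; linarith
  calc μ.real {ω | t ≤ |cnt I F ω - m|} ≤ μ.real ({ω | m + t ≤ cnt I F ω} ∪ {ω | cnt I F ω ≤ m - t}) :=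
        measureReal_mono hsub
    _ ≤ μ.real {ω | m + t ≤ cnt I F ω} + μ.real {ω | cnt I F ω ≤ m - t} := measureReal_union_le _ _
    _ ≤ 2 * Real.exp (-(t ^ 2 / (4 * M))) := by linarith

end Pool.Agent.T2H62.MD
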