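import Pool.Agent.T2H62.MD.Sh
import Pool.Agent.T2H62.MD.N

set_option autoImplicit false

/-! # Random primes: the Hardy-Littlewood asymptotics in all short intervals -/

namespace Pool.Agent.T2H62.MD

open Finset Filter Topology MeasureTheory ProbabilityTheory
open Pool.Agent.T2H53.GW
open Pool.Agent.H305R2 (VV VV_tendsto)

variable {Ω : Type*} [MeasurableSpace Ω] {μ : Measure Ω} [IsProbabilityMeasure μ] {S : ℕ → Set Ω}

/-- the `n` with `Q n + r` in `(a, b]` -/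
def IC (Q r a b : ℕ) : Finset ℕ := (range (b + 1)).filter (fun n => Q * n + r ∈ Ioc a b)

theorem class_sum (Q : ℕ) (hQ : 0 < Q) (a b : ℕ) (f : ℕ → ℝ) :
    ∑ n ∈ Ioc a b, f n = ∑ r ∈ range Q, ∑ n ∈ IC Q r a b, f (Q * n + r) := by
  classical
  rw [← sum_fiberwise_of_maps_to (s := Ioc a b) (t := range Q) (g := fun n => n % Q)
    (fun n _ => mem_range.2 (Nat.mod_lt _ hQ))]
  refine sum_congr rfl fun r hr => ?_
  rw [mem_range] at hr
  symm
  apply sum_bij' (i := fun n _ => Q * n + r) (j := fun n _ => n / Q)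
  · intro n hn
    unfold IC at hn
    rw [mem_filter] at hn ⊢
    refine ⟨hn.2, ?_⟩
    rw [Nat.mul_add_mod, Nat.mod_eq_of_lt hr]
  · intro n hn
    rw [mem_filter] at hn
    have h1 : Q * (n / Q) + r = n := by
      have := Nat.div_add_mod n Q
      rw [hn.2] at this
      exact this
    unfold IC
    rw [mem_filter, mem_range]
    refine ⟨?_, by rw [h1]; exact hn.1⟩
    have h2 := (mem_Ioc.1 hn.1).2
    have h3 : n / Q ≤ n := Nat.div_le_self _ _
    omega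
  · intro n _
    rw [Nat.mul_add_div hQ, Nat.div_eq_of_lt hr, add_zero]
  · intro n hn
    rw [mem_filter] at hn
    have := Nat.div_add_mod n Q
    rw [hn.2] at this
    exact this
  · intro n _
    rfl

/-- the bound for the probability of a large deviation -/
theorem dev_prob (hm : ∀ n, MeasurableSet (S n)) (hi : iIndepSet S μ) (T : Finset ℕ) (y : ℕ) (hT : T ⊆ Icc 1 y)
    (a b : ℕ) (m t : ℝ) (hm' : ∑ n ∈ Ioc a b, μ.real (Fh S T n) ≤ m) (ht : 0 ≤ t) (htm : t ≤ m) (hm0 : 0 < m) :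
    μ.real {ω | ((y : ℝ) + 1) * t < |cnt (Ioc a b) (Fh S T) ω - ∑ n ∈ Ioc a b, μ.real (Fh S T n)|} ≤
      ((y : ℝ) + 1) * (2 * Real.exp (-(t ^ 2 / (4 * m)))) := by
  classical
  obtain ⟨Q, hQ⟩ : ∃ Q, Q = y + 1 := ⟨_, rfl⟩
  have hQ0 : 0 < Q := by omega
  have hQr : (Q : ℝ) = (y : ℝ) + 1 := by rw [hQ]; push_cast; ring
  rw [← hQr]
  have hc : ∀ ω, cnt (Ioc a b) (Fh S T) ω = ∑ r ∈ range Q, cnt (IC Q r a b) (fun n => Fh S T (Q * n + r)) ω := by
    intro ω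
    unfold cnt
    exact class_sum Q hQ0 a b (fun n => (Fh S T n).indicator (fun _ => (1 : ℝ)) ω)
  have hs := class_sum Q hQ0 a b (fun n => μ.real (Fh S T n))
  have hr : ∀ r ∈ range Q, ∑ n ∈ IC Q r a b, μ.real (Fh S T (Q * n + r)) ≤ m := by
    intro r hr
    refine le_trans ?_ hm'
    rw [hs]
    exact single_le_sum (f := fun r => ∑ n ∈ IC Q r a b, μ.real (Fh S T (Q * n + r)))
      (fun i _ => sum_nonneg fun n _ => measureReal_nonneg) hr
  have hsub : {ω | (Q : ℝ) * t < |cnt (Ioc a b) (Fh S T) ω - ∑ n ∈ Ioc a b, μ.real (Fh S T n)|} ⊆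
      ⋃ r ∈ range Q, {ω | t ≤ |cnt (IC Q r a b) (fun n => Fh S T (Q * n + r)) ω -
        ∑ n ∈ IC Q r a b, μ.real (Fh S T (Q * n + r))|} := by
    intro ω hω
    simp only [Set.mem_iUnion]
    by_contra hcon
    push Not at hcon
    have h1 : |cnt (Ioc a b) (Fh S T) ω - ∑ n ∈ Ioc a b, μ.real (Fh S T n)| ≤ (Q : ℝ) * t := by
      rw [hc, hs, ← sum_sub_distrib]
      refine (abs_sum_le_sum_abs _ _).trans ?_
      calc ∑ r ∈ range Q, |cnt (IC Q r a b) (fun n => Fh S T (Q * n + r)) ω -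
            ∑ n ∈ IC Q r a b, μ.real (Fh S T (Q * n + r))| ≤ ∑ r ∈ range Q, t := by
            refine sum_le_sum fun r hr' => ?_
            have := hcon r hr'
            by_contra h2
            push Not at h2
            exact this h2.le
        _ = (Q : ℝ) * t := by
            rw [sum_const, card_range, nsmul_eq_mul]
    have h2 : (Q : ℝ) * t < |cnt (Ioc a b) (Fh S T) ω - ∑ n ∈ Ioc a b, μ.real (Fh S T n)| := hω
    linarith
  calc μ.real {ω | (Q : ℝ) * t < |cnt (Ioc a b) (Fh S T) ω - ∑ n ∈ Ioc a b, μ.real (Fh S T n)|} ≤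
        μ.real (⋃ r ∈ range Q, {ω | t ≤ |cnt (IC Q r a b) (fun n => Fh S T (Q * n + r)) ω -
        ∑ n ∈ IC Q r a b, μ.real (Fh S T (Q * n + r))|}) := measureReal_mono hsub (measure_ne_top _ _)
    _ ≤ ∑ r ∈ range Q, μ.real {ω | t ≤ |cnt (IC Q r a b) (fun n => Fh S T (Q * n + r)) ω -
        ∑ n ∈ IC Q r a b, μ.real (Fh S T (Q * n + r))|} := measureReal_biUnion_finset_le _ _
    _ ≤ ∑ r ∈ range Q, 2 * Real.exp (-(t ^ 2 / (4 * m))) := by
        refine sum_le_sum fun r hr' => ?_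
        refine chernoff (fun n => Fh S T (Q * n + r)) (fun n => Fh_meas hm T _) ?_ (IC Q r a b) m t (hr r hr') ht htm hm0
        refine indep_Fh hm hi T Q r fun h hh => ?_
        have := mem_Icc.1 (hT hh)
        omega
    _ = (Q : ℝ) * (2 * Real.exp (-(t ^ 2 / (4 * m)))) := by
        rw [sum_const, card_range, nsmul_eq_mul]

/-- one tuple, one exponent, one error -/
theorem HL_one (A : ℝ) (hA : 0 < A) (hm : ∀ n, MeasurableSet (S n)) (hi : iIndepSet S μ)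
    (hp : ∀ n, μ.real (S n) = pr A n) (T : Finset ℕ) (y : ℕ) (hT : T ⊆ Icc 1 y) (s : ℝ) (hs0 : 0 < s)
    (hs : Tendsto (SS T) atTop (𝓝 s)) (ε δ : ℝ) (hε : 0 < ε) (hδ : 0 < δ) :
    ∀ᵐ ω ∂μ, ∀ᶠ N : ℕ in atTop, ∀ M : ℕ, (N : ℝ) + (N : ℝ) ^ ε ≤ M → M ≤ 2 * N →
      |cnt (Ioc N M) (Fh S T) ω - s * (((M : ℝ) - N) / Real.log N ^ T.card)| ≤
        δ * (((M : ℝ) - N) / Real.log N ^ T.card) := by
  classical
  have hTn : Tendsto (fun n : ℕ => (n : ℝ)) atTop atTop := tendsto_natCast_atTop_atTop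
  have hL : Tendsto (fun n : ℕ => Real.log (n : ℝ)) atTop atTop := Real.tendsto_log_atTop.comp hTn
  obtain ⟨k, hk⟩ : ∃ k, k = T.card := ⟨_, rfl⟩
  rw [← hk]
  obtain ⟨q, hq⟩ : ∃ q : ℝ, q = (y : ℝ) + 1 := ⟨_, rfl⟩
  have hq1 : 1 ≤ q := by
    rw [hq]
    have : (0 : ℝ) ≤ y := Nat.cast_nonneg _
    linarith
  have hq0 : 0 < q := by linarith
  obtain ⟨e, he⟩ : ∃ e : ℝ, e = δ / (2 * q) := ⟨_, rfl⟩
  have he0 : 0 < e := by rw [he]; positivity
  obtain ⟨κ, hκ⟩ : ∃ κ : ℝ, κ = e ^ 2 / (4 * (s + δ + e)) := ⟨_, rfl⟩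
  have hκ0 : 0 < κ := by rw [hκ]; positivity
  obtain ⟨B, hB⟩ : ∃ B : ℕ → ℕ → Set Ω, B = fun (N M : ℕ) => {ω | q * (e * (((M : ℝ) - N) / Real.log N ^ k)) <
      |cnt (Ioc N M) (Fh S T) ω - ∑ n ∈ Ioc N M, μ.real (Fh S T n)|} := ⟨_, rfl⟩
  obtain ⟨I, hI⟩ : ∃ I : ℕ → Finset ℕ, I = fun N : ℕ => (Icc N (2 * N)).filter (fun M : ℕ => (N : ℝ) + (N : ℝ) ^ ε ≤ M) := ⟨_, rfl⟩
  have hmean := mean_HL A hA T y hT s hs0 hs ε (δ / 2) hε (by positivity)
  have hFr : ∀ n, μ.real (Fh S T n) = ∏ h ∈ T, pr A (n + h) := by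
    intro n
    rw [prob_Fh hm hi]
    exact prod_congr rfl fun h _ => hp _
  have hprob : ∀ᶠ N : ℕ in atTop, μ.real (⋃ M ∈ I N, B N M) ≤ 4 * q * (1 / (N : ℝ) ^ 2) := by
    filter_upwards [hmean, log_pow_small (k + 1) (3 / κ) ε hε (by positivity), eventually_ge_atTop 3] with N e1 e2 e3
    have hN0 : (0 : ℝ) < N := by exact_mod_cast (by omega : 0 < N)
    have hN1 : (1 : ℝ) ≤ N := by exact_mod_cast (by omega : 1 ≤ N)
    have hlN : 0 < Real.log (N : ℝ) := Real.log_pos (by exact_mod_cast (by omega : 1 < N))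
    have hone : ∀ M ∈ I N, μ.real (B N M) ≤ q * (2 * (1 / (N : ℝ) ^ 3)) := by
      intro M hM
      rw [hI, mem_filter, mem_Icc] at hM
      obtain ⟨⟨hM1, hM2⟩, hM3⟩ := hM
      have h1 := e1 M hM3 hM2
      rw [← hk] at h1
      obtain ⟨D, hD⟩ : ∃ D : ℝ, D = ((M : ℝ) - N) / Real.log N ^ k := ⟨_, rfl⟩
      have hNe : 0 < (N : ℝ) ^ ε := by positivity
      have hMN : (N : ℝ) ^ ε ≤ (M : ℝ) - N := by linarith
      have hLk : 0 < Real.log (N : ℝ) ^ k := by positivity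
      have hD0 : 0 < D := by
        rw [hD]
        apply div_pos _ hLk
        linarith
      rw [← hD] at h1
      have h2 : ∑ n ∈ Ioc N M, μ.real (Fh S T n) ≤ (s + δ + e) * D := by
        have h3 := (abs_le.1 h1).2
        have h4 : ∑ n ∈ Ioc N M, μ.real (Fh S T n) = ∑ n ∈ Ioc N M, ∏ h ∈ T, pr A (n + h) :=
          sum_congr rfl fun n _ => hFr n
        rw [h4]
        nlinarith [mul_pos hδ hD0, mul_pos he0 hD0]
      have h3 := dev_prob hm hi T y hT N M ((s + δ + e) * D) (e * D) h2 (by positivity)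
        (mul_le_mul_of_nonneg_right (by linarith) hD0.le) (by positivity)
      rw [← hq] at h3
      rw [hB]
      show μ.real {ω | q * (e * (((M : ℝ) - N) / Real.log N ^ k)) <
        |cnt (Ioc N M) (Fh S T) ω - ∑ n ∈ Ioc N M, μ.real (Fh S T n)|} ≤ _
      rw [← hD]
      refine h3.trans (mul_le_mul_of_nonneg_left ?_ hq0.le)
      refine mul_le_mul_of_nonneg_left ?_ (by norm_num)
      have h4 : (e * D) ^ 2 / (4 * ((s + δ + e) * D)) = κ * D := by
        rw [hκ]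
        field_simp
      rw [h4]
      have h5 : 3 * Real.log N ≤ κ * D := by
        rw [hD, ← mul_div_assoc, le_div_iff₀ hLk]
        have h6 := e2.trans hMN
        rw [div_mul_eq_mul_div, div_le_iff₀ hκ0] at h6
        calc 3 * Real.log N * Real.log N ^ k = 3 * Real.log N ^ (k + 1) := by ring
          _ ≤ ((M : ℝ) - N) * κ := h6
          _ = κ * ((M : ℝ) - N) := by ring
      calc Real.exp (-(κ * D)) ≤ Real.exp (-(3 * Real.log N)) := Real.exp_le_exp.2 (by linarith)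
        _ = 1 / (N : ℝ) ^ 3 := by
          rw [Real.exp_neg, show 3 * Real.log (N : ℝ) = Real.log ((N : ℝ) ^ 3) by rw [Real.log_pow]; norm_num,
            Real.exp_log (by positivity), one_div]
    have hcard : ((I N).card : ℝ) ≤ 2 * N := by
      have h1 : (I N).card ≤ N + 1 := by
        rw [hI]
        refine (card_filter_le _ _).trans ?_
        rw [Nat.card_Icc]
        omega
      have h2 : ((I N).card : ℝ) ≤ (N : ℝ) + 1 := by exact_mod_cast h1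
      linarith
    calc μ.real (⋃ M ∈ I N, B N M) ≤ ∑ M ∈ I N, μ.real (B N M) := measureReal_biUnion_finset_le _ _
      _ ≤ ∑ M ∈ I N, q * (2 * (1 / (N : ℝ) ^ 3)) := sum_le_sum hone
      _ = (I N).card * (q * (2 * (1 / (N : ℝ) ^ 3))) := by rw [sum_const, nsmul_eq_mul]
      _ ≤ (2 * N) * (q * (2 * (1 / (N : ℝ) ^ 3))) := mul_le_mul_of_nonneg_right hcard (by positivity)
      _ = 4 * q * (1 / (N : ℝ) ^ 2) := by
          field_simp
          ring
  obtain ⟨n₀, hn₀⟩ := eventually_atTop.1 hprob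
  have hsum : Summable (fun N : ℕ => 4 * q * (1 / (N : ℝ) ^ 2)) :=
    (Real.summable_one_div_nat_pow.2 (by norm_num)).mul_left _
  have h2 := bc (μ := μ) (fun N => ⋃ M ∈ I N, B N M) n₀ _ hsum (fun n hn => hn₀ n hn)
  filter_upwards [h2] with ω hω
  filter_upwards [hω, hmean, eventually_ge_atTop 3] with N h3 h4 h4' M hM1 hM2
  have hN0 : (0 : ℝ) < N := by exact_mod_cast (by omega : 0 < N)
  have hNe : 0 < (N : ℝ) ^ ε := by positivity
  have hMmem : M ∈ I N := by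
    rw [hI, mem_filter, mem_Icc]
    refine ⟨⟨?_, hM2⟩, hM1⟩
    have : (N : ℝ) ≤ M := by linarith
    exact_mod_cast this
  have h5 : ω ∉ B N M := by
    intro h6
    apply h3
    simp only [Set.mem_iUnion]
    exact ⟨M, hMmem, h6⟩
  rw [hB] at h5
  have h6 : |cnt (Ioc N M) (Fh S T) ω - ∑ n ∈ Ioc N M, μ.real (Fh S T n)| ≤
      q * (e * (((M : ℝ) - N) / Real.log N ^ k)) := by
    by_contra h7
    push Not at h7
    exact h5 h7
  have h7 := h4 M hM1 hM2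
  rw [← hk] at h7
  have h8 : ∑ n ∈ Ioc N M, μ.real (Fh S T n) = ∑ n ∈ Ioc N M, ∏ h ∈ T, pr A (n + h) :=
    sum_congr rfl fun n _ => hFr n
  rw [h8] at h6
  have h9 : q * (e * (((M : ℝ) - N) / Real.log N ^ k)) = δ / 2 * (((M : ℝ) - N) / Real.log N ^ k) := by
    rw [he]
    field_simp
  rw [h9] at h6
  have h10 := abs_add_le (cnt (Ioc N M) (Fh S T) ω - ∑ n ∈ Ioc N M, ∏ h ∈ T, pr A (n + h))
    (∑ n ∈ Ioc N M, ∏ h ∈ T, pr A (n + h) - s * (((M : ℝ) - N) / Real.log N ^ k))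
  rw [sub_add_sub_cancel] at h10
  linarith

/-- all admissible tuples, all exponents, all errors -/
theorem HL_short (A : ℝ) (hA : 0 < A) (hm : ∀ n, MeasurableSet (S n)) (hi : iIndepSet S μ)
    (hp : ∀ n, μ.real (S n) = pr A n) :
    ∀ᵐ ω ∂μ, ∀ T : Finset ℕ, 0 ∉ T → (∀ p : ℕ, p.Prime → nu T p < p) → ∀ s : ℝ, Tendsto (SS T) atTop (𝓝 s) →
      ∀ ε δ : ℝ, 0 < ε → 0 < δ → ∀ᶠ N : ℕ in atTop, ∀ M : ℕ, (N : ℝ) + (N : ℝ) ^ ε ≤ M → M ≤ 2 * N →
      |cnt (Ioc N M) (Fh S T) ω - s * (((M : ℝ) - N) / Real.log N ^ T.card)| ≤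
        δ * (((M : ℝ) - N) / Real.log N ^ T.card) := by
  classical
  have hmain : ∀ᵐ ω ∂μ, ∀ T : Finset ℕ, ∀ i j : ℕ, 0 ∉ T → (∀ p : ℕ, p.Prime → nu T p < p) →
      ∀ s : ℝ, Tendsto (SS T) atTop (𝓝 s) →
      ∀ᶠ N : ℕ in atTop, ∀ M : ℕ, (N : ℝ) + (N : ℝ) ^ (1 / ((i : ℝ) + 1)) ≤ M → M ≤ 2 * N →
      |cnt (Ioc N M) (Fh S T) ω - s * (((M : ℝ) - N) / Real.log N ^ T.card)| ≤
        1 / ((j : ℝ) + 1) * (((M : ℝ) - N) / Real.log N ^ T.card) := by
    rw [ae_all_iff]; intro T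
    rw [ae_all_iff]; intro i
    rw [ae_all_iff]; intro j
    by_cases h0 : 0 ∉ T ∧ ∀ p : ℕ, p.Prime → nu T p < p
    · have hTy : T ⊆ Icc 1 (∑ h ∈ T, h) := by
        intro h hh
        rw [mem_Icc]
        refine ⟨?_, single_le_sum (f := fun h => h) (fun i _ => Nat.zero_le _) hh⟩
        rcases Nat.eq_zero_or_pos h with h1 | h1
        · rw [h1] at hh
          exact absurd hh h0.1
        · exact h1
      obtain ⟨s, hs0, hs⟩ := SS_tendsto T _ hTy h0.2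
      filter_upwards [HL_one A hA hm hi hp T _ hTy s hs0 hs (1 / ((i : ℝ) + 1)) (1 / ((j : ℝ) + 1)) (by positivity)
        (by positivity)] with ω hω _ _ s' hs'
      rw [tendsto_nhds_unique hs' hs]
      exact hω
    · refine Eventually.of_forall fun ω h1 h2 => ?_
      exact absurd ⟨h1, h2⟩ h0
  filter_upwards [hmain] with ω hω T h0 hadm s hs ε δ hε hδ
  obtain ⟨i, hi'⟩ := exists_nat_gt (1 / ε)
  obtain ⟨j, hj⟩ := exists_nat_gt (1 / δ)
  have hi1 : 1 / ((i : ℝ) + 1) ≤ ε := by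
    rw [div_le_iff₀ (by positivity)]
    rw [div_lt_iff₀ hε] at hi'
    nlinarith
  have hj1 : 1 / ((j : ℝ) + 1) ≤ δ := by
    rw [div_le_iff₀ (by positivity)]
    rw [div_lt_iff₀ hδ] at hj
    nlinarith
  filter_upwards [hω T i j h0 hadm s hs, eventually_ge_atTop 1] with N h1 h2 M hM1 hM2
  have hN1 : (1 : ℝ) ≤ N := by exact_mod_cast h2
  have h3 : (N : ℝ) ^ (1 / ((i : ℝ) + 1)) ≤ (N : ℝ) ^ ε := Real.rpow_le_rpow_of_exponent_le hN1 hi1
  refine (h1 M (by linarith) hM2).trans (mul_le_mul_of_nonneg_right hj1 ?_)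
  have h4 : 0 ≤ Real.log (N : ℝ) := Real.log_nonneg hN1
  have h5 : 0 < (N : ℝ) ^ ε := by positivity
  apply div_nonneg (by linarith) (by positivity)

end Pool.Agent.T2H62.MD
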