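import Pool.Agent.T2H62.MD.I

set_option autoImplicit false

/-! # Random primes: the limits -/

namespace Pool.Agent.T2H62.MD

open Finset Filter Topology MeasureTheory ProbabilityTheory
open Pool.Agent.T2H53.GW

/-- from the windows to the upper limit -/
theorem le_limsup_nat (f : ℕ → ℕ) (y : ℕ) (hf : ∀ x, f x ≤ y) (r : ℝ) (h : ∃ᶠ x in atTop, r ≤ (f x : ℝ)) :
    r ≤ ((limsup f atTop : ℕ) : ℝ) := by
  have h1 : ∃ᶠ x in atTop, ⌈r⌉₊ ≤ f x := h.mono fun x hx => Nat.ceil_le.2 hx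
  have h2 : ⌈r⌉₊ ≤ limsup f atTop := le_limsup_of_frequently_le h1 (isBoundedUnder_of ⟨y, hf⟩)
  exact (Nat.le_ceil r).trans (by exact_mod_cast h2)

theorem big_gain : Tendsto (fun y : ℕ => (y : ℝ) * Real.log (Real.log (Real.log y)) / Real.log y ^ 2) atTop atTop := by
  have hT : Tendsto (fun n : ℕ => (n : ℝ)) atTop atTop := tendsto_natCast_atTop_atTop
  have hl3 : ∀ᶠ y : ℕ in atTop, 1 ≤ Real.log (Real.log (Real.log y)) :=
    (Real.tendsto_log_atTop.comp (Real.tendsto_log_atTop.comp (Real.tendsto_log_atTop.comp hT))).eventually_ge_atTop _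
  have h1 : Tendsto (fun y : ℕ => (y : ℝ) ^ (1 / 2 : ℝ)) atTop atTop := (tendsto_rpow_atTop (by norm_num)).comp hT
  refine tendsto_atTop_mono' _ ?_ h1
  filter_upwards [hl3, log_pow_small 2 1 (1 / 2) (by norm_num) one_pos, eventually_ge_atTop 3] with y a1 a2 a3
  have hy0 : (0 : ℝ) < y := by exact_mod_cast (by omega : 0 < y)
  have hl : 0 < Real.log y := Real.log_pos (by exact_mod_cast (by omega : 1 < y))
  rw [le_div_iff₀ (by positivity)]
  rw [one_mul] at a2
  calc (y : ℝ) ^ (1 / 2 : ℝ) * Real.log y ^ 2 ≤ (y : ℝ) ^ (1 / 2 : ℝ) * (y : ℝ) ^ (1 / 2 : ℝ) :=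
        mul_le_mul_of_nonneg_left a2 (by positivity)
    _ = y := by
        rw [← Real.rpow_add hy0]
        norm_num
    _ ≤ y * Real.log (Real.log (Real.log y)) := le_mul_of_one_le_right hy0.le a1

end Pool.Agent.T2H62.MD
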