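import Pool.Agent.T2H62.MD.V

set_option autoImplicit false

/-! # Random primes between the squares of consecutive random primes -/

namespace Pool.Agent.T2H62.MD

open Finset Filter Topology MeasureTheory ProbabilityTheory
open Pool.Agent.T2H53.GW

variable {Ω : Type*} [MeasurableSpace Ω] {μ : Measure Ω} [IsProbabilityMeasure μ] {S : ℕ → Set Ω}

/-- large random primes are odd -/
theorem ae_odd (A : ℝ) (hA : 0 < A) (hp : ∀ n, μ.real (S n) = pr A n) :
    ∀ᵐ ω ∂μ, ∀ᶠ n : ℕ in atTop, ω ∈ S n → n % 2 = 1 := by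
  have hT : Tendsto (fun n : ℕ => (n : ℝ)) atTop atTop := tendsto_natCast_atTop_atTop
  have hL : Tendsto (fun n : ℕ => Real.log (n : ℝ)) atTop atTop := Real.tendsto_log_atTop.comp hT
  filter_upwards [ae_none (μ := μ) (S := S) (fun n h => by
    rw [measureReal_def, ENNReal.toReal_eq_zero_iff] at h
    rcases h with h | h
    · exact h
    · exact absurd h (measure_ne_top _ _))] with ω hω
  filter_upwards [hL.eventually_ge_atTop (2 / A)] with n hn hS
  by_contra h
  refine hω n ?_ hS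
  rw [hp]
  unfold pr
  rw [if_neg]
  intro h2
  refine h2 2 Nat.prime_two ?_ (by omega)
  rw [div_le_iff₀ hA] at hn
  push_cast
  linarith

/-- asymptotics between the squares, consecutive elements -/
theorem brocard (A : ℝ) (hA : 0 < A) (hm : ∀ n, MeasurableSet (S n)) (hi : iIndepSet S μ)
    (hp : ∀ n, μ.real (S n) = pr A n) :
    ∀ᵐ ω ∂μ, ∀ R : Set ℕ, ∀ _ : DecidablePred (· ∈ R), R = {n | ω ∈ S n} →
      (∀ δ : ℝ, 0 < δ → ∀ᶠ r : ℕ in atTop, ∀ r' : ℕ, r < r' → (∀ n ∈ Ioo r r', n ∉ R) →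
        |(((Ioo (r ^ 2) (r' ^ 2)).filter (fun n => n ∈ R)).card : ℝ) - ((r' : ℝ) ^ 2 - r ^ 2) / (2 * Real.log r)| ≤
          δ * (((r' : ℝ) ^ 2 - r ^ 2) / (2 * Real.log r))) ∧
      (∀ᶠ n : ℕ in atTop, n ∈ R → n % 2 = 1) ∧ ∀ᶠ N : ℕ in atTop, ∃ r, N ≤ r ∧ r ∈ R ∧ r + 2 ∈ R := by
  classical
  filter_upwards [HL_short A hA hm hi hp, gaps_upper A hA hm hi hp, ae_odd A hA hp] with ω h1 h2 h3 R hdec hR
  have hcnt : ∀ N M : ℕ, cnt (Ioc N M) (Fh S {1}) ω = (((Ioc N M).filter (fun n => n + 1 ∈ R)).card : ℝ) := by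
    intro N M
    rw [cnt_eq]
    congr 2
    apply filter_congr
    intro n _
    unfold Fh
    rw [hR]
    simp
  have h4 : ∀ ε δ : ℝ, 0 < ε → 0 < δ → ∀ᶠ N : ℕ in atTop, ∀ M : ℕ, (N : ℝ) + (N : ℝ) ^ ε ≤ M → M ≤ 2 * N →
      |(((Ioc N M).filter (fun n => n + 1 ∈ R)).card : ℝ) - ((M : ℝ) - N) / Real.log N| ≤ δ * (((M : ℝ) - N) / Real.log N) := by
    intro ε δ hε hδ
    have h5 := h1 {1} (by simp) (fun p hp' => by rw [nu_one]; exact hp'.one_lt) 1
      (tendsto_const_nhds.congr fun z => (SS_one z).symm) ε δ hε hδ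
    filter_upwards [h5] with N h6 M hM1 hM2
    have h7 := h6 M hM1 hM2
    rw [hcnt, card_singleton, pow_one, one_mul] at h7
    exact h7
  have h5 : ∀ᶠ N : ℕ in atTop, ∃ n ∈ Ioc N (N + ⌊Real.log N ^ (3 : ℝ)⌋₊), n ∈ R := by
    rw [hR]
    exact h2 3 (by norm_num)
  refine ⟨fun δ hδ => ?_, ?_, ?_⟩
  · rcases le_or_gt δ 1 with h6 | h6
    · exact squares h4 h5 δ hδ h6
    · filter_upwards [squares h4 h5 1 one_pos le_rfl, eventually_ge_atTop 3] with r h7 hr3 r' hr hno
      refine (h7 r' hr hno).trans ?_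
      apply mul_le_mul_of_nonneg_right h6.le
      have h8 : (r : ℝ) ≤ r' := by exact_mod_cast hr.le
      have h9 : 0 < Real.log (r : ℝ) := Real.log_pos (by exact_mod_cast (by omega : 1 < r))
      apply div_nonneg _ (by positivity)
      have h10 : (0 : ℝ) ≤ r := Nat.cast_nonneg _
      nlinarith
  · rw [hR]
    exact h3
  · obtain ⟨s, hs0, hs⟩ := SS_tendsto {1, 3} 3 (by decide) (by
      intro p hp2
      unfold nu
      rcases Nat.lt_or_ge p 3 with h | h
      · have : p = 2 := by have := hp2.two_le; omega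
        rw [this]
        decide
      · exact lt_of_le_of_lt card_image_le (by simp; omega))
    have h6 := h1 {1, 3} (by decide) (by
      intro p hp2
      unfold nu
      rcases Nat.lt_or_ge p 3 with h | h
      · have : p = 2 := by have := hp2.two_le; omega
        rw [this]
        decide
      · exact lt_of_le_of_lt card_image_le (by simp; omega)) s hs (1 / 2) (s / 2) (by norm_num) (by positivity)
    filter_upwards [h6, eventually_ge_atTop 4] with N h7 hN4
    have hN0 : (4 : ℝ) ≤ N := by exact_mod_cast hN4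
    have h8 : (N : ℝ) ^ (1 / 2 : ℝ) ≤ (N : ℝ) := by
      calc (N : ℝ) ^ (1 / 2 : ℝ) ≤ (N : ℝ) ^ (1 : ℝ) :=
            Real.rpow_le_rpow_of_exponent_le (by linarith) (by norm_num)
        _ = (N : ℝ) := Real.rpow_one _
    have h9 := h7 (2 * N) (by push_cast; linarith) le_rfl
    have h10 : 0 < Real.log (N : ℝ) := Real.log_pos (by linarith)
    have h11 : 0 < (((2 * N : ℕ) : ℝ) - (N : ℝ)) / Real.log (N : ℝ) ^ ({1, 3} : Finset ℕ).card := by
      apply div_pos _ (by positivity)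
      push_cast
      linarith
    have h12 : 0 < cnt (Ioc N (2 * N)) (Fh S {1, 3}) ω := by
      have := (abs_le.1 h9).1
      nlinarith [mul_pos hs0 h11]
    rw [cnt_eq] at h12
    have h13 : 0 < ((Ioc N (2 * N)).filter (fun i => ω ∈ Fh S {1, 3} i)).card := by exact_mod_cast h12
    rw [card_pos] at h13
    obtain ⟨n, hn⟩ := h13
    rw [mem_filter, mem_Ioc] at hn
    obtain ⟨⟨hn1, hn2⟩, hn3⟩ := hn
    unfold Fh at hn3
    simp only [Set.mem_iInter] at hn3
    refine ⟨n + 1, by omega, ?_, ?_⟩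
    · rw [hR]
      exact hn3 1 (by simp)
    · rw [hR]
      exact hn3 3 (by simp)

end Pool.Agent.T2H62.MD
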