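import Pool.Agent.T2H62.MD.L
import Pool.Agent.T2H53.GW.Count2

set_option autoImplicit false

/-! # Random primes: large gaps after multiples of many small primes -/

namespace Pool.Agent.T2H62.MD

open Finset Filter Topology MeasureTheory ProbabilityTheory
open Pool.Agent.T2H53.GW
open Pool.Agent.H305R2 (VV VV_tendsto)

variable {Ω : Type*} [MeasurableSpace Ω] {μ : Measure Ω} [IsProbabilityMeasure μ] {S : ℕ → Set Ω}

/-- the sum of the probabilities after a multiple of the small primes -/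
theorem sum_after (A : ℝ) (hA : 0 < A) (κ : ℝ) (hκ : 0 < κ) (hκA : κ ≤ A) (c : ℝ) (hc : 0 < c) (d : ℝ) (hd0 : 0 < d)
    (hd1 : d ≤ 1) : ∀ᶠ N : ℕ in atTop, ∀ a : ℕ, N ≤ a → a + ⌊c * Real.log N ^ 2⌋₊ ≤ 2 * N →
      primorial ⌊κ * Real.log N⌋₊ ∣ a →
      ∑ n ∈ Ioc a (a + ⌊c * Real.log N ^ 2⌋₊), pr A n ≤ (1 + d) ^ 3 * (c * GG / 2) * Real.log N := by
  classical
  have hT : Tendsto (fun n : ℕ => (n : ℝ)) atTop atTop := tendsto_natCast_atTop_atTop
  have hL : Tendsto (fun n : ℕ => Real.log (n : ℝ)) atTop atTop := Real.tendsto_log_atTop.comp hT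
  have hLL : Tendsto (fun n : ℕ => Real.log (Real.log (n : ℝ))) atTop atTop := Real.tendsto_log_atTop.comp hL
  have hH : Tendsto (fun N : ℕ => ⌊c * Real.log N ^ 2⌋₊) atTop atTop :=
    tendsto_nat_floor_atTop.comp (((tendsto_pow_atTop (by norm_num)).comp hL).const_mul_atTop hc)
  obtain ⟨M₀, hM₀⟩ := NQ_bound 0 (4 * c / κ ^ 2) d (by positivity) hd0
  filter_upwards [hL.eventually (VV_ev (2 * A) d (by positivity) hd0 hd1), hH.eventually_ge_atTop M₀,
    hL.eventually_ge_atTop (2 / κ + 2), hLL.eventually_ge_atTop ((1 + d) / (2 * d) * (-Real.log (c / 2)) + 1),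
    hL.eventually_ge_atTop (2 / c + 2), eventually_ge_atTop 3] with N e1 e2 e3 e4 e5 e6 a ha1 ha2 ha3
  obtain ⟨l, hl⟩ : ∃ l, l = Real.log (N : ℝ) := ⟨_, rfl⟩
  obtain ⟨H, hHd⟩ : ∃ H, H = ⌊c * Real.log (N : ℝ) ^ 2⌋₊ := ⟨_, rfl⟩
  obtain ⟨y, hy⟩ : ∃ y, y = ⌊κ * Real.log (N : ℝ)⌋₊ := ⟨_, rfl⟩
  rw [← hHd] at e2 ha2 ⊢
  rw [← hy] at ha3
  rw [← hl] at e1 e3 e4 e5 hHd hy ⊢
  have hG := one_lt_GG
  have hκ2 : 0 < 2 / κ := by positivity
  have hc2 : 0 < 2 / c := by positivity
  have hl2 : 2 < l := by linarith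
  have hκl : 2 ≤ κ * l := by
    have h1 : 2 / κ ≤ l := by linarith
    rw [div_le_iff₀ hκ] at h1
    linarith
  have hcl : 2 ≤ c * l ^ 2 := by
    have h1 : 2 / c ≤ l := by linarith
    rw [div_le_iff₀ hc] at h1
    nlinarith
  have hN0 : (0 : ℝ) < N := by exact_mod_cast (by omega : 0 < N)
  have hH1 : (H : ℝ) ≤ c * l ^ 2 := by
    rw [hHd]
    exact Nat.floor_le (by positivity)
  have hH2 : c * l ^ 2 / 2 ≤ H := by
    have h1 := Nat.lt_floor_add_one (c * l ^ 2)
    rw [← hHd] at h1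
    linarith
  have hy1 : κ * l / 2 ≤ y := by
    have h1 := Nat.lt_floor_add_one (κ * l)
    rw [← hy] at h1
    linarith
  have hy2 : (y : ℝ) ≤ κ * l := by
    rw [hy]
    exact Nat.floor_le (by positivity)
  have hll : 0 < Real.log l := Real.log_pos (by linarith)
  have hH0 : (0 : ℝ) < H := lt_of_lt_of_le (by positivity) hH2
  -- the logarithm of the length
  have hlogH : 2 * Real.log l / (1 + d) ≤ Real.log H := by
    have h1 : Real.log (c / 2 * l ^ 2) ≤ Real.log H := Real.log_le_log (by positivity) (by linarith)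
    rw [Real.log_mul (by positivity) (by positivity), Real.log_pow] at h1
    push_cast at h1
    have h2 : (1 + d) / (2 * d) * (-Real.log (c / 2)) ≤ Real.log l := by linarith
    have h3 : (1 + d) * (-Real.log (c / 2)) ≤ 2 * d * Real.log l := by
      rw [div_mul_eq_mul_div, div_le_iff₀ (by positivity)] at h2
      linarith
    rw [div_le_iff₀ (by linarith)]
    have h4 : (Real.log (c / 2) + 2 * Real.log l) * (1 + d) ≤ Real.log H * (1 + d) :=
      mul_le_mul_of_nonneg_right h1 (by linarith)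
    nlinarith
  have hlogH0 : 0 < Real.log (H : ℝ) := lt_of_lt_of_le (by positivity) hlogH
  -- the number of the integers without small prime factors
  have hNQ : ((NQ ∅ y H).card : ℝ) ≤ (1 + d) * ((H : ℝ) / Real.log H) := by
    have h1 := hM₀ H e2 y ?_ ∅ (by simp) (by simp)
    · simpa using h1
    · have h2 : c * l ^ 2 = 4 * c / κ ^ 2 * (κ * l / 2) ^ 2 := by
        field_simp
        ring
      refine hH1.trans ?_
      rw [h2]
      exact mul_le_mul_of_nonneg_left (pow_le_pow_left₀ (by positivity) hy1 2) (by positivity)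
  have hNQ2 : ((NQ ∅ y H).card : ℝ) ≤ (1 + d) * (c * l ^ 2 * (1 + d) / (2 * Real.log l)) := by
    refine hNQ.trans (mul_le_mul_of_nonneg_left ?_ (by linarith))
    rw [div_le_div_iff₀ hlogH0 (by positivity)]
    have h1 : 2 * Real.log l ≤ Real.log H * (1 + d) := by
      rw [div_le_iff₀ (by linarith)] at hlogH
      exact hlogH
    calc (H : ℝ) * (2 * Real.log l) ≤ (c * l ^ 2) * (Real.log H * (1 + d)) :=
          mul_le_mul hH1 h1 (by positivity) (by positivity)
      _ = c * l ^ 2 * (1 + d) * Real.log H := by ring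
  -- the bound for the probabilities
  have hpr : ∀ n ∈ Ioc a (a + H), pr A n ≤ (1 + d) * GG * Real.log l / l := by
    intro n hn
    rw [mem_Ioc] at hn
    have hnN : (N : ℝ) ≤ n := by exact_mod_cast (by omega : N ≤ n)
    have hn2N : (n : ℝ) ≤ 2 * N := by exact_mod_cast (by omega : n ≤ 2 * N)
    have hlog1 : l ≤ Real.log n := by
      rw [hl]
      exact Real.log_le_log hN0 hnN
    have hlog2 : Real.log n ≤ 2 * l := by
      have h1 : Real.log n ≤ Real.log (2 * N) := Real.log_le_log (by linarith) hn2N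
      rw [Real.log_mul (by norm_num) hN0.ne', ← hl] at h1
      have h2 : Real.log 2 < 1 := by
        have := Real.log_two_lt_d9
        linarith
      linarith
    have h3 : pr A n ≤ VV ⌊A * Real.log n⌋₊ / Real.log n := by
      unfold pr
      split_ifs
      · exact min_le_right _ _
      · have h1 := one_le_VV ⌊A * Real.log n⌋₊
        have h2 : 0 < Real.log (n : ℝ) := by linarith
        positivity
    refine h3.trans ?_
    have h4 : VV ⌊A * Real.log n⌋₊ ≤ VV ⌊2 * A * l⌋₊ := by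
      apply VV_mono
      apply Nat.floor_le_floor
      nlinarith
    have h5 := h4.trans e1
    rw [div_le_div_iff₀ (by linarith) (by linarith)]
    have h6 : 0 ≤ VV ⌊A * Real.log n⌋₊ := by linarith [one_le_VV ⌊A * Real.log n⌋₊]
    calc VV ⌊A * Real.log n⌋₊ * l ≤ ((1 + d) * GG * Real.log l) * Real.log n :=
          mul_le_mul h5 hlog1 (by linarith) (by positivity)
      _ = (1 + d) * GG * Real.log l * Real.log n := rfl
  -- only the integers without small prime factors contribute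
  have hsub : ∑ n ∈ Ioc a (a + H), pr A n ≤ ∑ n ∈ (NQ ∅ y H).image (fun k => a + k), pr A n := by
    rw [← sum_filter_add_sum_filter_not (Ioc a (a + H)) (fun n => n ∈ (NQ ∅ y H).image (fun k => a + k))]
    have h1 : ∑ n ∈ (Ioc a (a + H)).filter (fun n => n ∉ (NQ ∅ y H).image (fun k => a + k)), pr A n = 0 := by
      apply sum_eq_zero
      intro n hn
      rw [mem_filter, mem_Ioc] at hn
      unfold pr
      rw [if_neg]
      intro h2
      apply hn.2
      rw [mem_image]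
      refine ⟨n - a, ?_, by omega⟩
      unfold NQ
      rw [mem_filter, mem_Icc]
      refine ⟨⟨by omega, by omega⟩, ?_⟩
      intro p hp hpy hpd
      exfalso
      have hnN : (N : ℝ) ≤ n := by exact_mod_cast (by omega : N ≤ n)
      have hlog1 : l ≤ Real.log n := by
        rw [hl]
        exact Real.log_le_log hN0 hnN
      refine h2 p hp ?_ ?_
      · have h3 : (p : ℝ) ≤ y := by exact_mod_cast hpy
        calc (p : ℝ) ≤ y := h3
          _ ≤ κ * l := hy2
          _ ≤ A * Real.log n := mul_le_mul hκA hlog1 (by linarith) hA.le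
      · have h3 : p ∣ a := ((hp.dvd_primorial_iff).2 hpy).trans ha3
        have h4 : n = a + (n - a) := by omega
        rw [h4]
        exact dvd_add h3 hpd
    rw [h1, add_zero]
    refine sum_le_sum_of_subset_of_nonneg ?_ (fun n _ _ => pr_nonneg A n)
    intro n hn
    exact (mem_filter.1 hn).2
  refine hsub.trans ?_
  have h7 : ∑ n ∈ (NQ ∅ y H).image (fun k => a + k), pr A n ≤ ((NQ ∅ y H).card : ℝ) * ((1 + d) * GG * Real.log l / l) := by
    rw [sum_image (fun x _ z _ h => by simpa using h), ← nsmul_eq_mul]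
    refine sum_le_card_nsmul _ _ _ fun k hk => ?_
    unfold NQ at hk
    rw [mem_filter, mem_Icc] at hk
    exact hpr _ (mem_Ioc.2 ⟨by omega, by omega⟩)
  refine h7.trans ?_
  have h8 : 0 ≤ (1 + d) * GG * Real.log l / l := by
    have : 0 < l := by linarith
    positivity
  refine (mul_le_mul_of_nonneg_right hNQ2 h8).trans (le_of_eq ?_)
  have hl0 : l ≠ 0 := by
    have : 0 < l := by linarith
    exact this.ne'
  field_simp

/-- a block without random primes of length `c (log N) ^ 2`, `c < 2 exp (-γ)` -/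
theorem empty_block2 (A : ℝ) (hA : 0 < A) (hm : ∀ n, MeasurableSet (S n)) (hi : iIndepSet S μ)
    (hp : ∀ n, μ.real (S n) = pr A n) (c : ℝ) (hc : 0 < c) (hc1 : c * GG / 2 < 1) :
    ∀ᵐ ω ∂μ, ∀ᶠ N : ℕ in atTop, ∃ a : ℕ, N ≤ a ∧ a + ⌊c * Real.log N ^ 2⌋₊ ≤ 2 * N ∧
      ∀ n ∈ Ioc a (a + ⌊c * Real.log N ^ 2⌋₊), ω ∉ S n := by
  classical
  have hG := one_lt_GG
  -- parameters
  obtain ⟨u, hu⟩ : ∃ u : ℝ, u = c * GG / 2 := ⟨_, rfl⟩
  have hu0 : 0 < u := by rw [hu]; positivity
  obtain ⟨d, hd⟩ : ∃ d : ℝ, d = (1 - u) / 16 := ⟨_, rfl⟩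
  have hd0 : 0 < d := by rw [hd]; linarith
  have hd1 : d ≤ 1 / 16 := by rw [hd]; linarith
  obtain ⟨c', hc'⟩ : ∃ c' : ℝ, c' = (1 + d) ^ 3 * u / (1 - d) := ⟨_, rfl⟩
  have hc'1 : c' < 1 - 4 * d := by
    rw [hc', div_lt_iff₀ (by linarith)]
    have h1 : u = 1 - 16 * d := by rw [hd]; ring
    rw [h1]
    have h2 : (1 + d) ^ 3 ≤ 1 + 4 * d := by nlinarith [mul_pos hd0 hd0, mul_pos (mul_pos hd0 hd0) hd0]
    have h3 : (1 + d) ^ 3 * (1 - 16 * d) ≤ (1 + 4 * d) * (1 - 16 * d) := mul_le_mul_of_nonneg_right h2 (by linarith)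
    nlinarith [mul_pos hd0 hd0]
  have hc'0 : 0 < c' := by
    rw [hc']
    have : 0 < 1 - d := by linarith
    positivity
  obtain ⟨κ, hκd⟩ : ∃ κ : ℝ, κ = min A (d / 2) := ⟨_, rfl⟩
  have hκ : 0 < κ := by rw [hκd]; exact lt_min hA (by positivity)
  have hκA : κ ≤ A := by rw [hκd]; exact min_le_left _ _
  have hκ2 : κ ≤ d / 2 := by rw [hκd]; exact min_le_right _ _
  have hT : Tendsto (fun n : ℕ => (n : ℝ)) atTop atTop := tendsto_natCast_atTop_atTop
  have hL : Tendsto (fun n : ℕ => Real.log (n : ℝ)) atTop atTop := Real.tendsto_log_atTop.comp hT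
  obtain ⟨y, hy⟩ : ∃ y : ℕ → ℕ, y = fun N : ℕ => ⌊c * Real.log N ^ 2⌋₊ := ⟨_, rfl⟩
  obtain ⟨P, hP⟩ : ∃ P : ℕ → ℕ, P = fun N : ℕ => primorial ⌊κ * Real.log N⌋₊ := ⟨_, rfl⟩
  obtain ⟨Q, hQ⟩ : ∃ Q : ℕ → ℕ, Q = fun N : ℕ => P N * (y N + 1) := ⟨_, rfl⟩
  obtain ⟨K, hK⟩ : ∃ K : ℕ → ℕ, K = fun N : ℕ => N / Q N - 1 := ⟨_, rfl⟩
  obtain ⟨F, hF⟩ : ∃ F : ℕ → ℕ → Finset ℕ, F = fun N i => Ioc ((N / Q N + 1 + i) * Q N) ((N / Q N + 1 + i) * Q N + y N) :=
    ⟨_, rfl⟩
  have hP0 : ∀ N, 0 < P N := fun N => by rw [hP]; exact primorial_pos _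
  have hQy : ∀ N, y N < Q N := fun N => by
    rw [hQ]
    have := hP0 N
    show y N < P N * (y N + 1)
    nlinarith
  have hdis : ∀ N, ∀ a ∈ range (K N), ∀ b ∈ range (K N), a ≠ b → Disjoint (F N a) (F N b) := by
    intro N a _ b _ hab
    rw [Finset.disjoint_left, hF]
    intro n hn hn'
    rw [mem_Ioc] at hn hn'
    have hq := hQy N
    rcases Nat.lt_or_ge a b with h | h
    · have h1 : (N / Q N + 1 + a + 1) * Q N ≤ (N / Q N + 1 + b) * Q N := Nat.mul_le_mul_right _ (by omega)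
      have h2 : (N / Q N + 1 + a + 1) * Q N = (N / Q N + 1 + a) * Q N + Q N := by ring
      omega
    · have h' : b < a := lt_of_le_of_ne h (fun h => hab h.symm)
      have h1 : (N / Q N + 1 + b + 1) * Q N ≤ (N / Q N + 1 + a) * Q N := Nat.mul_le_mul_right _ (by omega)
      have h2 : (N / Q N + 1 + b + 1) * Q N = (N / Q N + 1 + b) * Q N + Q N := by ring
      omega
  -- the blocks lie in `(N, 2N]`
  have hrange : ∀ N, ∀ i ∈ range (K N), N ≤ (N / Q N + 1 + i) * Q N ∧ (N / Q N + 1 + i) * Q N + y N ≤ 2 * N := by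
    intro N i hi'
    rw [mem_range, hK] at hi'
    have hq := hQy N
    have hi2 : i < N / Q N - 1 := hi'
    have h1 : N < Q N * (N / Q N + 1) := Nat.lt_mul_div_succ _ (by omega)
    have h2 : N / Q N * Q N ≤ N := Nat.div_mul_le_self _ _
    constructor
    · have h3 : (N / Q N + 1) * Q N ≤ (N / Q N + 1 + i) * Q N := Nat.mul_le_mul_right _ (by omega)
      have h4 : Q N * (N / Q N + 1) = (N / Q N + 1) * Q N := by ring
      omega
    · have h3 : (N / Q N + 1 + i + 1) * Q N ≤ (2 * (N / Q N)) * Q N := Nat.mul_le_mul_right _ (by omega)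
      have h4 : (N / Q N + 1 + i + 1) * Q N = (N / Q N + 1 + i) * Q N + Q N := by ring
      have h5 : (2 * (N / Q N)) * Q N = 2 * (N / Q N * Q N) := by ring
      omega
  obtain ⟨n₁, hn₁⟩ := eventually_atTop.1 (pr_small A hA d hd0)
  have hprob : ∀ᶠ N : ℕ in atTop, μ.real (⋂ a ∈ range (K N), HF S (F N a)) ≤ 1 / (N : ℝ) ^ 2 := by
    filter_upwards [sum_after A hA κ hκ hκA c hc d hd0 (by linarith), eventually_ge_atTop n₁, eventually_ge_atTop 3,
      log_pow_small 2 (2 * c) d hd0 (by positivity), hL.eventually_ge_atTop (2 / c + 2),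
      log_pow_small 0 8 (1 - 2 * d) (by linarith) (by norm_num),
      log_pow_small 1 4 (2 * d) (by positivity) (by norm_num)] with N e1 e2 e3 e4 e5 e6 e7
    have hN0 : (0 : ℝ) < N := by exact_mod_cast (by omega : 0 < N)
    have hN1 : (1 : ℝ) ≤ N := by exact_mod_cast (by omega : 1 ≤ N)
    have hc2 : 0 < 2 / c := by positivity
    have hlN : 2 < Real.log (N : ℝ) := by linarith
    have hy1 : (y N : ℝ) ≤ c * Real.log N ^ 2 := by
      rw [hy]
      exact Nat.floor_le (by positivity)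
    have hcl : 2 ≤ c * Real.log (N : ℝ) ^ 2 := by
      have h1 : 2 / c ≤ Real.log (N : ℝ) := by linarith
      rw [div_le_iff₀ hc] at h1
      nlinarith
    -- `Q ≤ N ^ (2 d)`
    have hPN : (P N : ℝ) ≤ (N : ℝ) ^ d := by
      have h1 : (P N : ℝ) ≤ (4 : ℝ) ^ ⌊κ * Real.log N⌋₊ := by
        rw [hP]
        exact_mod_cast primorial_le_four_pow _
      refine h1.trans ?_
      rw [← Real.rpow_natCast]
      have h2 : ((⌊κ * Real.log N⌋₊ : ℕ) : ℝ) ≤ κ * Real.log N := Nat.floor_le (by positivity)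
      have h3 : (4 : ℝ) ^ ((⌊κ * Real.log N⌋₊ : ℕ) : ℝ) ≤ (4 : ℝ) ^ (κ * Real.log N) :=
        Real.rpow_le_rpow_of_exponent_le (by norm_num) h2
      refine h3.trans ?_
      rw [Real.rpow_def_of_pos (by norm_num : (0 : ℝ) < 4), Real.rpow_def_of_pos hN0]
      apply Real.exp_le_exp.2
      have h4 : Real.log 4 ≤ 2 := by
        rw [show (4 : ℝ) = 2 ^ 2 by norm_num, Real.log_pow]
        have := Real.log_two_lt_d9
        push_cast
        linarith
      have h5 : Real.log 4 * (κ * Real.log N) ≤ 2 * (d / 2 * Real.log N) := by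
        apply mul_le_mul h4 _ (by positivity) (by norm_num)
        exact mul_le_mul_of_nonneg_right hκ2 (by linarith)
      linarith
    have hQN : (Q N : ℝ) ≤ (N : ℝ) ^ (2 * d) := by
      have h1 : (Q N : ℝ) = P N * (y N + 1) := by
        rw [hQ]
        push_cast
        ring
      rw [h1, show 2 * d = d + d by ring, Real.rpow_add hN0]
      refine mul_le_mul hPN ?_ (by positivity) (by positivity)
      linarith
    have hQ0 : (0 : ℝ) < Q N := by
      have := hQy N
      exact_mod_cast (by omega : 0 < Q N)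
    have hKN : (N : ℝ) ^ (1 - 2 * d) / 2 ≤ K N := by
      have h1 : N < Q N * (N / Q N + 1) := Nat.lt_mul_div_succ _ (by have := hQy N; omega)
      have h2 : (N : ℝ) < Q N * ((N / Q N : ℕ) + 1) := by exact_mod_cast h1
      have h3 : (N : ℝ) ^ (1 - 2 * d) ≤ ((N / Q N : ℕ) : ℝ) + 1 := by
        have h4 : (N : ℝ) ^ (1 - 2 * d) * (N : ℝ) ^ (2 * d) = N := by
          rw [← Real.rpow_add hN0]
          norm_num
        have h5 : (N : ℝ) ^ (1 - 2 * d) * Q N ≤ N := by
          calc (N : ℝ) ^ (1 - 2 * d) * Q N ≤ (N : ℝ) ^ (1 - 2 * d) * (N : ℝ) ^ (2 * d) :=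
                mul_le_mul_of_nonneg_left hQN (by positivity)
            _ = N := h4
        have h6 : (N : ℝ) ^ (1 - 2 * d) * Q N < (((N / Q N : ℕ) : ℝ) + 1) * Q N := by linarith
        exact (lt_of_mul_lt_mul_right h6 hQ0.le).le
      rw [pow_zero, mul_one] at e6
      have h7 : (((N / Q N : ℕ) : ℝ)) ≤ (K N : ℝ) + 1 := by
        rw [hK]
        have : N / Q N ≤ (N / Q N - 1) + 1 := by omega
        exact_mod_cast this
      linarith
    -- the sums over the blocks
    have hq : ∀ i ∈ range (K N), Real.exp (-(c' * Real.log N)) ≤ ∏ n ∈ F N i, (1 - μ.real (S n)) := by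
      intro i hi'
      obtain ⟨r1, r2⟩ := hrange N i hi'
      have hdv : primorial ⌊κ * Real.log N⌋₊ ∣ (N / Q N + 1 + i) * Q N := by
        have h1 : Q N = P N * (y N + 1) := by rw [hQ]
        have h2 : P N = primorial ⌊κ * Real.log N⌋₊ := by rw [hP]
        rw [h1, ← h2]
        exact (Dvd.intro _ rfl).mul_left _
      have h1 := e1 ((N / Q N + 1 + i) * Q N) r1 (by rw [hy] at r2; exact r2) hdv
      have h2 : ∑ n ∈ F N i, pr A n ≤ (1 + d) ^ 3 * u * Real.log N := by
        rw [hF, hu]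
        rw [hy]
        exact h1
      have h3 : Real.exp (-(c' * Real.log N)) ≤ Real.exp (-((∑ n ∈ F N i, pr A n) / (1 - d))) := by
        apply Real.exp_le_exp.2
        have h4 : (∑ n ∈ F N i, pr A n) / (1 - d) ≤ c' * Real.log N := by
          rw [div_le_iff₀ (by linarith), hc']
          have h5 : (1 - d) ≠ 0 := by
            have : 0 < 1 - d := by linarith
            exact this.ne'
          have h6 : (1 + d) ^ 3 * u / (1 - d) * Real.log N * (1 - d) = (1 + d) ^ 3 * u * Real.log N := by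
            field_simp
          rw [h6]
          exact h2
        linarith
      refine h3.trans ?_
      rw [sum_div, ← sum_neg_distrib, Real.exp_sum]
      refine prod_le_prod (fun n _ => (Real.exp_pos _).le) (fun n hn => ?_)
      rw [hp]
      refine one_sub_ge (pr_nonneg A n) (hn₁ n ?_) (by linarith)
      rw [hF, mem_Ioc] at hn
      omega
    rw [real_inter_HF hm hi (range (K N)) (F N) (hdis N)]
    have h7 : ∏ a ∈ range (K N), (1 - ∏ n ∈ F N a, (1 - μ.real (S n))) ≤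
        Real.exp (-(∑ a ∈ range (K N), Real.exp (-(c' * Real.log N)))) := by
      rw [← sum_neg_distrib, Real.exp_sum]
      refine prod_le_prod (fun a _ => ?_) fun a ha => ?_
      · have : ∏ n ∈ F N a, (1 - μ.real (S n)) ≤ 1 :=
          prod_le_one (fun n _ => by linarith [measureReal_le_one (μ := μ) (s := S n)])
            fun n _ => by linarith [measureReal_nonneg (μ := μ) (s := S n)]
        linarith
      · have h3 := Real.add_one_le_exp (-(Real.exp (-(c' * Real.log N))))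
        have h4 := hq a ha
        linarith
    refine h7.trans ?_
    have h8 : 2 * Real.log N ≤ ∑ a ∈ range (K N), Real.exp (-(c' * Real.log N)) := by
      rw [sum_const, card_range, nsmul_eq_mul]
      have h9 : Real.exp (-(c' * Real.log N)) = (N : ℝ) ^ (-c') := by
        rw [Real.rpow_def_of_pos hN0]
        congr 1
        ring
      rw [h9]
      have h10 : (N : ℝ) ^ (2 * d) / 2 ≤ (N : ℝ) ^ (1 - 2 * d) / 2 * (N : ℝ) ^ (-c') := by
        rw [div_mul_eq_mul_div, ← Real.rpow_add hN0]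
        apply div_le_div_of_nonneg_right _ (by norm_num)
        exact Real.rpow_le_rpow_of_exponent_le hN1 (by linarith)
      rw [pow_one] at e7
      have h14 : 0 ≤ (N : ℝ) ^ (-c') := by positivity
      have h15 := mul_le_mul_of_nonneg_right hKN h14
      linarith
    calc Real.exp (-(∑ a ∈ range (K N), Real.exp (-(c' * Real.log N)))) ≤
          Real.exp (-(2 * Real.log N)) := Real.exp_le_exp.2 (by linarith)
      _ = 1 / (N : ℝ) ^ 2 := by
          rw [Real.exp_neg, show 2 * Real.log N = Real.log ((N : ℝ) ^ 2) by rw [Real.log_pow]; norm_num,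
            Real.exp_log (by positivity), one_div]
  obtain ⟨n₀, hn₀⟩ := eventually_atTop.1 hprob
  have hsum : Summable (fun N : ℕ => 1 / (N : ℝ) ^ 2) := Real.summable_one_div_nat_pow.2 (by norm_num)
  have h2 := bc (μ := μ) (fun N => ⋂ a ∈ range (K N), HF S (F N a)) n₀ _ hsum (fun n hn => hn₀ n hn)
  filter_upwards [h2] with ω hω
  filter_upwards [hω] with N h3
  simp only [Set.mem_iInter, not_forall] at h3
  obtain ⟨i, hi1, hi2⟩ := h3
  obtain ⟨r1, r2⟩ := hrange N i hi1
  have h6 : ⌊c * Real.log (N : ℝ) ^ 2⌋₊ = y N := by rw [hy]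
  refine ⟨(N / Q N + 1 + i) * Q N, r1, by rw [h6]; exact r2, ?_⟩
  intro n hn hnS
  apply hi2
  unfold HF
  simp only [Set.mem_iUnion]
  refine ⟨n, ?_, hnS⟩
  rw [h6] at hn
  rw [hF]
  exact hn

/-- for all constants `c < 2 exp (-γ)` -/
theorem gaps_lower2 (A : ℝ) (hA : 0 < A) (hm : ∀ n, MeasurableSet (S n)) (hi : iIndepSet S μ)
    (hp : ∀ n, μ.real (S n) = pr A n) :
    ∀ᵐ ω ∂μ, ∀ c : ℝ, c < 2 * Real.exp (-Real.eulerMascheroniConstant) → ∀ᶠ N : ℕ in atTop, ∃ a : ℕ, N ≤ a ∧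
      a + ⌊c * Real.log N ^ 2⌋₊ ≤ 2 * N ∧ ∀ n ∈ Ioc a (a + ⌊c * Real.log N ^ 2⌋₊), ω ∉ S n := by
  have hG0 : 2 * Real.exp (-Real.eulerMascheroniConstant) = 2 / GG := by
    rw [Real.exp_neg]
    unfold GG
    ring
  have hG := one_lt_GG
  rw [hG0]
  have hmain : ∀ᵐ ω ∂μ, ∀ j : ℕ, ∀ᶠ N : ℕ in atTop, ∃ a : ℕ, N ≤ a ∧
      a + ⌊((1 - 1 / ((j : ℝ) + 2)) * (2 / GG)) * Real.log N ^ 2⌋₊ ≤ 2 * N ∧
      ∀ n ∈ Ioc a (a + ⌊((1 - 1 / ((j : ℝ) + 2)) * (2 / GG)) * Real.log N ^ 2⌋₊), ω ∉ S n := by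
    rw [ae_all_iff]; intro j
    have hj : (0 : ℝ) ≤ j := Nat.cast_nonneg _
    have h1 : 1 / ((j : ℝ) + 2) ≤ 1 / 2 := one_div_le_one_div_of_le (by norm_num) (by linarith)
    have h2 : 0 < 1 / ((j : ℝ) + 2) := by positivity
    refine empty_block2 A hA hm hi hp _ (mul_pos (by linarith) (by positivity)) ?_
    have h3 : (1 - 1 / ((j : ℝ) + 2)) * (2 / GG) * GG / 2 = 1 - 1 / ((j : ℝ) + 2) := by
      field_simp
    rw [h3]
    linarith
  filter_upwards [hmain] with ω hω c hc
  have hcG : c * GG / 2 < 1 := by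
    rw [lt_div_iff₀ (by linarith)] at hc
    linarith
  obtain ⟨j, hj⟩ := exists_nat_gt (1 / (1 - c * GG / 2))
  have hcj : c ≤ (1 - 1 / ((j : ℝ) + 2)) * (2 / GG) := by
    have h5 : 1 / ((j : ℝ) + 2) ≤ 1 - c * GG / 2 := by
      rw [div_le_iff₀ (by positivity)]
      rw [div_lt_iff₀ (by linarith)] at hj
      nlinarith
    have h6 : c = (c * GG / 2) * (2 / GG) := by field_simp
    rw [h6]
    exact mul_le_mul_of_nonneg_right (by linarith) (by positivity)
  filter_upwards [hω j] with N hN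
  obtain ⟨a, h1, h2, h3⟩ := hN
  have h4 : ⌊c * Real.log N ^ 2⌋₊ ≤ ⌊((1 - 1 / ((j : ℝ) + 2)) * (2 / GG)) * Real.log N ^ 2⌋₊ :=
    Nat.floor_le_floor (mul_le_mul_of_nonneg_right hcj (sq_nonneg _))
  refine ⟨a, h1, by omega, fun n hn => h3 n ?_⟩
  rw [mem_Ioc] at hn ⊢
  omega

end Pool.Agent.T2H62.MD
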