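import Pool.Agent.T2H62.MD.L

set_option autoImplicit false

/-! # The largest gap between random primes -/

namespace Pool.Agent.T2H62.MD

open Finset Filter Topology

/-- the gaps of the set `R` at elements `≤ x` -/
def gapSet (R : Set ℕ) (x : ℕ) : Set ℕ := {g : ℕ | ∃ r ∈ R, r ≤ x ∧ 0 < g ∧ r + g ∈ R ∧ ∀ n ∈ Ioo r (r + g), n ∉ R}

/-- the next element of `R` -/
theorem next_ex {R : Set ℕ} (hR : R.Infinite) (a : ℕ) : ∃ s ∈ R, a < s ∧ ∀ n ∈ Ioo a s, n ∉ R := by
  classical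
  obtain ⟨s, hs, has⟩ := hR.exists_gt a
  have hex : ∃ s, s ∈ R ∧ a < s := ⟨s, hs, has⟩
  refine ⟨Nat.find hex, (Nat.find_spec hex).1, (Nat.find_spec hex).2, ?_⟩
  intro n hn hnR
  rw [mem_Ioo] at hn
  exact Nat.find_min hex hn.2 ⟨hnR, hn.1⟩

/-- two next elements agree -/
theorem next_unique {R : Set ℕ} {r s s' : ℕ} (h1 : s ∈ R) (h2 : s' ∈ R) (h3 : r < s) (h4 : r < s')
    (h5 : ∀ n ∈ Ioo r s, n ∉ R) (h6 : ∀ n ∈ Ioo r s', n ∉ R) : s = s' := by
  rcases lt_trichotomy s s' with h | h | h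
  · exact absurd h1 (h6 s (mem_Ioo.2 ⟨h3, h⟩))
  · exact h
  · exact absurd h2 (h5 s' (mem_Ioo.2 ⟨h4, h⟩))

/-- the set of the gaps up to `x` is bounded -/
theorem gapSet_bdd (R : Set ℕ) (x : ℕ) : BddAbove (gapSet R x) := by
  classical
  by_cases hR : R.Infinite
  · choose f hf using fun a => next_ex hR a
    refine ⟨∑ r ∈ range (x + 1), f r, ?_⟩
    rintro g ⟨r, hr, hrx, hg, hrg, hno⟩
    obtain ⟨h1, h2, h3⟩ := hf r
    have h4 : r + g = f r := next_unique hrg h1 (by omega) h2 hno h3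
    have h5 : f r ≤ ∑ r ∈ range (x + 1), f r :=
      single_le_sum (f := f) (fun i _ => Nat.zero_le _) (mem_range.2 (by omega))
    omega
  · rw [Set.not_infinite] at hR
    obtain ⟨M, hM⟩ := hR.bddAbove
    refine ⟨M, ?_⟩
    rintro g ⟨r, hr, hrx, hg, hrg, hno⟩
    have := hM hrg
    omega

/-- the bounds for the largest gap -/
theorem maxgap {R : Set ℕ} {M : ℝ} (h1 : ∀ t : ℝ, 2 < t → ∀ᶠ N : ℕ in atTop, ∃ n ∈ Ioc N (N + ⌊Real.log N ^ t⌋₊), n ∈ R)
    (h2 : ∀ c : ℝ, c < M → ∀ᶠ N : ℕ in atTop, ∃ a : ℕ, N ≤ a ∧ a + ⌊c * Real.log N ^ 2⌋₊ ≤ 2 * N ∧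
      ∀ n ∈ Ioc a (a + ⌊c * Real.log N ^ 2⌋₊), n ∉ R) :
    R.Infinite ∧ (∀ t : ℝ, 2 < t → ∀ᶠ x : ℕ in atTop, ((sSup (gapSet R x) : ℕ) : ℝ) ≤ Real.log x ^ t) ∧
      ∀ c : ℝ, c < M → ∀ᶠ x : ℕ in atTop, c * Real.log x ^ 2 ≤ ((sSup (gapSet R x) : ℕ) : ℝ) := by
  classical
  have hT : Tendsto (fun n : ℕ => (n : ℝ)) atTop atTop := tendsto_natCast_atTop_atTop
  have hL : Tendsto (fun n : ℕ => Real.log (n : ℝ)) atTop atTop := Real.tendsto_log_atTop.comp hT
  have hinf : R.Infinite := by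
    refine Set.infinite_of_forall_exists_gt fun a => ?_
    obtain ⟨N, hN1, n, hn, hnR⟩ := ((eventually_ge_atTop a).and (h1 3 (by norm_num))).exists
    rw [mem_Ioc] at hn
    exact ⟨n, hnR, by omega⟩
  refine ⟨hinf, fun t ht => ?_, fun c hc => ?_⟩
  · obtain ⟨n₀, hn₀⟩ := eventually_atTop.1 (h1 t ht)
    choose f hf using fun a => next_ex hinf a
    have hbig : Tendsto (fun x : ℕ => Real.log (x : ℝ) ^ t) atTop atTop := (tendsto_rpow_atTop (by linarith)).comp hL
    filter_upwards [hbig.eventually_ge_atTop ((∑ r ∈ range (n₀ + 1), f r : ℕ) : ℝ), eventually_ge_atTop 3] with x hx hx3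
    have hfin : sSup (gapSet R x) ∈ gapSet R x ∨ sSup (gapSet R x) = 0 := by
      rcases (gapSet R x).eq_empty_or_nonempty with h | h
      · right
        rw [h]
        simp
      · left
        exact Nat.sSup_mem h (gapSet_bdd R x)
    rcases hfin with h | h
    · obtain ⟨r, hr, hrx, hg, hrg, hno⟩ := h
      obtain ⟨g, hgdef⟩ : ∃ g, g = sSup (gapSet R x) := ⟨_, rfl⟩
      rw [← hgdef] at hg hrg hno ⊢
      by_cases hrn : n₀ ≤ r
      · obtain ⟨n, hn, hnR⟩ := hn₀ r hrn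
        rw [mem_Ioc] at hn
        have h5 : r + g ≤ n := by
          by_contra h6
          exact hno n (mem_Ioo.2 ⟨hn.1, by omega⟩) hnR
        have h6 : g ≤ ⌊Real.log (r : ℝ) ^ t⌋₊ := by omega
        have h7 : 0 ≤ Real.log (r : ℝ) := Real.log_natCast_nonneg r
        have h8 : (g : ℝ) ≤ Real.log (r : ℝ) ^ t := (Nat.cast_le.2 h6).trans (Nat.floor_le (Real.rpow_nonneg h7 _))
        refine h8.trans (Real.rpow_le_rpow h7 ?_ (by linarith))
        rcases Nat.eq_zero_or_pos r with h9 | h9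
        · rw [h9]
          simp only [Nat.cast_zero, Real.log_zero]
          exact Real.log_natCast_nonneg x
        · exact Real.log_le_log (by exact_mod_cast h9) (by exact_mod_cast hrx)
      · obtain ⟨a1, a2, a3⟩ := hf r
        have h4 : r + g = f r := next_unique hrg a1 (by omega) a2 hno a3
        have h5 : f r ≤ ∑ r ∈ range (n₀ + 1), f r :=
          single_le_sum (f := f) (fun i _ => Nat.zero_le _) (mem_range.2 (by omega))
        have h6 : g ≤ ∑ r ∈ range (n₀ + 1), f r := by omega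
        have h7 : (g : ℝ) ≤ ((∑ r ∈ range (n₀ + 1), f r : ℕ) : ℝ) := by exact_mod_cast h6
        linarith
    · rw [h, Nat.cast_zero]
      exact Real.rpow_nonneg (Real.log_natCast_nonneg x) _
  · -- the lower bound
    by_cases hc0 : c ≤ 0
    · exact Eventually.of_forall fun x => le_trans (mul_nonpos_of_nonpos_of_nonneg hc0 (sq_nonneg _)) (Nat.cast_nonneg _)
    · push Not at hc0
      obtain ⟨c', hc'1, hc'2⟩ := exists_between hc
      obtain ⟨n₀, hn₀⟩ := eventually_atTop.1 (h2 c' hc'2)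
      obtain ⟨r₀, hr₀⟩ := hinf.nonempty
      have hev : ∀ᶠ x : ℕ in atTop, c * Real.log x ^ 2 ≤ c' * (Real.log x - 2) ^ 2 := by
        have h3 : 0 < c' - c := by linarith
        filter_upwards [hL.eventually_ge_atTop (4 * c' / (c' - c)), hL.eventually_ge_atTop 0] with x h4 h5
        rw [div_le_iff₀ h3] at h4
        nlinarith [mul_le_mul_of_nonneg_right h4 h5]
      filter_upwards [hev, eventually_ge_atTop (2 * n₀ + 2), eventually_ge_atTop (2 * r₀ + 2), eventually_ge_atTop 4,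
        hL.eventually_ge_atTop 2] with x h3 h4 h5 h6 h12
      obtain ⟨N, hN⟩ : ∃ N, N = x / 2 := ⟨_, rfl⟩
      have hNx : 2 * N ≤ x := by omega
      have hxN : x ≤ 2 * N + 1 := by omega
      obtain ⟨a, b1, b2, b3⟩ := hn₀ N (by omega)
      have hN0 : (0 : ℝ) < N := by exact_mod_cast (by omega : 0 < N)
      have hx0 : (0 : ℝ) < x := by exact_mod_cast (by omega : 0 < x)
      have hlog : Real.log (x : ℝ) - 2 ≤ Real.log (N : ℝ) := by
        have h7 : (x : ℝ) ≤ N * Real.exp 2 := by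
          have h8 : (3 : ℝ) ≤ Real.exp 2 := by
            have := Real.add_one_le_exp (2 : ℝ)
            linarith
          have h9 : (x : ℝ) ≤ 2 * N + 1 := by exact_mod_cast hxN
          have h10 : (1 : ℝ) ≤ N := by exact_mod_cast (by omega : 1 ≤ N)
          nlinarith
        have h8 := Real.log_le_log hx0 h7
        rw [Real.log_mul hN0.ne' (Real.exp_pos _).ne', Real.log_exp] at h8
        linarith
      have hex : ∃ r, r ∈ R ∧ r ≤ a := ⟨r₀, hr₀, by omega⟩
      obtain ⟨r, hrR, hra, hrmax⟩ : ∃ r ∈ R, r ≤ a ∧ ∀ n, r < n → n ≤ a → n ∉ R := by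
        refine ⟨Nat.findGreatest (fun r => r ∈ R) a, ?_, Nat.findGreatest_le a, ?_⟩
        · exact Nat.findGreatest_spec (P := fun r => r ∈ R) (m := r₀) (by omega) hr₀
        · intro n hn1 hn2 hn3
          have := Nat.le_findGreatest (P := fun r => r ∈ R) hn2 hn3
          omega
      obtain ⟨s, hs, has, hsno⟩ := next_ex hinf a
      have hsL : a + ⌊c' * Real.log N ^ 2⌋₊ < s := by
        by_contra h7
        exact b3 s (mem_Ioc.2 ⟨has, by omega⟩) hs
      have hmem : s - r ∈ gapSet R x := by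
        refine ⟨r, hrR, by omega, by omega, ?_, ?_⟩
        · rw [show r + (s - r) = s from by omega]
          exact hs
        · intro n hn
          rw [mem_Ioo] at hn
          rcases le_or_gt n a with h7 | h7
          · exact hrmax n hn.1 h7
          · exact hsno n (mem_Ioo.2 ⟨h7, by omega⟩)
      have h7 : s - r ≤ sSup (gapSet R x) := le_csSup (gapSet_bdd R x) hmem
      have h8 : ⌊c' * Real.log N ^ 2⌋₊ + 1 ≤ sSup (gapSet R x) := by omega
      have h9 : ((⌊c' * Real.log (N : ℝ) ^ 2⌋₊ : ℕ) : ℝ) + 1 ≤ ((sSup (gapSet R x) : ℕ) : ℝ) := by exact_mod_cast h8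
      have h10 := Nat.lt_floor_add_one (c' * Real.log (N : ℝ) ^ 2)
      have h11 : c' * (Real.log (x : ℝ) - 2) ^ 2 ≤ c' * Real.log (N : ℝ) ^ 2 := by
        exact mul_le_mul_of_nonneg_left (pow_le_pow_left₀ (by linarith) hlog 2) (by linarith)
      linarith

end Pool.Agent.T2H62.MD
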