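import Pool.Agent.T2H62.MD.Y

set_option autoImplicit false

/-! # Random primes: the probability of a gap of the length of the square root, lower bound -/

namespace Pool.Agent.T2H62.MD

open Finset Filter Topology MeasureTheory ProbabilityTheory
open Pool.Agent.T2H53.GW

variable {Ω : Type*} [MeasurableSpace Ω] {μ : Measure Ω} [IsProbabilityMeasure μ] {S : ℕ → Set Ω}

/-- a block with and a block without random primes -/
theorem two_blocks (hm : ∀ n, MeasurableSet (S n)) (hi : iIndepSet S μ) (F G : Finset ℕ) (hFG : Disjoint F G) :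
    μ.real (HF S F ∩ (HF S G)ᶜ) = (1 - μ.real ((HF S F)ᶜ)) * μ.real ((HF S G)ᶜ) := by
  classical
  have h1 : (HF S F)ᶜ ∩ (HF S G)ᶜ = (HF S (F ∪ G))ᶜ := by
    ext ω
    unfold HF
    simp only [Set.mem_inter_iff, Set.mem_compl_iff, Set.mem_iUnion, not_exists, mem_union]
    constructor
    · rintro ⟨h2, h3⟩ n hn
      rcases hn with hn | hn
      · exact h2 n hn
      · exact h3 n hn
    · intro h2
      exact ⟨fun n hn => h2 n (Or.inl hn), fun n hn => h2 n (Or.inr hn)⟩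
  have h2 : μ.real ((HF S F)ᶜ ∩ (HF S G)ᶜ) = μ.real ((HF S F)ᶜ) * μ.real ((HF S G)ᶜ) := by
    rw [h1, real_compl_HF hm hi, real_compl_HF hm hi, real_compl_HF hm hi, prod_union hFG]
  have h3 : μ.real ((HF S G)ᶜ) = μ.real ((HF S G)ᶜ ∩ HF S F) + μ.real ((HF S G)ᶜ \ HF S F) :=
    (measureReal_inter_add_sdiff (measurable_HF hm F)).symm
  have h4 : (HF S G)ᶜ \ HF S F = (HF S F)ᶜ ∩ (HF S G)ᶜ := by
    ext ω
    simp only [Set.mem_diff, Set.mem_compl_iff, Set.mem_inter_iff]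
    tauto
  rw [h4, h2, Set.inter_comm] at h3
  linarith

/-- the lower bound -/
theorem fail_lower (A : ℝ) (hA : 0 < A) (hm : ∀ n, MeasurableSet (S n)) (hi : iIndepSet S μ)
    (hp : ∀ n, μ.real (S n) = pr A n) (δ : ℝ) (hδ : 0 < δ) (hδ1 : δ ≤ 1 / 8) :
    ∀ᶠ x : ℕ in atTop, 1 / 2 * Real.exp (-((2 + 16 * δ) * (Real.sqrt x / Real.log x))) ≤ μ.real (Fail S x) := by
  have hTn : Tendsto (fun n : ℕ => (n : ℝ)) atTop atTop := tendsto_natCast_atTop_atTop
  obtain ⟨n₀, hn₀⟩ := eventually_atTop.1 (mean_one A hA δ hδ)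
  obtain ⟨n₁, hn₁⟩ := eventually_atTop.1 (pr_small A hA δ hδ)
  have hinf : ∀ᵐ ω ∂μ, ∀ a : ℕ, ∃ n, a < n ∧ ω ∈ S n := by
    filter_upwards [gaps_upper A hA hm hi hp] with ω hω a
    obtain ⟨N, hN1, n, hn, hnS⟩ := ((eventually_ge_atTop a).and (hω 3 (by norm_num))).exists
    rw [mem_Ioc] at hn
    exact ⟨n, by omega, hnS⟩
  filter_upwards [eventually_ge_atTop n₀, eventually_ge_atTop n₁, rpow_big (3 / δ) (1 / 2) (by norm_num),
    log_pow_small 1 (4 / δ) (1 / 2) (by norm_num) (by positivity), eventually_ge_atTop 64, rpow_big (2 / δ) (1 / 2) (by norm_num)]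
    with x g0 g1 g2 g3 g4 g5
  have hx64 : (64 : ℝ) ≤ x := by exact_mod_cast g4
  have hx0 : (0 : ℝ) < x := by linarith
  have hlx : 0 < Real.log (x : ℝ) := Real.log_pos (by linarith)
  have hsx : Real.sqrt x ^ 2 = x := Real.sq_sqrt hx0.le
  have hs8 : 8 ≤ Real.sqrt x := by
    rw [show (8 : ℝ) = Real.sqrt 64 by rw [show (64 : ℝ) = 8 ^ 2 by norm_num]; rw [Real.sqrt_sq (by norm_num)]]
    exact Real.sqrt_le_sqrt hx64
  rw [← Real.sqrt_eq_rpow] at g2 g3 g5
  rw [div_lt_iff₀ hδ] at g2 g5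
  rw [pow_one, div_mul_eq_mul_div, div_le_iff₀ hδ] at g3
  -- the end of the first block
  obtain ⟨b, hb⟩ : ∃ b : ℕ, b = x + ⌊δ * x⌋₊ := ⟨_, rfl⟩
  have hfl := Nat.lt_floor_add_one (δ * (x : ℝ))
  have hfl2 : ((⌊δ * (x : ℝ)⌋₊ : ℕ) : ℝ) ≤ δ * x := Nat.floor_le (by positivity)
  have hbr : (b : ℝ) = x + (⌊δ * (x : ℝ)⌋₊ : ℝ) := by rw [hb]; push_cast; ring
  have hb1 : (b : ℝ) ≤ (1 + δ) * x := by rw [hbr]; linarith
  have hδx : 2 * Real.sqrt x ≤ δ * x := by
    have h1 : 2 * Real.sqrt x ≤ (Real.sqrt x * δ) * Real.sqrt x := mul_le_mul_of_nonneg_right g5.le (by positivity)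
    nlinarith
  have hb2 : (x : ℝ) + Real.sqrt x ≤ b := by
    rw [hbr]
    linarith
  have hxb : x ≤ b := by omega
  have hxb' : (x : ℝ) ≤ b := by exact_mod_cast hxb
  have hb0 : (0 : ℝ) < b := by linarith
  have hlb : Real.log (x : ℝ) ≤ Real.log b := Real.log_le_log hx0 hxb'
  have hsb : Real.sqrt b ≤ (1 + δ) * Real.sqrt x := by
    rw [Real.sqrt_le_left (by positivity), mul_pow, hsx]
    nlinarith
  have hsb8 : 8 ≤ Real.sqrt b := hs8.trans (Real.sqrt_le_sqrt hxb')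
  have hsb2 : Real.sqrt b ^ 2 = b := Real.sq_sqrt hb0.le
  -- the first block
  have hE1 : μ.real ((HF S (Ioc x b))ᶜ) ≤ 1 / 2 := by
    refine (none_le S hm hi _).trans ?_
    have h1 := hn₀ x g0 b (by rw [← Real.sqrt_eq_rpow]; exact hb2) (by
      have h2 : (b : ℝ) ≤ ((2 * x : ℕ) : ℝ) := by push_cast; nlinarith
      exact_mod_cast h2)
    have h2 : ∑ n ∈ Ioc x b, μ.real (S n) = ∑ n ∈ Ioc x b, pr A n := sum_congr rfl fun n _ => hp n
    rw [h2]
    have h3 := (abs_le.1 h1).1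
    have h4 : 2 ≤ ((b : ℝ) - x) / Real.log x := by
      rw [le_div_iff₀ hlx]
      have h5 : 4 * Real.log (x : ℝ) ≤ Real.sqrt x * 1 := by nlinarith
      linarith
    have h5 : 1 ≤ ∑ n ∈ Ioc x b, pr A n := by nlinarith
    have h6 : Real.exp (-(∑ n ∈ Ioc x b, pr A n)) ≤ Real.exp (-1) := Real.exp_le_exp.2 (by linarith)
    refine h6.trans ?_
    rw [Real.exp_neg, inv_eq_one_div]
    apply one_div_le_one_div_of_le (by norm_num)
    have := Real.add_one_le_exp (1 : ℝ)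
    linarith
  -- the second block
  obtain ⟨L, hLd⟩ : ∃ L : ℕ, L = ⌊2 * Real.sqrt (b : ℝ)⌋₊ + 3 := ⟨_, rfl⟩
  have hL1 := Nat.lt_floor_add_one (2 * Real.sqrt (b : ℝ))
  have hL2 : ((⌊2 * Real.sqrt (b : ℝ)⌋₊ : ℕ) : ℝ) ≤ 2 * Real.sqrt b := Nat.floor_le (by positivity)
  have hLr : (L : ℝ) = (⌊2 * Real.sqrt (b : ℝ)⌋₊ : ℝ) + 3 := by rw [hLd]; push_cast; ring
  obtain ⟨ρ, hρ⟩ : ∃ ρ : ℝ, ρ = Real.sqrt x / Real.log x := ⟨_, rfl⟩
  rw [← hρ]
  have hρ0 : 0 < ρ := by rw [hρ]; positivity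
  have hE2 : Real.exp (-((2 + 16 * δ) * ρ)) ≤ μ.real ((HF S (Ioc b (b + L)))ᶜ) := by
    rw [real_compl_HF hm hi]
    have h1 : Real.exp (-((2 + 16 * δ) * ρ)) ≤ Real.exp (-((∑ n ∈ Ioc b (b + L), pr A n) / (1 - δ))) := by
      apply Real.exp_le_exp.2
      apply neg_le_neg
      rw [div_le_iff₀ (by linarith)]
      have h2 := hn₀ b (by omega) (b + L) (by
        rw [← Real.sqrt_eq_rpow]
        push_cast
        rw [hLr]
        linarith) (by
        have h3 : ((b + L : ℕ) : ℝ) ≤ ((2 * b : ℕ) : ℝ) := by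
          push_cast
          rw [hLr]
          nlinarith
        exact_mod_cast h3)
      have h3 : (((b + L : ℕ) : ℝ) - b) = L := by push_cast; ring
      rw [h3] at h2
      have h4 := (abs_le.1 h2).2
      have h5 : (L : ℝ) / Real.log b ≤ (2 + 3 * δ) * ρ := by
        have h6 : (L : ℝ) / Real.log b ≤ L / Real.log x := div_le_div_of_nonneg_left (by positivity) hlx hlb
        refine h6.trans ?_
        rw [hρ, ← mul_div_assoc]
        apply div_le_div_of_nonneg_right _ hlx.le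
        rw [hLr]
        nlinarith
      have h6 : ∑ n ∈ Ioc b (b + L), pr A n ≤ (1 + δ) * ((2 + 3 * δ) * ρ) := by
        have h7 : (1 + δ) * ((L : ℝ) / Real.log b) ≤ (1 + δ) * ((2 + 3 * δ) * ρ) :=
          mul_le_mul_of_nonneg_left h5 (by linarith)
        linarith
      have h7 : (1 + δ) * (2 + 3 * δ) ≤ (2 + 16 * δ) * (1 - δ) := by nlinarith
      calc ∑ n ∈ Ioc b (b + L), pr A n ≤ (1 + δ) * ((2 + 3 * δ) * ρ) := h6
        _ = ((1 + δ) * (2 + 3 * δ)) * ρ := by ring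
        _ ≤ ((2 + 16 * δ) * (1 - δ)) * ρ := mul_le_mul_of_nonneg_right h7 hρ0.le
        _ = (2 + 16 * δ) * ρ * (1 - δ) := by ring
    refine h1.trans ?_
    rw [sum_div, ← sum_neg_distrib, Real.exp_sum]
    refine prod_le_prod (fun n _ => (Real.exp_pos _).le) (fun n hn => ?_)
    rw [hp]
    rw [mem_Ioc] at hn
    exact one_sub_ge (pr_nonneg A n) (hn₁ n (by omega)) (by linarith)
  -- together
  have hdis : Disjoint (Ioc x b) (Ioc b (b + L)) := by
    rw [Finset.disjoint_left]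
    intro n h1 h2
    rw [mem_Ioc] at h1 h2
    omega
  have h1 := two_blocks (μ := μ) hm hi (Ioc x b) (Ioc b (b + L)) hdis
  have h2 : μ.real (HF S (Ioc x b) ∩ (HF S (Ioc b (b + L)))ᶜ) ≤ μ.real (Fail S x) := by
    rw [measureReal_def, measureReal_def]
    apply ENNReal.toReal_mono (measure_ne_top _ _)
    apply measure_mono_ae
    filter_upwards [hinf] with ω hω hmem
    obtain ⟨h3, h4⟩ := hmem
    unfold HF at h3 h4
    simp only [Set.mem_iUnion, Set.mem_compl_iff, not_exists] at h3 h4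
    obtain ⟨n, hn1, hn2⟩ := h3
    rw [mem_Ioc] at hn1
    classical
    obtain ⟨R, hR⟩ : ∃ R : Set ℕ, R = {n | ω ∈ S n} := ⟨_, rfl⟩
    have hRinf : R.Infinite := by
      refine Set.infinite_of_forall_exists_gt fun a => ?_
      obtain ⟨m, hm1, hm2⟩ := hω a
      exact ⟨m, by rw [hR]; exact hm2, hm1⟩
    obtain ⟨s, hs1, hs2, hs3⟩ := next_ex hRinf b
    obtain ⟨r, hrR, hrb, hrmax⟩ : ∃ r ∈ R, r ≤ b ∧ ∀ n, r < n → n ≤ b → n ∉ R := by
      refine ⟨Nat.findGreatest (fun r => r ∈ R) b, ?_, Nat.findGreatest_le b, ?_⟩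
      · exact Nat.findGreatest_spec (P := fun r => r ∈ R) (m := n) hn1.2 (by rw [hR]; exact hn2)
      · intro m hm1 hm2 hm3
        have := Nat.le_findGreatest (P := fun r => r ∈ R) hm2 hm3
        omega
    have hnr : n ≤ r := by
      by_contra h5
      exact hrmax n (by omega) hn1.2 (by rw [hR]; exact hn2)
    have hsL : b + L < s := by
      by_contra h5
      have h6 : s ∈ {n | ω ∈ S n} := by rw [← hR]; exact hs1
      exact h4 s (mem_Ioc.2 ⟨hs2, by omega⟩) h6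
    refine ⟨r, s, by omega, by omega, ?_, ?_, ?_, ?_⟩
    · have h6 : r ∈ {n | ω ∈ S n} := by rw [← hR]; exact hrR
      exact h6
    · have h6 : s ∈ {n | ω ∈ S n} := by rw [← hR]; exact hs1
      exact h6
    · intro m hm1 hmS
      rw [mem_Ioo] at hm1
      have h6 : m ∈ R := by rw [hR]; exact hmS
      rcases le_or_gt m b with h7 | h7
      · exact hrmax m hm1.1 h7 h6
      · exact hs3 m (mem_Ioo.2 ⟨h7, hm1.2⟩) h6
    · have h6 : Real.sqrt r ≤ Real.sqrt b := Real.sqrt_le_sqrt (by exact_mod_cast hrb)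
      have h7 : Real.sqrt b + 1 ≤ Real.sqrt s := by
        apply Real.le_sqrt_of_sq_le
        have h8 : ((b + L : ℕ) : ℝ) + 1 ≤ s := by exact_mod_cast hsL
        push_cast at h8
        rw [hLr] at h8
        nlinarith
      linarith
  have h3 : 0 ≤ μ.real ((HF S (Ioc b (b + L)))ᶜ) := measureReal_nonneg
  rw [h1] at h2
  refine le_trans ?_ h2
  have h4 := (Real.exp_pos (-((2 + 16 * δ) * ρ))).le
  calc 1 / 2 * Real.exp (-((2 + 16 * δ) * ρ)) ≤ (1 - μ.real ((HF S (Ioc x b))ᶜ)) * Real.exp (-((2 + 16 * δ) * ρ)) :=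
        mul_le_mul_of_nonneg_right (by linarith) h4
    _ ≤ (1 - μ.real ((HF S (Ioc x b))ᶜ)) * μ.real ((HF S (Ioc b (b + L)))ᶜ) :=
        mul_le_mul_of_nonneg_left hE2 (by linarith)

/-- the exponential rate -/
theorem fail_rate (A : ℝ) (hA : 0 < A) (hm : ∀ n, MeasurableSet (S n)) (hi : iIndepSet S μ)
    (hp : ∀ n, μ.real (S n) = pr A n) :
    Tendsto (fun x : ℕ => Real.log (μ.real (Fail S x)) / (Real.sqrt x / Real.log x)) atTop (𝓝 (-2)) := by
  have hTn : Tendsto (fun n : ℕ => (n : ℝ)) atTop atTop := tendsto_natCast_atTop_atTop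
  -- `√x / log x → ∞`
  have hρ : Tendsto (fun x : ℕ => Real.sqrt x / Real.log x) atTop atTop := by
    refine tendsto_atTop.2 fun b => ?_
    filter_upwards [log_pow_small 1 (|b| + 1) (1 / 2) (by norm_num) (by positivity), eventually_ge_atTop 3] with x h1 h2
    have hl : 0 < Real.log (x : ℝ) := Real.log_pos (by exact_mod_cast (by omega : 1 < x))
    rw [← Real.sqrt_eq_rpow, pow_one] at h1
    rw [le_div_iff₀ hl]
    have := le_abs_self b
    nlinarith
  rw [Metric.tendsto_atTop']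
  intro e he
  obtain ⟨δ, hδ⟩ : ∃ δ : ℝ, δ = min (e / 32) (1 / 8) := ⟨_, rfl⟩
  have hδ0 : 0 < δ := by rw [hδ]; exact lt_min (by positivity) (by norm_num)
  have hδ1 : δ ≤ 1 / 8 := by rw [hδ]; exact min_le_right _ _
  have hδe : δ ≤ e / 32 := by rw [hδ]; exact min_le_left _ _
  obtain ⟨c, hc, hup⟩ := fail_upper A hA hm hi hp δ hδ0 (by linarith)
  have hlow := fail_lower A hA hm hi hp δ hδ0 hδ1
  obtain ⟨n₀, hn₀⟩ := eventually_atTop.1 (hup.and (hlow.and ((hρ.eventually_ge_atTop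
    ((|Real.log c| + |Real.log (1 / 2)| + 1) * (4 / e))).and (hρ.eventually_ge_atTop 1))))
  refine ⟨n₀, fun x hx => ?_⟩
  obtain ⟨h1, h2, h3, h4⟩ := hn₀ x hx.le
  obtain ⟨ρ, hρd⟩ : ∃ ρ : ℝ, ρ = Real.sqrt x / Real.log x := ⟨_, rfl⟩
  rw [← hρd] at h1 h2 h3 h4 ⊢
  have hρ0 : 0 < ρ := by linarith
  have hpos : 0 < μ.real (Fail S x) := lt_of_lt_of_le (by positivity) h2
  have h5 : Real.log (μ.real (Fail S x)) ≤ Real.log c - (2 - 4 * δ) * ρ := by
    have h6 := Real.log_le_log hpos h1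
    rw [Real.log_mul hc.ne' (Real.exp_pos _).ne', Real.log_exp] at h6
    linarith
  have h6 : Real.log (1 / 2) - (2 + 16 * δ) * ρ ≤ Real.log (μ.real (Fail S x)) := by
    have h7 := Real.log_le_log (by positivity) h2
    rw [Real.log_mul (by norm_num) (Real.exp_pos _).ne', Real.log_exp] at h7
    linarith
  have h7 : |Real.log c| + |Real.log (1 / 2)| + 1 ≤ e / 4 * ρ := by
    rw [mul_div_assoc', div_le_iff₀ he] at h3
    linarith
  have h8 := le_abs_self (Real.log c)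
  have h9 := neg_abs_le (Real.log (1 / 2))
  have h10 := abs_nonneg (Real.log c)
  have h11 := abs_nonneg (Real.log (1 / 2))
  rw [Real.dist_eq, abs_lt]
  constructor
  · rw [lt_sub_iff_add_lt, lt_div_iff₀ hρ0]
    nlinarith
  · rw [sub_lt_iff_lt_add, div_lt_iff₀ hρ0]
    nlinarith

end Pool.Agent.T2H62.MD
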