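import Pool.Agent.T2H62.MD.C

set_option autoImplicit false

/-! # The conjecture of Hardy and Littlewood on windows, for random primes -/

namespace Pool.Agent.T2H62.MD

open Finset Filter Topology MeasureTheory ProbabilityTheory
open Pool.Agent.T2H53.GW

/-- from the two properties of the set `R` to the equality of the extremal numbers -/
theorem hl_windows {R : Set ℕ} [DecidablePred (· ∈ R)] {A : ℝ} (hA : 0 < A)
    (h1 : ∀ n, pr A n = 0 → n ∉ R)
    (h2 : ∀ k m : ℕ, ∀ ε : ℝ, 0 < ε → ∀ᶠ N : ℕ in atTop,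
      ∃ x ∈ Ioc N (N + ⌊(N : ℝ) ^ ε⌋₊), x ≡ m [MOD primorial k] ∧
        ∀ h, 1 ≤ h → h ≤ k → (x + h ∈ R ↔ Nat.Coprime (x + h) (primorial k))) (k : ℕ) :
    ∃ H : ℕ,
      (∃ m : ℕ, ((Finset.Ioc m (m + k)).filter (fun x => Nat.Coprime x (primorial k))).card = H) ∧
      (∀ m : ℕ, ((Finset.Ioc m (m + k)).filter (fun x => Nat.Coprime x (primorial k))).card ≤ H) ∧
      (∃ᶠ x in atTop, ((Finset.Ioc x (x + k)).filter (fun n => n ∈ R)).card = H) ∧
      (∀ᶠ x in atTop, ((Finset.Ioc x (x + k)).filter (fun n => n ∈ R)).card ≤ H) := by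
  classical
  obtain ⟨f, hf⟩ : ∃ f : ℕ → ℕ, f = fun m : ℕ => ((Finset.Ioc m (m + k)).filter (fun x => Nat.Coprime x (primorial k))).card :=
    ⟨_, rfl⟩
  have hfk : ∀ m, f m ≤ k := by
    intro m
    rw [hf]
    refine (card_filter_le _ _).trans ?_
    rw [Nat.card_Ioc]
    omega
  obtain ⟨H, ⟨m, hm⟩, hmax⟩ : ∃ H : ℕ, (∃ m, f m = H) ∧ ∀ m, f m ≤ H := by
    have hbd : BddAbove (Set.range f) := ⟨k, by rintro _ ⟨m, rfl⟩; exact hfk m⟩
    refine ⟨sSup (Set.range f), ?_, fun m => le_csSup hbd ⟨m, rfl⟩⟩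
    obtain ⟨m, hm⟩ := Nat.sSup_mem (Set.range_nonempty f) hbd
    exact ⟨m, hm⟩
  refine ⟨H, ⟨m, by rw [hf] at hm; exact hm⟩, fun m' => by have := hmax m'; rw [hf] at this; exact this, ?_, ?_⟩
  · have h3 := h2 k m 1 one_pos
    obtain ⟨N₀, hN₀⟩ := eventually_atTop.1 h3
    rw [frequently_atTop]
    intro a
    obtain ⟨x, hx, hxm, hxS⟩ := hN₀ (max a N₀) (le_max_right _ _)
    rw [mem_Ioc] at hx
    refine ⟨x, by have := le_max_left a N₀; omega, ?_⟩
    rw [← hm, hf]
    have h4 : (Finset.Ioc x (x + k)).filter (fun n => n ∈ R) =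
        (Finset.Ioc x (x + k)).filter (fun n => Nat.Coprime n (primorial k)) := by
      apply filter_congr
      intro n hn
      rw [mem_Ioc] at hn
      have h5 := hxS (n - x) (by omega) (by omega)
      have h6 : x + (n - x) = n := by omega
      rwa [h6] at h5
    rw [h4]
    apply card_bij' (i := fun n _ => n - x + m) (j := fun n _ => n - m + x)
    · intro n hn
      rw [mem_filter, mem_Ioc] at hn ⊢
      refine ⟨by omega, ?_⟩
      have h5 : n - x + m ≡ n [MOD primorial k] := by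
        have h6 : n - x + m ≡ n - x + x [MOD primorial k] := Nat.ModEq.add_left _ hxm.symm
        rwa [Nat.sub_add_cancel (by omega)] at h6
      have h7 := hn.2
      unfold Nat.Coprime at h7 ⊢
      rw [h5.gcd_eq]
      exact h7
    · intro n hn
      rw [mem_filter, mem_Ioc] at hn ⊢
      refine ⟨by omega, ?_⟩
      have h5 : n - m + x ≡ n [MOD primorial k] := by
        have h6 : n - m + x ≡ n - m + m [MOD primorial k] := Nat.ModEq.add_left _ hxm
        rwa [Nat.sub_add_cancel (by omega)] at h6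
      have h7 := hn.2
      unfold Nat.Coprime at h7 ⊢
      rw [h5.gcd_eq]
      exact h7
    · intro n hn
      rw [mem_filter, mem_Ioc] at hn
      show n - x + m - m + x = n
      omega
    · intro n hn
      rw [mem_filter, mem_Ioc] at hn
      show n - m + x - x + m = n
      omega
  · have hT : Tendsto (fun n : ℕ => (n : ℝ)) atTop atTop := tendsto_natCast_atTop_atTop
    have hlog : ∀ᶠ N : ℕ in atTop, (k : ℝ) ≤ A * Real.log N :=
      (((Real.tendsto_log_atTop.comp hT).const_mul_atTop hA)).eventually_ge_atTop _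
    filter_upwards [hlog, eventually_ge_atTop 1] with x h3 h4
    have hx := hmax x
    rw [hf] at hx
    refine le_trans (card_le_card ?_) hx
    intro n hn
    rw [mem_filter] at hn ⊢
    refine ⟨hn.1, ?_⟩
    by_contra hcon
    obtain ⟨p, hp1, hp2, hp3⟩ := Nat.Prime.not_coprime_iff_dvd.1 hcon
    have hpk : p ≤ k := by
      unfold primorial at hp3
      obtain ⟨q, hq1, hq2⟩ := (Nat.prime_iff.1 hp1).exists_mem_finset_dvd hp3
      rw [mem_filter, mem_range] at hq1
      have h6 := (Nat.prime_dvd_prime_iff_eq hp1 hq1.2).1 hq2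
      omega
    refine h1 n ?_ hn.2
    unfold pr
    rw [if_neg]
    push Not
    refine ⟨p, hp1, ?_, hp2⟩
    have h7 : (p : ℝ) ≤ k := by exact_mod_cast hpk
    have hx0 : (0 : ℝ) < x := by exact_mod_cast h4
    have h8 : Real.log x ≤ Real.log n := Real.log_le_log hx0 (by
      have := (mem_Ioc.1 hn.1).1
      exact_mod_cast this.le)
    have h9 := mul_le_mul_of_nonneg_left h8 hA.le
    linarith

end Pool.Agent.T2H62.MD
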