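import Mathlib
import Pool.Agent.T2H53.GW.Low
import Pool.Agent.T2H53.GW.Exist

set_option autoImplicit false

/-! # The second moment method for independent events -/

namespace Pool.Agent.T2H62.MD

open Finset Filter Topology MeasureTheory ProbabilityTheory

variable {Ω : Type*} [MeasurableSpace Ω] {μ : Measure Ω} [IsProbabilityMeasure μ] {S : ℕ → Set Ω}

/-- the number of the events which occur -/
noncomputable def cnt {ι : Type*} (I : Finset ι) (F : ι → Set Ω) (ω : Ω) : ℝ :=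
  ∑ i ∈ I, (F i).indicator (fun _ => (1 : ℝ)) ω

theorem cnt_eq {ι : Type*} (I : Finset ι) (F : ι → Set Ω) (ω : Ω) [DecidablePred fun i => ω ∈ F i] :
    cnt I F ω = ((I.filter (fun i => ω ∈ F i)).card : ℝ) := by
  unfold cnt
  rw [card_filter]
  push_cast
  refine sum_congr rfl fun i _ => ?_
  by_cases h : ω ∈ F i
  · rw [Set.indicator_of_mem h, if_pos h]
  · rw [Set.indicator_of_notMem h, if_neg h]

theorem memLp_ind {F : Set Ω} (hF : MeasurableSet F) : MemLp (F.indicator (fun _ => (1 : ℝ))) 2 μ :=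
  memLp_indicator_const 2 hF 1 (Or.inr (measure_ne_top _ _))

theorem memLp_cnt {ι : Type*} (I : Finset ι) (F : ι → Set Ω) (hF : ∀ i ∈ I, MeasurableSet (F i)) :
    MemLp (cnt I F) 2 μ := by
  have h := memLp_finset_sum I (f := fun i => (F i).indicator (fun _ => (1 : ℝ))) (fun i hi => memLp_ind (μ := μ) (hF i hi))
  exact h

theorem int_ind {F : Set Ω} (hF : MeasurableSet F) : ∫ ω, F.indicator (fun _ => (1 : ℝ)) ω ∂μ = μ.real F := by
  rw [integral_indicator_const _ hF]
  simp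

theorem int_cnt {ι : Type*} (I : Finset ι) (F : ι → Set Ω) (hF : ∀ i ∈ I, MeasurableSet (F i)) :
    ∫ ω, cnt I F ω ∂μ = ∑ i ∈ I, μ.real (F i) := by
  unfold cnt
  rw [integral_finsetSum]
  · exact sum_congr rfl fun i hi => int_ind (hF i hi)
  · intro i hi
    exact (memLp_ind (hF i hi)).integrable (by norm_num)

theorem var_cnt {ι : Type*} [DecidableEq ι] (I : Finset ι) (F : ι → Set Ω) (hF : ∀ i ∈ I, MeasurableSet (F i))
    (hind : ∀ i ∈ I, ∀ j ∈ I, i ≠ j → μ.real (F i ∩ F j) = μ.real (F i) * μ.real (F j)) :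
    variance (cnt I F) μ ≤ ∑ i ∈ I, μ.real (F i) := by
  rw [variance_eq_sub (memLp_cnt I F hF), int_cnt I F hF]
  have h1 : ∀ ω, ((cnt I F) ^ 2) ω = ∑ i ∈ I, ∑ j ∈ I, (F i ∩ F j).indicator (fun _ => (1 : ℝ)) ω := by
    intro ω
    rw [Pi.pow_apply]
    unfold cnt
    rw [sq, sum_mul_sum]
    refine sum_congr rfl fun i _ => sum_congr rfl fun j _ => ?_
    by_cases hi : ω ∈ F i <;> by_cases hj : ω ∈ F j <;> simp [hi, hj]
  have h2 : ∫ ω, ((cnt I F) ^ 2) ω ∂μ = ∑ i ∈ I, ∑ j ∈ I, μ.real (F i ∩ F j) := by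
    simp only [h1]
    rw [integral_finsetSum]
    · refine sum_congr rfl fun i hi => ?_
      rw [integral_finsetSum]
      · exact sum_congr rfl fun j hj => int_ind ((hF i hi).inter (hF j hj))
      · intro j hj
        exact (memLp_ind ((hF i hi).inter (hF j hj))).integrable (by norm_num)
    · intro i hi
      exact integrable_finsetSum _ fun j hj => (memLp_ind ((hF i hi).inter (hF j hj))).integrable (by norm_num)
  rw [h2]
  have h3 : ∑ i ∈ I, ∑ j ∈ I, μ.real (F i ∩ F j) ≤ ∑ i ∈ I, (μ.real (F i) + ∑ j ∈ I, μ.real (F i) * μ.real (F j)) := by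
    refine sum_le_sum fun i hi => ?_
    have h4 : ∑ j ∈ I, μ.real (F i ∩ F j) = μ.real (F i) + ∑ j ∈ I.erase i, μ.real (F i) * μ.real (F j) := by
      rw [← add_sum_erase I _ hi, Set.inter_self]
      congr 1
      exact sum_congr rfl fun j hj => hind i hi j (mem_of_mem_erase hj) (ne_of_mem_erase hj).symm
    rw [h4]
    refine (add_le_add_iff_left _).2 ?_
    exact sum_le_sum_of_subset_of_nonneg (erase_subset _ _) fun j _ _ => mul_nonneg measureReal_nonneg measureReal_nonneg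
  rw [sum_add_distrib] at h3
  have h5 : ∑ i ∈ I, ∑ j ∈ I, μ.real (F i) * μ.real (F j) = (∑ i ∈ I, μ.real (F i)) ^ 2 := by
    rw [sq, sum_mul_sum]
  rw [h5] at h3
  linarith

/-- Chebyshev's inequality -/
theorem cheb {ι : Type*} [DecidableEq ι] (I : Finset ι) (F : ι → Set Ω) (hF : ∀ i ∈ I, MeasurableSet (F i))
    (hind : ∀ i ∈ I, ∀ j ∈ I, i ≠ j → μ.real (F i ∩ F j) = μ.real (F i) * μ.real (F j)) (t : ℝ) (ht : 0 < t) :
    μ.real {ω | t ≤ |cnt I F ω - ∑ i ∈ I, μ.real (F i)|} ≤ (∑ i ∈ I, μ.real (F i)) / t ^ 2 := by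
  have h1 := meas_ge_le_variance_div_sq (memLp_cnt (μ := μ) I F hF) ht
  rw [int_cnt I F hF] at h1
  have h2 := ENNReal.toReal_mono ENNReal.ofReal_ne_top h1
  rw [ENNReal.toReal_ofReal (div_nonneg (variance_nonneg _ _) (by positivity))] at h2
  · refine h2.trans ?_
    exact div_le_div_of_nonneg_right (var_cnt I F hF hind) (by positivity)

/-- the events `all n + h ∈ R` -/
def Fh (S : ℕ → Set Ω) (H : Finset ℕ) (n : ℕ) : Set Ω := ⋂ h ∈ H, S (n + h)

theorem Fh_meas (hm : ∀ n, MeasurableSet (S n)) (H : Finset ℕ) (n : ℕ) : MeasurableSet (Fh S H n) :=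
  H.measurableSet_biInter fun h _ => hm (n + h)

theorem prob_inter (hm : ∀ n, MeasurableSet (S n)) (hi : iIndepSet S μ) (T : Finset ℕ) :
    μ.real (⋂ n ∈ T, S n) = ∏ n ∈ T, μ.real (S n) := by
  rw [iIndepSet_iff_meas_biInter hm] at hi
  rw [measureReal_def, hi T, ENNReal.toReal_prod]
  rfl

theorem Fh_eq (H : Finset ℕ) (n : ℕ) : Fh S H n = ⋂ m ∈ H.image (fun h => n + h), S m := by
  unfold Fh
  ext ω
  simp

theorem prob_Fh (hm : ∀ n, MeasurableSet (S n)) (hi : iIndepSet S μ) (H : Finset ℕ) (n : ℕ) :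
    μ.real (Fh S H n) = ∏ h ∈ H, μ.real (S (n + h)) := by
  rw [Fh_eq, prob_inter hm hi, prod_image]
  intro a _ b _ h
  exact Nat.add_left_cancel h

theorem prob_Fh2 (hm : ∀ n, MeasurableSet (S n)) (hi : iIndepSet S μ) (H : Finset ℕ) (n n' : ℕ)
    (hd : ∀ h ∈ H, ∀ h' ∈ H, n + h ≠ n' + h') :
    μ.real (Fh S H n ∩ Fh S H n') = μ.real (Fh S H n) * μ.real (Fh S H n') := by
  classical
  have hdis : Disjoint (H.image (fun h => n + h)) (H.image (fun h => n' + h)) := by
    rw [Finset.disjoint_left]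
    intro a ha hb
    rw [mem_image] at ha hb
    obtain ⟨h, hh, rfl⟩ := ha
    obtain ⟨h', hh', he⟩ := hb
    exact hd h hh h' hh' he.symm
  rw [Fh_eq, Fh_eq, prob_inter hm hi, prob_inter hm hi]
  have h1 : (⋂ m ∈ H.image (fun h => n + h), S m) ∩ (⋂ m ∈ H.image (fun h => n' + h), S m) =
      ⋂ m ∈ H.image (fun h => n + h) ∪ H.image (fun h => n' + h), S m := by
    ext ω
    simp only [Set.mem_inter_iff, Set.mem_iInter, mem_union]
    constructor
    · rintro ⟨a, b⟩ m (h | h)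
      · exact a m h
      · exact b m h
    · intro a
      exact ⟨fun m h => a m (Or.inl h), fun m h => a m (Or.inr h)⟩
  rw [h1, prob_inter hm hi, prod_union hdis]

/-- almost surely no event of probability `0` occurs -/
theorem ae_none (hp0 : ∀ n, μ.real (S n) = 0 → μ (S n) = 0) : ∀ᵐ ω ∂μ, ∀ n, μ.real (S n) = 0 → ω ∉ S n := by
  rw [ae_all_iff]
  intro n
  by_cases h : μ.real (S n) = 0
  · have h1 := hp0 n h
    have h2 : ∀ᵐ ω ∂μ, ω ∉ S n := measure_eq_zero_iff_ae_notMem.1 h1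
    filter_upwards [h2] with ω hω _
    exact hω
  · filter_upwards with ω h1
    exact absurd h1 h

end Pool.Agent.T2H62.MD
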