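import Pool.Agent.T2H62.MD.A
import Pool.Agent.T2H62.LinG
import Pool.Agent.T2H53.GW.Prob

set_option autoImplicit false

/-! # Patterns of random primes in short intervals -/

namespace Pool.Agent.T2H62.MD

open Finset Filter Topology MeasureTheory ProbabilityTheory
open Pool.Agent.T2H53.GW
open Pool.Agent.X32.Uni

variable {Ω : Type*} [MeasurableSpace Ω] {μ : Measure Ω} [IsProbabilityMeasure μ] {S : ℕ → Set Ω}

theorem indep_Fh (hm : ∀ n, MeasurableSet (S n)) (hi : iIndepSet S μ) (H : Finset ℕ) (Q m : ℕ)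
    (hQ : ∀ h ∈ H, 1 ≤ h ∧ h ≤ Q) : iIndepSet (fun n => Fh S H (Q * n + m)) μ := by
  classical
  rw [iIndepSet_iff_meas_biInter (fun n => Fh_meas hm H _)]
  rw [iIndepSet_iff_meas_biInter hm] at hi
  intro T
  have hdis : (T : Set ℕ).PairwiseDisjoint (fun n => H.image (fun h => Q * n + m + h)) := by
    intro a _ b _ hab
    rw [Function.onFun, Finset.disjoint_left]
    intro z hz hz'
    rw [mem_image] at hz hz'
    obtain ⟨h, hh, rfl⟩ := hz
    obtain ⟨h', hh', he⟩ := hz'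
    have h1 := hQ h hh
    have h2 := hQ h' hh'
    rcases Nat.lt_or_ge a b with hlt | hge
    · have h3 : Q * (a + 1) ≤ Q * b := Nat.mul_le_mul_left _ hlt
      rw [mul_add, mul_one] at h3
      omega
    · have h3 : Q * (b + 1) ≤ Q * a := Nat.mul_le_mul_left _ (lt_of_le_of_ne hge (fun h => hab h.symm))
      rw [mul_add, mul_one] at h3
      omega
  have h1 : (⋂ n ∈ T, Fh S H (Q * n + m)) = ⋂ j ∈ T.biUnion (fun n => H.image (fun h => Q * n + m + h)), S j := by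
    ext ω
    unfold Fh
    simp only [Set.mem_iInter, mem_biUnion, mem_image]
    constructor
    · rintro h j ⟨n, hn, a, ha, rfl⟩
      exact h n hn a ha
    · intro h n hn a ha
      exact h _ ⟨n, hn, a, ha, rfl⟩
  rw [h1, hi, prod_biUnion hdis]
  refine prod_congr rfl fun n _ => ?_
  rw [Fh_eq, hi]

/-- no event of a block occurs -/
theorem none_le (F : ℕ → Set Ω) (hm : ∀ n, MeasurableSet (F n)) (hi : iIndepSet F μ) (I : Finset ℕ) :
    μ.real ((HF F I)ᶜ) ≤ Real.exp (-(∑ n ∈ I, μ.real (F n))) := by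
  rw [real_compl_HF hm hi, ← sum_neg_distrib, Real.exp_sum]
  refine prod_le_prod (fun n _ => ?_) (fun n _ => ?_)
  · have := measureReal_le_one (μ := μ) (s := F n)
    linarith
  · have := Real.add_one_le_exp (-(μ.real (F n)))
    linarith

theorem pr_rough (A : ℝ) (t : ℕ) (ht : 1 ≤ t) : ∀ᶠ X : ℕ in atTop, ∀ n : ℕ, 3 ≤ n → n ≤ X ^ 2 →
    (∀ q : ℕ, q.Prime → q ∣ n → (X : ℝ) ^ (1 / (t : ℝ)) < q) → 1 / (2 * Real.log X) ≤ pr A n := by
  have ht0 : (0 : ℝ) < t := by exact_mod_cast ht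
  have h1 := (isLittleO_log_rpow_atTop (show (0 : ℝ) < 1 / t by positivity)).comp_tendsto
    (tendsto_natCast_atTop_atTop (R := ℝ))
  have h2 := h1.bound (show (0 : ℝ) < 1 / (2 * (|A| + 1)) by positivity)
  filter_upwards [h2, eventually_ge_atTop 3] with X hX hX3 n hn3 hnX hq
  have hX0 : (0 : ℝ) < X := by exact_mod_cast (by omega : 0 < X)
  have hX1 : (1 : ℝ) < X := by exact_mod_cast (by omega : 1 < X)
  have hlX : 0 < Real.log X := Real.log_pos hX1
  have hpX : 0 < (X : ℝ) ^ (1 / (t : ℝ)) := Real.rpow_pos_of_pos hX0 _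
  simp only [Function.comp, Real.norm_eq_abs] at hX
  rw [abs_of_pos hlX, abs_of_pos hpX] at hX
  have hn0 : (0 : ℝ) < n := by exact_mod_cast (by omega : 0 < n)
  have hn3' : (3 : ℝ) ≤ n := by exact_mod_cast hn3
  have hl : 1 ≤ Real.log n := by
    rw [Real.le_log_iff_exp_le hn0]
    have := Real.exp_one_lt_d9
    linarith
  have hln : Real.log n ≤ 2 * Real.log X := by
    have h3 : (n : ℝ) ≤ (X : ℝ) ^ 2 := by exact_mod_cast hnX
    calc Real.log n ≤ Real.log ((X : ℝ) ^ 2) := Real.log_le_log hn0 h3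
      _ = 2 * Real.log X := by rw [Real.log_pow]; norm_num
  unfold pr
  rw [if_pos]
  · have h4 : 1 / (2 * Real.log X) ≤ 1 / Real.log n := one_div_le_one_div_of_le (by linarith) hln
    refine h4.trans (le_min ?_ ?_)
    · rw [div_le_one (by linarith)]; exact hl
    · exact div_le_div_of_nonneg_right (one_le_VV _) (by linarith)
  · intro p hp hpA hpn
    have h5 := hq p hp hpn
    have h6 : A * Real.log n ≤ (|A| + 1) * (2 * Real.log X) := by
      calc A * Real.log n ≤ |A| * Real.log n := mul_le_mul_of_nonneg_right (le_abs_self A) (by linarith)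
        _ ≤ (|A| + 1) * (2 * Real.log X) := by
            apply mul_le_mul (by linarith) hln (by linarith) (by positivity)
    have h7 : (|A| + 1) * (2 * Real.log X) ≤ (X : ℝ) ^ (1 / (t : ℝ)) := by
      have h8 : (2 * (|A| + 1)) * Real.log X ≤ (2 * (|A| + 1)) * (1 / (2 * (|A| + 1)) * (X : ℝ) ^ (1 / (t : ℝ))) :=
        mul_le_mul_of_nonneg_left hX (by positivity)
      have h9 : (2 * (|A| + 1)) * (1 / (2 * (|A| + 1)) * (X : ℝ) ^ (1 / (t : ℝ))) = (X : ℝ) ^ (1 / (t : ℝ)) := by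
        field_simp
      rw [h9] at h8
      linarith
    linarith

/-- the local condition -/
def AdmH (H : Finset ℕ) (Q m : ℕ) : Prop :=
  ∀ p : ℕ, p.Prime → ∃ n : ℤ, ∀ h ∈ H, ¬ (p : ℤ) ∣ Q * n + ((m + h : ℕ) : ℤ)

/-- many arguments with rough values -/
theorem rough_many (H : Finset ℕ) (hH : H.Nonempty) (Q m : ℕ) (hQ : 1 ≤ Q) (hadm : AdmH H Q m) (ε : ℝ) (hε : 0 < ε) :
    ∃ t : ℕ, 1 ≤ t ∧ ∃ κ : ℝ, 0 < κ ∧ ∀ᶠ X : ℕ in atTop, ∀ A B : ℕ, B ≤ X → (X : ℝ) ^ ε ≤ (B : ℝ) - A →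
      ∃ G : Finset ℕ, G ⊆ Ioc A B ∧ κ * ((B : ℝ) - A) / Real.log X ^ H.card ≤ G.card ∧
        ∀ n ∈ G, ∀ h ∈ H, ∀ q : ℕ, q.Prime → q ∣ Q * n + m + h → (X : ℝ) ^ (1 / (t : ℝ)) < q := by
  classical
  obtain ⟨a, ha⟩ : ∃ a : Fin H.card → ℤ, a = fun _ => (Q : ℤ) := ⟨_, rfl⟩
  obtain ⟨b, hb⟩ : ∃ b : Fin H.card → ℤ, b = fun l => ((m + ((H.equivFin.symm l : H) : ℕ) : ℕ) : ℤ) := ⟨_, rfl⟩
  have hQz : (Q : ℤ) ≠ 0 := by
    have : (0 : ℤ) < Q := by exact_mod_cast hQ
    exact this.ne'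
  obtain ⟨C, t, ht, κ, K, hκ, hK, ⟨X₀, h1⟩, _⟩ := LG.shortG a b hH.card_pos (by
      intro p hp
      obtain ⟨n, hn⟩ := hadm p hp
      refine ⟨n, fun l hd => hn _ (H.equivFin.symm l).2 ?_⟩
      rw [ha, hb] at hd
      exact hd) (fun l => by rw [ha]; exact hQz)
    (by
      intro l l' hl h0
      rw [ha, hb] at h0
      simp only at h0
      apply hl
      apply H.equivFin.symm.injective
      apply Subtype.ext
      have h2 : (Q : ℤ) * ((((H.equivFin.symm l' : H) : ℕ) : ℤ) - (((H.equivFin.symm l : H) : ℕ) : ℤ)) = 0 := by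
        push_cast at h0
        linarith
      rcases mul_eq_zero.1 h2 with h3 | h3
      · exact absurd h3 hQz
      · have h4 : (((H.equivFin.symm l : H) : ℕ) : ℤ) = (((H.equivFin.symm l' : H) : ℕ) : ℤ) := by linarith
        exact_mod_cast h4)
    ∅ (by simp) (by simp) ε hε
  refine ⟨t, ht, κ, hκ, eventually_atTop.2 ⟨X₀, fun X hX A B hB hAB => ?_⟩⟩
  refine ⟨LG.GT a b ∅ C t X A B, filter_subset _ _, (h1 X hX A B hB hAB).1, ?_⟩
  intro n hn h hh q hq hd
  unfold LG.GT at hn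
  rw [mem_filter] at hn
  have h2 := (hn.2.1 (H.equivFin ⟨h, hh⟩)).2.2 q hq
  apply h2
  rw [ha, hb]
  simp only [Equiv.symm_apply_apply]
  have h3 : ((q : ℕ) : ℤ) ∣ ((Q * n + m + h : ℕ) : ℤ) := Int.natCast_dvd_natCast.2 hd
  have h4 : ((Q * n + m + h : ℕ) : ℤ) = (Q : ℤ) * n + ((m + h : ℕ) : ℤ) := by
    push_cast
    ring
  rwa [h4] at h3

theorem mean_low (A : ℝ) (hm : ∀ n, MeasurableSet (S n)) (hi : iIndepSet S μ) (hp : ∀ n, μ.real (S n) = pr A n)
    (H : Finset ℕ) (hH : H.Nonempty) (Q m : ℕ) (hQ1 : 1 ≤ Q) (hadm : AdmH H Q m) (ε : ℝ) (hε : 0 < ε) :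
    ∃ κ : ℝ, 0 < κ ∧ ∀ᶠ X : ℕ in atTop, ∀ A' B : ℕ, B ≤ X → (X : ℝ) ^ ε ≤ (B : ℝ) - A' →
      κ * ((B : ℝ) - A') / Real.log X ^ (2 * H.card) - 3 ≤ ∑ n ∈ Ioc A' B, μ.real (Fh S H (Q * n + m)) := by
  classical
  obtain ⟨t, ht, κ, hκ, h1⟩ := rough_many H hH Q m hQ1 hadm ε hε
  have hbig : ∀ᶠ X : ℕ in atTop, ∀ n ≤ X, ∀ h ∈ H, Q * n + m + h ≤ X ^ 2 := by
    filter_upwards [eventually_ge_atTop (Q + m + ∑ h ∈ H, h)] with X hX n hn h hh
    have h2 : h ≤ ∑ h ∈ H, h := single_le_sum (f := fun h : ℕ => h) (fun _ _ => Nat.zero_le _) hh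
    have h3 : Q * n ≤ Q * X := Nat.mul_le_mul_left _ hn
    have h4 : (Q + m + h) * X ≤ X * X := Nat.mul_le_mul_right _ (by omega)
    have h5 : (Q + m + h) * X = Q * X + (m + h) * X := by ring
    have h6 : m + h ≤ (m + h) * X := Nat.le_mul_of_pos_right _ (by omega)
    rw [sq]
    omega
  refine ⟨κ / 2 ^ H.card, by positivity, ?_⟩
  filter_upwards [h1, pr_rough A t ht, hbig, eventually_ge_atTop 3] with X h2 h3 h4 hX3 A' B hB hAB
  obtain ⟨G, g1, g2, g3⟩ := h2 A' B hB hAB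
  have hX1 : (1 : ℝ) < X := by exact_mod_cast (by omega : 1 < X)
  have hlX : 0 < Real.log X := Real.log_pos hX1
  have hl1 : 1 ≤ Real.log X := by
    rw [Real.le_log_iff_exp_le (by linarith)]
    have := Real.exp_one_lt_d9
    have : (3 : ℝ) ≤ X := by exact_mod_cast hX3
    linarith
  have key : ∀ n ∈ G.filter (fun n => 3 ≤ n), (1 / (2 * Real.log X)) ^ H.card ≤ μ.real (Fh S H (Q * n + m)) := by
    intro n hn
    rw [mem_filter] at hn
    rw [prob_Fh hm hi, ← prod_const]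
    refine prod_le_prod (fun h _ => by positivity) (fun h hh => ?_)
    rw [hp]
    have hn2 := mem_Ioc.1 (g1 hn.1)
    refine h3 _ ?_ (h4 n (by omega) h hh) (g3 n hn.1 h hh)
    have : 1 * n ≤ Q * n := Nat.mul_le_mul_right _ hQ1
    omega
  have hcard : (G.card : ℝ) - 3 ≤ (G.filter (fun n => 3 ≤ n)).card := by
    have h5 : G.card ≤ (G.filter (fun n => 3 ≤ n)).card + (range 3).card := by
      refine le_trans (card_le_card (t := G.filter (fun n => 3 ≤ n) ∪ range 3) ?_) (card_union_le _ _)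
      intro n hn
      rw [mem_union, mem_filter, mem_range]
      rcases Nat.lt_or_ge n 3 with h | h
      · exact Or.inr h
      · exact Or.inl ⟨hn, h⟩
    rw [card_range] at h5
    have h6 : (G.card : ℝ) ≤ (G.filter (fun n => 3 ≤ n)).card + 3 := by exact_mod_cast h5
    linarith
  have hle1 : (1 / (2 * Real.log X)) ^ H.card ≤ 1 := by
    apply pow_le_one₀ (by positivity)
    rw [div_le_one (by positivity)]
    linarith
  have hpos : 0 ≤ (1 / (2 * Real.log X)) ^ H.card := by positivity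
  calc κ / 2 ^ H.card * ((B : ℝ) - A') / Real.log X ^ (2 * H.card) - 3
      = (κ * ((B : ℝ) - A') / Real.log X ^ H.card) * (1 / (2 * Real.log X)) ^ H.card - 3 := by
        rw [two_mul, pow_add, div_pow, one_pow, mul_pow]
        field_simp
    _ ≤ G.card * (1 / (2 * Real.log X)) ^ H.card - 3 * (1 / (2 * Real.log X)) ^ H.card := by
        have := mul_le_mul_of_nonneg_right g2 hpos
        linarith
    _ = (G.card - 3) * (1 / (2 * Real.log X)) ^ H.card := by ring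
    _ ≤ (G.filter (fun n => 3 ≤ n)).card * (1 / (2 * Real.log X)) ^ H.card := mul_le_mul_of_nonneg_right hcard hpos
    _ = ∑ n ∈ G.filter (fun n => 3 ≤ n), (1 / (2 * Real.log X)) ^ H.card := by rw [sum_const, nsmul_eq_mul]
    _ ≤ ∑ n ∈ G.filter (fun n => 3 ≤ n), μ.real (Fh S H (Q * n + m)) := sum_le_sum key
    _ ≤ ∑ n ∈ Ioc A' B, μ.real (Fh S H (Q * n + m)) :=
        sum_le_sum_of_subset_of_nonneg ((filter_subset _ _).trans g1) fun _ _ _ => measureReal_nonneg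

end Pool.Agent.T2H62.MD
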