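import Pool.Agent.T2H62.MD.B

set_option autoImplicit false

/-! # Patterns of random primes in short intervals, almost surely -/

namespace Pool.Agent.T2H62.MD

open Finset Filter Topology MeasureTheory ProbabilityTheory
open Pool.Agent.T2H53.GW

variable {Ω : Type*} [MeasurableSpace Ω] {μ : Measure Ω} [IsProbabilityMeasure μ] {S : ℕ → Set Ω}

theorem log_pow_small (k : ℕ) (M a : ℝ) (ha : 0 < a) (hM : 0 < M) :
    ∀ᶠ X : ℕ in atTop, M * Real.log X ^ k ≤ (X : ℝ) ^ a := by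
  have h3 := (isLittleO_log_rpow_rpow_atTop (s := a) (k : ℝ) ha).comp_tendsto tendsto_natCast_atTop_atTop
  have h4 := h3.bound (show (0 : ℝ) < 1 / M by positivity)
  filter_upwards [h4, eventually_ge_atTop 1] with N hN hN1
  simp only [Function.comp, Real.norm_eq_abs, Real.rpow_natCast] at hN
  have h5 : 0 ≤ Real.log N := Real.log_nonneg (by exact_mod_cast hN1)
  rw [abs_of_nonneg (by positivity), abs_of_nonneg (by positivity)] at hN
  have h6 := mul_le_mul_of_nonneg_left hN hM.le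
  have h7 : M * (1 / M * (N : ℝ) ^ a) = (N : ℝ) ^ a := by field_simp
  rwa [h7] at h6

theorem rpow_big (M a : ℝ) (ha : 0 < a) : ∀ᶠ n : ℕ in atTop, M < (n : ℝ) ^ a :=
  ((tendsto_rpow_atTop ha).comp tendsto_natCast_atTop_atTop).eventually (eventually_gt_atTop M)

/-- the pattern occurs in all short intervals -/
theorem pat_short (A : ℝ) (hm : ∀ n, MeasurableSet (S n)) (hi : iIndepSet S μ) (hp : ∀ n, μ.real (S n) = pr A n)
    (H : Finset ℕ) (Q m : ℕ) (hQ1 : 1 ≤ Q) (hQ : ∀ h ∈ H, 1 ≤ h ∧ h ≤ Q) (hadm : AdmH H Q m) (ε : ℝ) (hε : 0 < ε)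
    (hε1 : ε ≤ 1) :
    ∀ᵐ ω ∂μ, ∀ᶠ N : ℕ in atTop, ∃ x ∈ Ioc N (N + ⌊(N : ℝ) ^ ε⌋₊), x ≡ m [MOD Q] ∧ ∀ h ∈ H, ω ∈ S (x + h) := by
  classical
  obtain ⟨Y, hY⟩ : ∃ Y : ℕ → ℕ, Y = fun N : ℕ => ⌊(N : ℝ) ^ ε⌋₊ := ⟨_, rfl⟩
  obtain ⟨a, ha⟩ : ∃ a : ℕ → ℕ, a = fun N : ℕ => N / Q := ⟨_, rfl⟩
  obtain ⟨b, hb⟩ : ∃ b : ℕ → ℕ, b = fun N : ℕ => (N + Y N - m) / Q := ⟨_, rfl⟩
  have hQr : (1 : ℝ) ≤ Q := by exact_mod_cast hQ1
  have hQ0 : (0 : ℝ) < Q := by linarith
  -- the arguments
  have hsize : ∀ᶠ N : ℕ in atTop, m ≤ N + Y N ∧ b N ≤ 2 * N ∧ (N : ℝ) ^ (ε / 2) ≤ (b N : ℝ) - a N := by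
    filter_upwards [rpow_big (2 * Q + m + Q + 2) (ε / 2) (by positivity), eventually_ge_atTop 1,
      eventually_ge_atTop m] with N h1 hN1 hNm
    have hN0 : (0 : ℝ) < N := by exact_mod_cast hN1
    have hNr : (1 : ℝ) ≤ N := by exact_mod_cast hN1
    have hpos : (0 : ℝ) < (N : ℝ) ^ (ε / 2) := Real.rpow_pos_of_pos hN0 _
    have hsq : (N : ℝ) ^ (ε / 2) * (N : ℝ) ^ (ε / 2) = (N : ℝ) ^ ε := by
      rw [← Real.rpow_add hN0]
      congr 1
      ring
    have hYN : Y N ≤ N := by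
      rw [hY]
      apply Nat.floor_le_of_le
      calc (N : ℝ) ^ ε ≤ (N : ℝ) ^ (1 : ℝ) := Real.rpow_le_rpow_of_exponent_le hNr hε1
        _ = N := Real.rpow_one _
    refine ⟨by omega, ?_, ?_⟩
    · rw [hb]
      exact (Nat.div_le_self _ _).trans (by omega)
    · have h3 : (a N : ℝ) ≤ N / Q := by
        rw [ha, le_div_iff₀ hQ0]
        have : N / Q * Q ≤ N := Nat.div_mul_le_self _ _
        exact_mod_cast this
      have h4 : ((N : ℝ) + Y N - m) / Q - 1 ≤ b N := by
        have h5 : N + Y N - m < Q * (b N + 1) := by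
          rw [hb]
          exact Nat.lt_mul_div_succ _ (by omega)
        have h6 : N + Y N < Q * (b N + 1) + m := by omega
        have h7 : (N : ℝ) + Y N < Q * (b N + 1) + m := by exact_mod_cast h6
        rw [sub_le_iff_le_add, div_le_iff₀ hQ0]
        nlinarith
      have h5 : (N : ℝ) ^ ε - 1 ≤ Y N := by
        rw [hY]
        have := Nat.lt_floor_add_one ((N : ℝ) ^ ε)
        simp only
        linarith
      have h6 : (N : ℝ) ^ (ε / 2) ≤ ((Y N : ℝ) - m) / Q - 1 := by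
        rw [le_sub_iff_add_le, le_div_iff₀ hQ0]
        have hm0 : (0 : ℝ) ≤ m := Nat.cast_nonneg _
        nlinarith
      have h7 : ((N : ℝ) + Y N - m) / Q = N / Q + ((Y N : ℝ) - m) / Q := by ring
      rw [h7] at h4
      linarith
  have hwin : ∀ N n : ℕ, m ≤ N + Y N → n ∈ Ioc (a N) (b N) → Q * n + m ∈ Ioc N (N + Y N) := by
    intro N n hN hn
    rw [mem_Ioc] at hn ⊢
    have h1 : N < Q * (a N + 1) := by
      rw [ha]
      exact Nat.lt_mul_div_succ _ (by omega)
    have h2 : Q * (a N + 1) ≤ Q * n := Nat.mul_le_mul_left _ hn.1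
    have h3 : Q * n ≤ Q * b N := Nat.mul_le_mul_left _ hn.2
    have h4 : Q * b N ≤ N + Y N - m := by
      rw [hb]
      exact Nat.mul_div_le _ _
    omega
  have hmod : ∀ n : ℕ, Q * n + m ≡ m [MOD Q] := fun n => by
    unfold Nat.ModEq
    rw [Nat.mul_add_mod]
  by_cases hH : H.Nonempty
  swap
  · rw [not_nonempty_iff_eq_empty] at hH
    filter_upwards with ω
    filter_upwards [hsize, rpow_big 0 (ε / 2) (by positivity)] with N h1 h2
    obtain ⟨h3, h4, h5⟩ := h1
    have h6 : a N < b N := by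
      have : (0 : ℝ) < (b N : ℝ) - a N := by linarith
      have : (a N : ℝ) < b N := by linarith
      exact_mod_cast this
    refine ⟨Q * b N + m, ?_, hmod _, fun h hh => by rw [hH] at hh; simp at hh⟩
    have h7 := hwin N (b N) h3 (mem_Ioc.2 ⟨h6, le_rfl⟩)
    rw [hY] at h7
    exact h7
  obtain ⟨κ, hκ, h1⟩ := mean_low A hm hi hp H hH Q m hQ1 hadm (ε / 4) (by positivity)
  have hT2 : Tendsto (fun N : ℕ => 2 * N) atTop atTop :=
    tendsto_atTop_mono (fun n : ℕ => by show id n ≤ 2 * n; simp only [id]; omega) tendsto_id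
  have hprob : ∀ᶠ N : ℕ in atTop, μ.real ((HF (fun n => Fh S H (Q * n + m)) (Ioc (a N) (b N)))ᶜ) ≤ 1 / (N : ℝ) ^ 2 := by
    filter_upwards [hsize, hT2.eventually h1, hT2.eventually (log_pow_small (2 * H.card + 1) (4 * 2 / κ) (ε / 4)
      (by positivity) (by positivity)), eventually_ge_atTop 8,
      rpow_big 2 (ε / 4) (by positivity)] with N h2 h3 h4 hN8 h6
    obtain ⟨s1, s2, s3⟩ := h2
    have hN0 : (0 : ℝ) < N := by exact_mod_cast (by omega : 0 < N)
    have hN8' : (8 : ℝ) ≤ N := by exact_mod_cast hN8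
    have hlN : 2 ≤ Real.log N := by
      rw [Real.le_log_iff_exp_le hN0]
      have h7 := Real.exp_one_lt_d9
      have h8 : Real.exp 2 = Real.exp 1 * Real.exp 1 := by rw [← Real.exp_add]; norm_num
      rw [h8]
      have h9 : (0 : ℝ) < Real.exp 1 := Real.exp_pos _
      nlinarith
    have hNe : (2 : ℝ) ^ (ε / 4) ≤ 2 := by
      calc (2 : ℝ) ^ (ε / 4) ≤ (2 : ℝ) ^ (1 : ℝ) := Real.rpow_le_rpow_of_exponent_le (by norm_num) (by linarith)
        _ = 2 := Real.rpow_one _
    have hsplit : (N : ℝ) ^ (ε / 2) = (N : ℝ) ^ (ε / 4) * (N : ℝ) ^ (ε / 4) := by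
      rw [← Real.rpow_add hN0]
      congr 1
      ring
    have hp4 : 0 < (N : ℝ) ^ (ε / 4) := Real.rpow_pos_of_pos hN0 _
    have h2N : (((2 * N : ℕ) : ℝ)) ^ (ε / 4) ≤ 2 * (N : ℝ) ^ (ε / 4) := by
      push_cast
      rw [Real.mul_rpow (by norm_num) hN0.le]
      exact mul_le_mul_of_nonneg_right hNe hp4.le
    have h7 := h3 (a N) (b N) s2 (by
      refine le_trans ?_ s3
      rw [hsplit]
      refine h2N.trans ?_
      exact mul_le_mul_of_nonneg_right h6.le hp4.le)
    refine (none_le _ (fun n => Fh_meas hm H _) (indep_Fh hm hi H Q m hQ) _).trans ?_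
    -- the sum is at least `2 log N`
    have hl2 : Real.log N ≤ Real.log ((2 * N : ℕ) : ℝ) := Real.log_le_log hN0 (by push_cast; linarith)
    have hl2' : 0 < Real.log ((2 * N : ℕ) : ℝ) := by linarith
    have h8 : 4 * Real.log N ≤ κ * ((b N : ℝ) - a N) / Real.log ((2 * N : ℕ) : ℝ) ^ (2 * H.card) := by
      rw [le_div_iff₀ (by positivity)]
      have h9 : 4 * 2 / κ * Real.log ((2 * N : ℕ) : ℝ) ^ (2 * H.card + 1) ≤ 2 * (N : ℝ) ^ (ε / 4) := h4.trans h2N
      have h10 : 4 * Real.log N * Real.log ((2 * N : ℕ) : ℝ) ^ (2 * H.card) ≤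
          4 * Real.log ((2 * N : ℕ) : ℝ) ^ (2 * H.card + 1) := by
        rw [pow_succ]
        have : 0 ≤ Real.log ((2 * N : ℕ) : ℝ) ^ (2 * H.card) := by positivity
        nlinarith
      have h11 : 4 * Real.log ((2 * N : ℕ) : ℝ) ^ (2 * H.card + 1) ≤ κ * (N : ℝ) ^ (ε / 4) := by
        have h12 := mul_le_mul_of_nonneg_left h9 hκ.le
        have h13 : κ * (4 * 2 / κ * Real.log ((2 * N : ℕ) : ℝ) ^ (2 * H.card + 1)) =
            2 * (4 * Real.log ((2 * N : ℕ) : ℝ) ^ (2 * H.card + 1)) := by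
          field_simp
        rw [h13] at h12
        linarith
      have h14 : κ * (N : ℝ) ^ (ε / 4) ≤ κ * ((b N : ℝ) - a N) := by
        apply mul_le_mul_of_nonneg_left _ hκ.le
        refine le_trans ?_ s3
        rw [hsplit]
        nlinarith
      linarith
    have h9 : 2 * Real.log N ≤ ∑ n ∈ Ioc (a N) (b N), μ.real (Fh S H (Q * n + m)) := by linarith
    calc Real.exp (-(∑ n ∈ Ioc (a N) (b N), μ.real (Fh S H (Q * n + m)))) ≤ Real.exp (-(2 * Real.log N)) :=
          Real.exp_le_exp.2 (by linarith)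
      _ = 1 / (N : ℝ) ^ 2 := by
          rw [Real.exp_neg, show 2 * Real.log N = Real.log ((N : ℝ) ^ 2) by rw [Real.log_pow]; norm_num,
            Real.exp_log (by positivity), one_div]
  obtain ⟨n₀, hn₀⟩ := eventually_atTop.1 hprob
  have hsum : Summable (fun N : ℕ => 1 / (N : ℝ) ^ 2) := Real.summable_one_div_nat_pow.2 (by norm_num)
  have h2 := bc (μ := μ) (fun N => (HF (fun n => Fh S H (Q * n + m)) (Ioc (a N) (b N)))ᶜ) n₀ _ hsum (fun n hn => hn₀ n hn)
  filter_upwards [h2] with ω hω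
  filter_upwards [hω, hsize] with N h3 h4
  rw [Set.notMem_compl_iff] at h3
  unfold HF at h3
  simp only [Set.mem_iUnion] at h3
  obtain ⟨n, hn, hn2⟩ := h3
  have h5 := hwin N n h4.1 hn
  rw [hY] at h5
  refine ⟨Q * n + m, h5, hmod n, fun h hh => ?_⟩
  unfold Fh at hn2
  simp only [Set.mem_iInter] at hn2
  exact hn2 h hh

/-- the pattern of the integers prime to the primorial -/
theorem sieve_short (A : ℝ) (hA : 0 < A) (hm : ∀ n, MeasurableSet (S n)) (hi : iIndepSet S μ)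
    (hp : ∀ n, μ (S n) = ENNReal.ofReal (pr A n)) :
    ∀ᵐ ω ∂μ, (∀ n, pr A n = 0 → ω ∉ S n) ∧ ∀ k m : ℕ, ∀ ε : ℝ, 0 < ε → ∀ᶠ N : ℕ in atTop,
      ∃ x ∈ Ioc N (N + ⌊(N : ℝ) ^ ε⌋₊), x ≡ m [MOD primorial k] ∧
        ∀ h, 1 ≤ h → h ≤ k → (ω ∈ S (x + h) ↔ Nat.Coprime (x + h) (primorial k)) := by
  classical
  have hp' : ∀ n, μ.real (S n) = pr A n := by
    intro n
    rw [measureReal_def, hp n, ENNReal.toReal_ofReal (pr_nonneg A n)]
  have hz : ∀ᵐ ω ∂μ, ∀ n, pr A n = 0 → ω ∉ S n := by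
    have h1 := ae_none (μ := μ) (S := S) (fun n h => by
      rw [hp' n] at h
      rw [hp n, h, ENNReal.ofReal_zero])
    filter_upwards [h1] with ω hω n hn
    exact hω n (by rw [hp' n]; exact hn)
  have hmain : ∀ᵐ ω ∂μ, ∀ k m j : ℕ, ∀ᶠ N : ℕ in atTop,
      ∃ x ∈ Ioc N (N + ⌊(N : ℝ) ^ (1 / ((j : ℝ) + 1))⌋₊), x ≡ m [MOD primorial k ^ (k + 1)] ∧
        ∀ h ∈ (Icc 1 k).filter (fun h => Nat.Coprime (m + h) (primorial k)), ω ∈ S (x + h) := by
    rw [ae_all_iff]; intro k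
    rw [ae_all_iff]; intro m
    rw [ae_all_iff]; intro j
    have hPk : 1 ≤ primorial k := primorial_pos k
    refine pat_short A hm hi hp' _ (primorial k ^ (k + 1)) m (Nat.one_le_pow _ _ hPk) ?_ ?_ _ (by positivity) ?_
    · intro h hh
      rw [mem_filter, mem_Icc] at hh
      refine ⟨hh.1.1, ?_⟩
      rcases Nat.lt_or_ge k 2 with h2 | h2
      · have : 1 ≤ primorial k ^ (k + 1) := Nat.one_le_pow _ _ hPk
        omega
      · have h3 : 2 ∣ primorial k := by
          unfold primorial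
          exact dvd_prod_of_mem _ (mem_filter.2 ⟨mem_range.2 (by omega), Nat.prime_two⟩)
        have h4 : 2 ≤ primorial k := Nat.le_of_dvd hPk h3
        calc h ≤ k := hh.1.2
          _ ≤ k + 1 := Nat.le_succ _
          _ ≤ 2 ^ (k + 1) := Nat.lt_two_pow_self.le
          _ ≤ primorial k ^ (k + 1) := Nat.pow_le_pow_left h4 _
    · intro p hp1
      by_cases hpk : p ≤ k
      · refine ⟨0, fun h hh hd => ?_⟩
        rw [mem_filter] at hh
        rw [mul_zero, zero_add, Int.natCast_dvd_natCast] at hd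
        have h2 : p ∣ primorial k := by
          unfold primorial
          exact dvd_prod_of_mem _ (mem_filter.2 ⟨mem_range.2 (by omega), hp1⟩)
        have h3 := Nat.dvd_gcd hd h2
        rw [hh.2] at h3
        exact hp1.one_lt.ne' (Nat.dvd_one.1 h3)
      · push Not at hpk
        have h4 : ¬ p ∣ primorial k := by
          intro h5
          unfold primorial at h5
          obtain ⟨q, hq1, hq2⟩ := (Nat.prime_iff.1 hp1).exists_mem_finset_dvd h5
          rw [mem_filter, mem_range] at hq1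
          have h6 := (Nat.prime_dvd_prime_iff_eq hp1 hq1.2).1 hq2
          omega
        have h5 : Nat.Coprime (primorial k ^ (k + 1)) p := by
          apply Nat.Coprime.pow_left
          exact (Nat.Coprime.symm ((Nat.Prime.coprime_iff_not_dvd hp1).2 h4))
        obtain ⟨u, hu⟩ : ∃ u : ℕ, (primorial k ^ (k + 1)) * u + m ≡ 0 [MOD p] := by
          obtain ⟨v, hv⟩ := Nat.exists_mul_mod_eq_one_of_coprime h5 hp1.one_lt
          refine ⟨v * (p - m % p), ?_⟩
          have h6 : primorial k ^ (k + 1) * v ≡ 1 [MOD p] := by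
            unfold Nat.ModEq
            rw [hv.2, Nat.mod_eq_of_lt hp1.one_lt]
          have h7 := (h6.mul_right (p - m % p)).add_right m
          rw [mul_assoc, one_mul] at h7
          refine h7.trans ?_
          have h8 : m % p < p := Nat.mod_lt _ hp1.pos
          have h9 : p - m % p + m ≡ p - m % p + m % p [MOD p] := Nat.ModEq.add_left _ (Nat.mod_modEq m p).symm
          refine h9.trans ?_
          rw [Nat.sub_add_cancel h8.le]
          exact Nat.modEq_zero_iff_dvd.2 dvd_rfl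
        refine ⟨u, fun h hh hd => ?_⟩
        rw [mem_filter, mem_Icc] at hh
        have h6 : p ∣ primorial k ^ (k + 1) * u + (m + h) := by
          rw [← Int.natCast_dvd_natCast]
          push_cast
          push_cast at hd
          exact hd
        rw [← add_assoc] at h6
        have h7 := (Nat.dvd_add_right (Nat.modEq_zero_iff_dvd.1 hu)).1 h6
        have h8 := Nat.le_of_dvd (by omega) h7
        omega
    · rw [div_le_one (by positivity)]
      have : (0 : ℝ) ≤ j := Nat.cast_nonneg _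
      linarith
  filter_upwards [hz, hmain] with ω h1 h2
  refine ⟨h1, fun k m ε hε => ?_⟩
  obtain ⟨j, hj⟩ := exists_nat_gt (1 / ε)
  have hT : Tendsto (fun n : ℕ => (n : ℝ)) atTop atTop := tendsto_natCast_atTop_atTop
  have hlog : ∀ᶠ N : ℕ in atTop, (k : ℝ) ≤ A * Real.log N :=
    (((Real.tendsto_log_atTop.comp hT).const_mul_atTop hA)).eventually_ge_atTop _
  filter_upwards [h2 k m j, hlog, eventually_ge_atTop 1, eventually_ge_atTop k] with N h3 h4 hN1 hNk
  obtain ⟨x, hx, hxm, hxS⟩ := h3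
  have hN0 : (0 : ℝ) < N := by exact_mod_cast hN1
  have hN1r : (1 : ℝ) ≤ N := by exact_mod_cast hN1
  have hxm' : x ≡ m [MOD primorial k] := hxm.of_dvd (dvd_pow_self _ (by omega))
  rw [mem_Ioc] at hx
  have hexp : 1 / ((j : ℝ) + 1) ≤ ε := by
    rw [div_le_iff₀ (by positivity)]
    rw [div_lt_iff₀ hε] at hj
    nlinarith
  refine ⟨x, mem_Ioc.2 ⟨hx.1, hx.2.trans ?_⟩, hxm', fun h hh1 hh2 => ?_⟩
  · apply Nat.add_le_add_left
    exact Nat.floor_le_floor (Real.rpow_le_rpow_of_exponent_le hN1r hexp)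
  have hcop : Nat.Coprime (x + h) (primorial k) ↔ Nat.Coprime (m + h) (primorial k) := by
    have h5 : x + h ≡ m + h [MOD primorial k] := hxm'.add_right h
    unfold Nat.Coprime
    rw [h5.gcd_eq]
  constructor
  · intro hS
    by_contra hcon
    obtain ⟨p, hp1, hp2, hp3⟩ := Nat.Prime.not_coprime_iff_dvd.1 hcon
    have hpk : p ≤ k := by
      unfold primorial at hp3
      obtain ⟨q, hq1, hq2⟩ := (Nat.prime_iff.1 hp1).exists_mem_finset_dvd hp3
      rw [mem_filter, mem_range] at hq1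
      have h6 := (Nat.prime_dvd_prime_iff_eq hp1 hq1.2).1 hq2
      omega
    refine h1 (x + h) ?_ hS
    unfold pr
    rw [if_neg]
    push Not
    refine ⟨p, hp1, ?_, hp2⟩
    have h7 : (p : ℝ) ≤ k := by exact_mod_cast hpk
    have h8 : Real.log N ≤ Real.log ((x + h : ℕ) : ℝ) := Real.log_le_log hN0 (by
      have : N ≤ x + h := by omega
      exact_mod_cast this)
    have h9 := mul_le_mul_of_nonneg_left h8 hA.le
    linarith
  · intro hc
    exact hxS h (mem_filter.2 ⟨mem_Icc.2 ⟨hh1, hh2⟩, hcop.1 hc⟩)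

end Pool.Agent.T2H62.MD
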