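import Pool.Agent.T2H62.MD.C

set_option autoImplicit false

/-! # The expected number of random primes -/

namespace Pool.Agent.T2H62.MD

open Finset Filter Topology MeasureTheory ProbabilityTheory
open Pool.Agent.T2H53.GW
open Pool.Agent.H305R2 (VV VV_tendsto)

/-! the sieve of Eratosthenes and Legendre -/

open Classical in
/-- the number of the integers in `(a, b]` without a divisor in `P` -/
noncomputable def NP (P : Finset ℕ) (a b : ℕ) : ℕ := ((Ioc a b).filter (fun n => ∀ p ∈ P, ¬ p ∣ n)).card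

theorem NP_insert (P : Finset ℕ) (hP : ∀ p ∈ P, p.Prime) (p : ℕ) (hp : p.Prime) (hpP : p ∉ P) (a b : ℕ) :
    NP (insert p P) a b + NP P (a / p) (b / p) = NP P a b := by
  classical
  unfold NP
  have h1 : ((Ioc (a / p) (b / p)).filter (fun n => ∀ q ∈ P, ¬ q ∣ n)).card =
      (((Ioc a b).filter (fun n => ∀ q ∈ P, ¬ q ∣ n)).filter (fun n => p ∣ n)).card := by
    apply card_bij' (i := fun n _ => p * n) (j := fun n _ => n / p)
    · intro n hn
      rw [mem_filter, mem_Ioc] at hn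
      rw [mem_filter, mem_filter, mem_Ioc]
      obtain ⟨⟨h1, h2⟩, h3⟩ := hn
      refine ⟨⟨⟨?_, ?_⟩, fun q hq hd => ?_⟩, dvd_mul_right _ _⟩
      · have := (Nat.div_lt_iff_lt_mul hp.pos).1 h1
        rwa [mul_comm] at this
      · have := (Nat.le_div_iff_mul_le hp.pos).1 h2
        rwa [mul_comm] at this
      · rcases (hP q hq).dvd_mul.1 hd with h | h
        · have := (Nat.prime_dvd_prime_iff_eq (hP q hq) hp).1 h
          exact hpP (this ▸ hq)
        · exact h3 q hq h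
    · intro n hn
      rw [mem_filter, mem_filter, mem_Ioc] at hn
      obtain ⟨⟨⟨h1, h2⟩, h3⟩, ⟨c, rfl⟩⟩ := hn
      rw [mem_filter, mem_Ioc, Nat.mul_div_cancel_left _ hp.pos]
      refine ⟨⟨?_, ?_⟩, fun q hq hd => h3 q hq (hd.mul_left _)⟩
      · rw [Nat.div_lt_iff_lt_mul hp.pos, mul_comm]
        exact h1
      · rw [Nat.le_div_iff_mul_le hp.pos, mul_comm]
        exact h2
    · intro n _
      exact Nat.mul_div_cancel_left _ hp.pos
    · intro n hn
      rw [mem_filter] at hn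
      exact Nat.mul_div_cancel' hn.2
  rw [h1, add_comm]
  have h2 : ((Ioc a b).filter (fun n => ∀ q ∈ insert p P, ¬ q ∣ n)) =
      (((Ioc a b).filter (fun n => ∀ q ∈ P, ¬ q ∣ n)).filter (fun n => ¬ p ∣ n)) := by
    ext n
    rw [mem_filter, mem_filter, mem_filter]
    constructor
    · rintro ⟨h3, h4⟩
      exact ⟨⟨h3, fun q hq => h4 q (mem_insert_of_mem hq)⟩, h4 p (mem_insert_self _ _)⟩
    · rintro ⟨⟨h3, h4⟩, h5⟩
      refine ⟨h3, fun q hq => ?_⟩
      rcases mem_insert.1 hq with rfl | h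
      · exact h5
      · exact h4 q h
  rw [h2]
  exact card_filter_add_card_filter_not _

theorem prod_bd (P : Finset ℕ) (hP : ∀ p ∈ P, p.Prime) :
    0 ≤ ∏ p ∈ P, (1 - (p : ℝ)⁻¹) ∧ ∏ p ∈ P, (1 - (p : ℝ)⁻¹) ≤ 1 := by
  have h : ∀ p ∈ P, 0 ≤ 1 - (p : ℝ)⁻¹ ∧ 1 - (p : ℝ)⁻¹ ≤ 1 := by
    intro p hp
    have h1 : (1 : ℝ) ≤ p := by exact_mod_cast (hP p hp).one_lt.le
    have h2 : (p : ℝ)⁻¹ ≤ 1 := inv_le_one_of_one_le₀ h1
    have h3 : 0 ≤ (p : ℝ)⁻¹ := by positivity
    exact ⟨by linarith, by linarith⟩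
  exact ⟨prod_nonneg fun p hp => (h p hp).1, prod_le_one (fun p hp => (h p hp).1) fun p hp => (h p hp).2⟩

theorem div_near (a p : ℕ) (hp : 0 < p) : (a : ℝ) / p - 1 ≤ ((a / p : ℕ) : ℝ) ∧ ((a / p : ℕ) : ℝ) ≤ (a : ℝ) / p := by
  have hp0 : (0 : ℝ) < p := by exact_mod_cast hp
  constructor
  · have h1 : a < p * (a / p + 1) := Nat.lt_mul_div_succ _ hp
    have h2 : (a : ℝ) < p * (((a / p : ℕ) : ℝ) + 1) := by exact_mod_cast h1
    rw [sub_le_iff_le_add, div_le_iff₀ hp0]
    linarith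
  · rw [le_div_iff₀ hp0]
    have h1 : a / p * p ≤ a := Nat.div_mul_le_self _ _
    exact_mod_cast h1

theorem leg (P : Finset ℕ) : (∀ p ∈ P, p.Prime) → ∀ a b : ℕ,
    |(NP P a b : ℝ) - (((max a b : ℕ) : ℝ) - a) * ∏ p ∈ P, (1 - (p : ℝ)⁻¹)| ≤ 2 ^ P.card - 1 := by
  classical
  induction P using Finset.induction_on with
  | empty =>
    intro _ a b
    unfold NP
    simp only [notMem_empty, false_imp_iff, implies_true, filter_true, Nat.card_Ioc, prod_empty, mul_one, card_empty, pow_zero,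
      sub_self]
    have h : ((b - a : ℕ) : ℝ) = ((max a b : ℕ) : ℝ) - a := by
      rcases le_total a b with h | h
      · rw [max_eq_right h, Nat.cast_sub h]
      · rw [max_eq_left h, Nat.sub_eq_zero_of_le h]
        simp
    rw [h]
    simp
  | insert p P hpP ih =>
    intro hP a b
    have hp : p.Prime := hP p (mem_insert_self _ _)
    have hP' : ∀ q ∈ P, q.Prime := fun q hq => hP q (mem_insert_of_mem hq)
    have h1 := NP_insert P hP' p hp hpP a b
    have h2 : (NP (insert p P) a b : ℝ) = NP P a b - NP P (a / p) (b / p) := by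
      have : (NP (insert p P) a b : ℝ) + NP P (a / p) (b / p) = NP P a b := by exact_mod_cast h1
      linarith
    have i1 := ih hP' a b
    have i2 := ih hP' (a / p) (b / p)
    obtain ⟨π0, π1⟩ := prod_bd P hP'
    obtain ⟨Pq, hPq⟩ : ∃ Pq : ℝ, Pq = ∏ p ∈ P, (1 - (p : ℝ)⁻¹) := ⟨_, rfl⟩
    rw [← hPq] at i1 i2 π0 π1
    rw [prod_insert hpP, ← hPq, h2, card_insert_of_notMem hpP, pow_succ]
    have h3 : |((((max a b : ℕ) : ℝ) - a) / p) - (((max (a / p) (b / p) : ℕ) : ℝ) - ((a / p : ℕ) : ℝ))| ≤ 1 := by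
      have hmx : max (a / p) (b / p) = (max a b) / p := by
        rcases le_total a b with h | h
        · rw [max_eq_right h, max_eq_right (Nat.div_le_div_right h)]
        · rw [max_eq_left h, max_eq_left (Nat.div_le_div_right h)]
      rw [hmx]
      have d1 := div_near (max a b) p hp.pos
      have d2 := div_near a p hp.pos
      rw [sub_div, abs_le]
      constructor <;> linarith [d1.1, d1.2, d2.1, d2.2]
    have h4 : (NP P a b : ℝ) - NP P (a / p) (b / p) - (((max a b : ℕ) : ℝ) - a) * ((1 - (p : ℝ)⁻¹) * Pq) =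
        ((NP P a b : ℝ) - (((max a b : ℕ) : ℝ) - a) * Pq) -
        ((NP P (a / p) (b / p) : ℝ) - (((max (a / p) (b / p) : ℕ) : ℝ) - ((a / p : ℕ) : ℝ)) * Pq) +
        (((((max a b : ℕ) : ℝ) - a) / p) - (((max (a / p) (b / p) : ℕ) : ℝ) - ((a / p : ℕ) : ℝ))) * Pq := by
      rw [div_eq_mul_inv]
      ring
    rw [h4]
    have h5 : |(((((max a b : ℕ) : ℝ) - a) / p) - (((max (a / p) (b / p) : ℕ) : ℝ) - ((a / p : ℕ) : ℝ))) * Pq| ≤ 1 := by
      rw [abs_mul, abs_of_nonneg π0]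
      calc _ ≤ 1 * 1 := mul_le_mul h3 π1 π0 zero_le_one
        _ = 1 := one_mul 1
    rw [abs_le] at i1 i2 h5 ⊢
    constructor <;> linarith [i1.1, i1.2, i2.1, i2.2, h5.1, h5.2]

/-! Abel's inequality -/

theorem abel (f w : ℕ → ℝ) (E : ℝ) (a b : ℕ) (hab : a < b)
    (hf : ∀ m, a < m → m ≤ b → ∑ n ∈ Ioc a m, f n ≤ E) (hw : ∀ n, a < n → w (n + 1) ≤ w n) (hw0 : ∀ n, a < n → 0 ≤ w n) :
    ∑ n ∈ Ioc a b, f n * w n ≤ E * w (a + 1) := by
  have key : ∀ m, a + 1 ≤ m → m ≤ b → ∑ n ∈ Ioc a m, f n * w n ≤ E * w (a + 1) + (∑ n ∈ Ioc a m, f n - E) * w m := by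
    intro m hm
    induction m, hm using Nat.le_induction with
    | base =>
      intro _
      rw [Nat.Ioc_succ_singleton, sum_singleton, sum_singleton]
      linarith
    | succ m hm ih =>
      intro hmb
      have h1 := ih (by omega)
      have h2 := hf m (by omega) (by omega)
      have h3 := hw m (by omega)
      rw [sum_Ioc_succ_top (by omega), sum_Ioc_succ_top (by omega)]
      nlinarith
  have h1 := key b hab le_rfl
  have h2 := hf b hab le_rfl
  have h3 := hw0 b hab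
  nlinarith

end Pool.Agent.T2H62.MD
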