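import Pool.Agent.T2H62.MD.F

set_option autoImplicit false

/-! # The number of random primes -/

namespace Pool.Agent.T2H62.MD

open Finset Filter Topology MeasureTheory ProbabilityTheory
open Pool.Agent.T2H53.GW
open Pool.Agent.H305R2 (VV VV_tendsto)

theorem VV_le (j : ℕ) : VV j ≤ 2 ^ (PJ j).card := by
  unfold VV
  show ∏ p ∈ PJ j, (1 - (p : ℝ)⁻¹)⁻¹ ≤ _
  rw [← prod_const]
  have h : ∀ p ∈ PJ j, 0 ≤ (1 - (p : ℝ)⁻¹)⁻¹ ∧ (1 - (p : ℝ)⁻¹)⁻¹ ≤ 2 := by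
    intro p hp
    have h1 : (2 : ℝ) ≤ p := by exact_mod_cast (PJ_prime hp).two_le
    have h2 : (p : ℝ)⁻¹ ≤ 1 / 2 := by
      rw [inv_eq_one_div]
      exact one_div_le_one_div_of_le (by norm_num) h1
    refine ⟨inv_nonneg.2 (by linarith), ?_⟩
    rw [inv_le_comm₀ (by linarith) (by norm_num)]
    linarith
  exact prod_le_prod (fun p hp => (h p hp).1) fun p hp => (h p hp).2

theorem pi_small (δ : ℝ) (hδ : 0 < δ) : ∀ᶠ j : ℕ in atTop, ((PJ j).card : ℝ) ≤ δ * j := by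
  have hT : Tendsto (fun n : ℕ => (n : ℝ)) atTop atTop := tendsto_natCast_atTop_atTop
  filter_upwards [hT.eventually (pi_le 1 one_pos), (Real.tendsto_log_atTop.comp hT).eventually_ge_atTop (2 / δ),
    eventually_ge_atTop 1] with j h1 h2 h3
  simp only [Function.comp] at h2
  have hj0 : (0 : ℝ) < j := by exact_mod_cast h3
  have hl : 0 < Real.log j := lt_of_lt_of_le (by positivity) h2
  rw [Nat.floor_natCast] at h1
  unfold PJ
  rw [card_primes]
  refine h1.trans ?_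
  rw [← mul_div_assoc, div_le_iff₀ hl]
  rw [div_le_iff₀ hδ] at h2
  nlinarith

theorem err_small (A : ℝ) (hA : 0 < A) : ∀ᶠ x : ℕ in atTop,
    ((⌊A * Real.log x⌋₊ : ℝ) + 1) * (VV ⌊A * Real.log x⌋₊ * 2 ^ (PJ ⌊A * Real.log x⌋₊).card) ≤ (x : ℝ) ^ (1 / 4 : ℝ) := by
  have hT : Tendsto (fun n : ℕ => (n : ℝ)) atTop atTop := tendsto_natCast_atTop_atTop
  have hJ : Tendsto (fun x : ℕ => ⌊A * Real.log x⌋₊) atTop atTop :=
    tendsto_nat_floor_atTop.comp ((Real.tendsto_log_atTop.comp hT).const_mul_atTop hA)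
  obtain ⟨δ, hδd⟩ : ∃ δ : ℝ, δ = 1 / (16 * A) := ⟨_, rfl⟩
  have hδ : 0 < δ := by rw [hδd]; positivity
  filter_upwards [hJ.eventually (pi_small δ hδ), log_pow_small 1 (A + 1) (1 / 8) (by norm_num) (by positivity),
    eventually_ge_atTop 3] with x h1 h2 h3
  obtain ⟨j, hj⟩ : ∃ j, j = ⌊A * Real.log x⌋₊ := ⟨_, rfl⟩
  rw [← hj] at h1 ⊢
  have hx0 : (0 : ℝ) < x := by exact_mod_cast (by omega : 0 < x)
  have hl : 1 ≤ Real.log x := by
    have h3' : (3 : ℝ) ≤ x := by exact_mod_cast h3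
    rw [Real.le_log_iff_exp_le hx0]
    have := Real.exp_one_lt_d9
    linarith
  have hjA : (j : ℝ) ≤ A * Real.log x := by
    rw [hj]
    exact Nat.floor_le (by positivity)
  have a1 : (j : ℝ) + 1 ≤ (x : ℝ) ^ (1 / 8 : ℝ) := by
    rw [pow_one] at h2
    nlinarith
  have a2 : VV j * 2 ^ (PJ j).card ≤ (x : ℝ) ^ (1 / 8 : ℝ) := by
    have h4 : VV j * 2 ^ (PJ j).card ≤ (4 : ℝ) ^ (PJ j).card := by
      have h5 := mul_le_mul_of_nonneg_right (VV_le j) (show (0 : ℝ) ≤ 2 ^ (PJ j).card by positivity)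
      rw [← mul_pow] at h5
      norm_num at h5
      exact h5
    have h5 : (4 : ℝ) ^ (PJ j).card ≤ Real.exp (2 * (PJ j).card) := by
      have h6 : (4 : ℝ) ≤ Real.exp 2 := by
        have h8 : Real.exp 2 = Real.exp 1 * Real.exp 1 := by rw [← Real.exp_add]; norm_num
        have h7 := Real.exp_one_gt_d9
        rw [h8]
        nlinarith
      calc (4 : ℝ) ^ (PJ j).card ≤ (Real.exp 2) ^ (PJ j).card := pow_le_pow_left₀ (by norm_num) h6 _
        _ = Real.exp (2 * (PJ j).card) := by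
            rw [← Real.exp_nat_mul, mul_comm]
    have h6 : 2 * ((PJ j).card : ℝ) ≤ 1 / 8 * Real.log x := by
      have h7 : 2 * ((PJ j).card : ℝ) ≤ 2 * (δ * (A * Real.log x)) := by
        have := mul_le_mul_of_nonneg_left hjA hδ.le
        linarith
      have h8 : 2 * (δ * (A * Real.log x)) = 1 / 8 * Real.log x := by
        rw [hδd]
        field_simp
        ring
      linarith
    calc VV j * 2 ^ (PJ j).card ≤ Real.exp (2 * (PJ j).card) := h4.trans h5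
      _ ≤ Real.exp (1 / 8 * Real.log x) := Real.exp_le_exp.2 h6
      _ = (x : ℝ) ^ (1 / 8 : ℝ) := by
          rw [Real.rpow_def_of_pos hx0, mul_comm]
  calc ((j : ℝ) + 1) * (VV j * 2 ^ (PJ j).card) ≤ (x : ℝ) ^ (1 / 8 : ℝ) * (x : ℝ) ^ (1 / 8 : ℝ) := by
        apply mul_le_mul a1 a2 _ (by positivity)
        have := one_le_VV j
        positivity
    _ = (x : ℝ) ^ (1 / 4 : ℝ) := by
        rw [← Real.rpow_add hx0]
        norm_num

/-! the sum of `1 / log n` -/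

theorem log_fact (n : ℕ) (hn : 1 ≤ n) : (n : ℝ) * Real.log n - n ≤ ∑ k ∈ Ioc 0 n, Real.log k := by
  induction n, hn using Nat.le_induction with
  | base => simp
  | succ n hn ih =>
    rw [sum_Ioc_succ_top (by omega)]
    have hn0 : (0 : ℝ) < n := by exact_mod_cast hn
    have h1 : (n : ℝ) * (Real.log ((n + 1 : ℕ) : ℝ) - Real.log n) ≤ 1 := by
      rw [← Real.log_div (by positivity) (by positivity)]
      have h2 := Real.log_le_sub_one_of_pos (show (0 : ℝ) < ((n + 1 : ℕ) : ℝ) / n by positivity)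
      have h3 : ((n + 1 : ℕ) : ℝ) / n - 1 = 1 / n := by
        push_cast
        field_simp
        ring
      rw [h3] at h2
      calc (n : ℝ) * Real.log (((n + 1 : ℕ) : ℝ) / n) ≤ n * (1 / n) := mul_le_mul_of_nonneg_left h2 hn0.le
        _ = 1 := by field_simp
    push_cast at h1 ⊢
    nlinarith

theorem sum_inv_sqrt (n : ℕ) : ∑ k ∈ Ioc 0 n, 1 / Real.sqrt k ≤ 2 * Real.sqrt n := by
  induction n with
  | zero => simp
  | succ n ih =>
    rw [sum_Ioc_succ_top (by omega)]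
    have h0 : (0 : ℝ) ≤ n := Nat.cast_nonneg n
    have h1 : 0 < Real.sqrt ((n + 1 : ℕ) : ℝ) := Real.sqrt_pos.2 (by positivity)
    have h2 : Real.sqrt ((n + 1 : ℕ) : ℝ) ^ 2 = n + 1 := by
      rw [Real.sq_sqrt (by positivity)]
      push_cast
      ring
    have h3 : Real.sqrt (n : ℝ) ^ 2 = n := Real.sq_sqrt h0
    have h4 : 0 ≤ Real.sqrt (n : ℝ) := Real.sqrt_nonneg _
    have h5 : 1 / Real.sqrt ((n + 1 : ℕ) : ℝ) ≤ 2 * (Real.sqrt ((n + 1 : ℕ) : ℝ) - Real.sqrt n) := by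
      rw [div_le_iff₀ h1]
      have h6 : 0 ≤ (Real.sqrt ((n + 1 : ℕ) : ℝ) - Real.sqrt n) ^ 2 := sq_nonneg _
      nlinarith
    linarith

theorem sum_log_sq (x : ℕ) (hx : 1 ≤ x) : ∑ n ∈ Ioc 0 x, (Real.log x - Real.log n) ^ 2 ≤ 32 * x := by
  have hx0 : (0 : ℝ) < x := by exact_mod_cast hx
  have h1 : ∀ n ∈ Ioc 0 x, (Real.log x - Real.log n) ^ 2 ≤ 16 * (Real.sqrt x * (1 / Real.sqrt n)) := by
    intro n hn
    rw [mem_Ioc] at hn
    have hn0 : (0 : ℝ) < n := by exact_mod_cast hn.1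
    have hnx : (n : ℝ) ≤ x := by exact_mod_cast hn.2
    rw [← Real.log_div hx0.ne' hn0.ne']
    have hy : 1 ≤ (x : ℝ) / n := by rw [one_le_div hn0]; exact hnx
    have h2 := Real.log_le_rpow_div (show (0 : ℝ) ≤ (x : ℝ) / n by positivity) (show (0 : ℝ) < 1 / 4 by norm_num)
    have h3 : 0 ≤ Real.log ((x : ℝ) / n) := Real.log_nonneg hy
    have h4 : (Real.log ((x : ℝ) / n)) ^ 2 ≤ (((x : ℝ) / n) ^ (1 / 4 : ℝ) / (1 / 4)) ^ 2 := pow_le_pow_left₀ h3 h2 2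
    refine h4.trans (le_of_eq ?_)
    have h5 : (((x : ℝ) / n) ^ (1 / 4 : ℝ)) ^ 2 = Real.sqrt ((x : ℝ) / n) := by
      rw [← Real.rpow_natCast, ← Real.rpow_mul (by positivity), Real.sqrt_eq_rpow]
      norm_num
    rw [div_pow, h5, Real.sqrt_div hx0.le]
    ring
  refine (sum_le_sum h1).trans ?_
  rw [← mul_sum, ← mul_sum]
  have h2 := sum_inv_sqrt x
  have h3 : Real.sqrt (x : ℝ) * Real.sqrt x = x := Real.mul_self_sqrt hx0.le
  have h4 := mul_le_mul_of_nonneg_left h2 (Real.sqrt_nonneg (x : ℝ))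
  nlinarith

theorem sum_inv_log (x : ℕ) (hx : 3 ≤ x) :
    ∑ n ∈ Ioc 2 x, 1 / Real.log n ≤ x / Real.log x + 34 * x / Real.log x ^ 2 := by
  have hx0 : (0 : ℝ) < x := by exact_mod_cast (by omega : 0 < x)
  have hlog : ∀ n : ℕ, 3 ≤ n → 1 ≤ Real.log n := by
    intro n hn
    have h3 : (3 : ℝ) ≤ n := by exact_mod_cast hn
    rw [Real.le_log_iff_exp_le (by linarith)]
    have := Real.exp_one_lt_d9
    linarith
  obtain ⟨L, hL⟩ : ∃ L, L = Real.log x := ⟨_, rfl⟩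
  have hL1 : 1 ≤ L := by rw [hL]; exact hlog x hx
  rw [← hL]
  have h1 : ∀ n ∈ Ioc 2 x, 1 / Real.log n ≤ 2 / L - Real.log n / L ^ 2 + (L - Real.log n) ^ 2 / L ^ 2 := by
    intro n hn
    rw [mem_Ioc] at hn
    have hu := hlog n hn.1
    obtain ⟨u, hu'⟩ : ∃ u, u = Real.log n := ⟨_, rfl⟩
    rw [← hu'] at hu ⊢
    have h2 : 1 / u = 2 / L - u / L ^ 2 + (L - u) ^ 2 / (u * L ^ 2) := by
      field_simp
      ring
    rw [h2]
    have h3 : (L - u) ^ 2 / (u * L ^ 2) ≤ (L - u) ^ 2 / L ^ 2 := by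
      apply div_le_div_of_nonneg_left (sq_nonneg _) (by positivity)
      nlinarith [sq_nonneg L]
    linarith
  refine (sum_le_sum h1).trans ?_
  rw [sum_add_distrib, sum_sub_distrib, sum_const, Nat.card_Ioc, nsmul_eq_mul, ← sum_div, ← sum_div]
  have h2 : (x : ℝ) * L - x - 1 ≤ ∑ n ∈ Ioc 2 x, Real.log (n : ℝ) := by
    have h3 := log_fact x (by omega)
    rw [← hL] at h3
    have h4 : ∑ k ∈ Ioc 0 x, Real.log (k : ℝ) = ∑ k ∈ Ioc (0 : ℕ) 2, Real.log (k : ℝ) + ∑ k ∈ Ioc 2 x, Real.log (k : ℝ) :=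
      (sum_Ioc_consecutive _ (by omega) (by omega)).symm
    have h5 : ∑ k ∈ Ioc (0 : ℕ) 2, Real.log (k : ℝ) = Real.log 2 := by
      rw [show Ioc (0 : ℕ) 2 = ({1, 2} : Finset ℕ) by decide]
      simp
    have h6 : Real.log 2 ≤ 1 := by
      have := Real.log_two_lt_d9
      linarith
    linarith
  have h3 : ∑ n ∈ Ioc 2 x, (L - Real.log (n : ℝ)) ^ 2 ≤ 32 * (x : ℝ) := by
    refine le_trans ?_ (sum_log_sq x (by omega))
    rw [← hL]
    apply sum_le_sum_of_subset_of_nonneg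
    · intro n hn
      rw [mem_Ioc] at hn ⊢
      omega
    · intro n _ _
      exact sq_nonneg _
  have h4 : ((x - 2 : ℕ) : ℝ) * (2 / L) ≤ (x : ℝ) * (2 / L) := by
    apply mul_le_mul_of_nonneg_right _ (by positivity)
    exact_mod_cast Nat.sub_le x 2
  have h5 : ((x : ℝ) * L - x - 1) / L ^ 2 ≤ (∑ n ∈ Ioc 2 x, Real.log (n : ℝ)) / L ^ 2 :=
    div_le_div_of_nonneg_right h2 (by positivity)
  have h6 : (∑ n ∈ Ioc 2 x, (L - Real.log (n : ℝ)) ^ 2) / L ^ 2 ≤ 32 * x / L ^ 2 :=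
    div_le_div_of_nonneg_right h3 (by positivity)
  have h7 : (x : ℝ) * (2 / L) - ((x : ℝ) * L - x - 1) / L ^ 2 + 32 * x / L ^ 2 = x / L + (33 * x + 1) / L ^ 2 := by
    field_simp
    ring
  have h8 : (33 * (x : ℝ) + 1) / L ^ 2 ≤ 34 * x / L ^ 2 := by
    apply div_le_div_of_nonneg_right _ (by positivity)
    have : (1 : ℝ) ≤ x := by exact_mod_cast (by omega : 1 ≤ x)
    linarith
  linarith

end Pool.Agent.T2H62.MD
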