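import Pool.Agent.T2H62.MD.G
import Pool.Agent.T2H62.HRW

set_option autoImplicit false

/-! # Random primes: the second conjecture of Hardy and Littlewood fails -/

namespace Pool.Agent.T2H62.MD

open Finset Filter Topology MeasureTheory ProbabilityTheory
open Pool.Agent.T2H53.GW
open Pool.Agent.T2H62.HRW (Admissible)

variable {Ω : Type*} [MeasurableSpace Ω] {μ : Measure Ω} [IsProbabilityMeasure μ] {S : ℕ → Set Ω}

theorem pr_zero (A : ℝ) : pr A 0 = 0 := by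
  unfold pr
  split_ifs <;> simp

/-- the expected number of the random primes -/
theorem mean_upper (A : ℝ) (hA : 0 < A) : ∀ᶠ x : ℕ in atTop,
    ∑ n ∈ Ioc 0 x, pr A n ≤ x / Real.log x + 34 * x / Real.log x ^ 2 + 2 * (x : ℝ) ^ (1 / 4 : ℝ) := by
  filter_upwards [err_small A hA, eventually_ge_atTop 3, rpow_big 2 (1 / 4) (by norm_num)] with x h1 h2 h3
  have h4 : ∑ n ∈ Ioc 0 x, pr A n = ∑ n ∈ Ioc 0 2, pr A n + ∑ n ∈ Ioc 2 x, pr A n :=
    (sum_Ioc_consecutive _ (by omega) (by omega)).symm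
  have h5 : ∑ n ∈ Ioc 0 2, pr A n ≤ 2 := by
    have := sum_le_card_nsmul (Ioc 0 2) (fun n => pr A n) 1 (fun n _ => pr_le_one A n)
    simpa using this
  have h6 := blocks A hA.le 2 x le_rfl (by omega)
  have h7 := sum_inv_log x h2
  linarith

theorem cnt_mono {ω : Ω} {x y : ℕ} (h : x ≤ y) : cnt (Ioc 0 x) S ω ≤ cnt (Ioc 0 y) S ω := by
  unfold cnt
  apply sum_le_sum_of_subset_of_nonneg
  · intro n hn
    rw [mem_Ioc] at hn ⊢
    omega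
  · intro n _ _
    exact Set.indicator_nonneg (fun _ _ => zero_le_one) _

/-- almost surely the number of the random primes is close to its mean -/
theorem count_near (A : ℝ) (hm : ∀ n, MeasurableSet (S n)) (hi : iIndepSet S μ) (hp : ∀ n, μ.real (S n) = pr A n) :
    ∀ᵐ ω ∂μ, ∀ᶠ x : ℕ in atTop, |cnt (Ioc 0 x) S ω - ∑ n ∈ Ioc 0 x, pr A n| ≤ 40 * (x : ℝ) ^ (3 / 4 : ℝ) := by
  classical
  have hpair : ∀ i j : ℕ, i ≠ j → μ.real (S i ∩ S j) = μ.real (S i) * μ.real (S j) := by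
    intro i j hij
    have h1 := prob_inter hm hi {i, j}
    rw [prod_pair hij] at h1
    rw [← h1]
    congr 1
    ext ω
    simp
  have hprob : ∀ k : ℕ, 1 ≤ k → μ.real {ω | ((k : ℝ) ^ 3) ≤ |cnt (Ioc 0 (k ^ 4)) S ω - ∑ n ∈ Ioc 0 (k ^ 4), μ.real (S n)|} ≤
      1 / (k : ℝ) ^ 2 := by
    intro k hk
    have hk0 : (0 : ℝ) < k := by exact_mod_cast hk
    refine (cheb (Ioc 0 (k ^ 4)) S (fun i _ => hm i) (fun i _ j _ hij => hpair i j hij) _ (by positivity)).trans ?_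
    have h1 : ∑ n ∈ Ioc 0 (k ^ 4), μ.real (S n) ≤ (k : ℝ) ^ 4 := by
      have := sum_le_card_nsmul (Ioc 0 (k ^ 4)) (fun n => μ.real (S n)) 1 (fun n _ => measureReal_le_one)
      simpa using this
    rw [div_le_div_iff₀ (by positivity) (by positivity)]
    calc (∑ n ∈ Ioc 0 (k ^ 4), μ.real (S n)) * (k : ℝ) ^ 2 ≤ (k : ℝ) ^ 4 * (k : ℝ) ^ 2 :=
          mul_le_mul_of_nonneg_right h1 (by positivity)
      _ = 1 * ((k : ℝ) ^ 3) ^ 2 := by ring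
  have hsum : Summable (fun N : ℕ => 1 / (N : ℝ) ^ 2) := Real.summable_one_div_nat_pow.2 (by norm_num)
  have h2 := bc (μ := μ) _ 1 _ hsum hprob
  filter_upwards [h2] with ω hω
  obtain ⟨K, hK⟩ := eventually_atTop.1 hω
  refine eventually_atTop.2 ⟨max (K + 2) 3 ^ 4, fun x hx => ?_⟩
  obtain ⟨k, hk1, hk2⟩ : ∃ k : ℕ, k ^ 4 ≤ x ∧ x < (k + 1) ^ 4 := by
    have hex : ∃ k : ℕ, x < (k + 1) ^ 4 := ⟨x, lt_of_lt_of_le (Nat.lt_succ_self x) (Nat.le_self_pow (by norm_num) _)⟩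
    refine ⟨Nat.find hex, ?_, Nat.find_spec hex⟩
    by_contra hcon
    push Not at hcon
    have h0 : Nat.find hex ≠ 0 := by
      intro h0
      rw [h0] at hcon
      omega
    have h3 := Nat.find_min hex (m := Nat.find hex - 1) (by omega)
    apply h3
    rwa [Nat.sub_add_cancel (by omega)]
  have hkK : K ≤ k ∧ 2 ≤ k := by
    have h3 : max (K + 2) 3 < k + 1 := lt_of_pow_lt_pow_left₀ 4 (by omega) (lt_of_le_of_lt hx hk2)
    have h4 := le_max_left (K + 2) 3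
    have h5 := le_max_right (K + 2) 3
    omega
  have hk0 : (0 : ℝ) < k := by exact_mod_cast (by omega : 0 < k)
  have e1 := hK k hkK.1
  have e2 := hK (k + 1) (by omega)
  simp only [Set.mem_ofPred_eq, not_le] at e1 e2
  simp only [hp] at e1 e2
  rw [abs_lt] at e1 e2
  have m1 : cnt (Ioc 0 (k ^ 4)) S ω ≤ cnt (Ioc 0 x) S ω := cnt_mono hk1
  have m2 : cnt (Ioc 0 x) S ω ≤ cnt (Ioc 0 ((k + 1) ^ 4)) S ω := cnt_mono hk2.le
  have hM : ∀ a b : ℕ, a ≤ b → ∑ n ∈ Ioc 0 b, pr A n ≤ ∑ n ∈ Ioc 0 a, pr A n + ((b : ℝ) - a) := by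
    intro a b hab
    rw [← sum_Ioc_consecutive _ (Nat.zero_le a) hab]
    have := sum_le_card_nsmul (Ioc a b) (fun n => pr A n) 1 (fun n _ => pr_le_one A n)
    rw [Nat.card_Ioc, nsmul_eq_mul, mul_one, Nat.cast_sub hab] at this
    linarith
  have hM0 : ∀ a b : ℕ, a ≤ b → ∑ n ∈ Ioc 0 a, pr A n ≤ ∑ n ∈ Ioc 0 b, pr A n := by
    intro a b hab
    apply sum_le_sum_of_subset_of_nonneg
    · intro n hn
      rw [mem_Ioc] at hn ⊢
      omega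
    · intro n _ _
      exact pr_nonneg A n
  have hgap : (((k + 1 : ℕ) : ℝ)) ^ 4 - (k : ℝ) ^ 4 ≤ 15 * (k : ℝ) ^ 3 := by
    have h1 : (1 : ℝ) ≤ k := by exact_mod_cast (by omega : 1 ≤ k)
    push_cast
    have h3 : ((k : ℝ) + 1) ^ 4 - (k : ℝ) ^ 4 = 4 * (k : ℝ) ^ 3 + 6 * (k : ℝ) ^ 2 + 4 * k + 1 := by ring
    rw [h3]
    have h4 : (k : ℝ) ^ 2 ≤ (k : ℝ) ^ 3 := pow_le_pow_right₀ h1 (by norm_num)
    have h5 : (k : ℝ) ≤ (k : ℝ) ^ 3 := le_self_pow₀ h1 (by norm_num)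
    have h6 : (1 : ℝ) ≤ (k : ℝ) ^ 3 := one_le_pow₀ h1
    linarith
  have hcube : (((k + 1 : ℕ) : ℝ)) ^ 3 ≤ 8 * (k : ℝ) ^ 3 := by
    have h1 : (1 : ℝ) ≤ k := by exact_mod_cast (by omega : 1 ≤ k)
    have h2 : (((k + 1 : ℕ) : ℝ)) ≤ 2 * k := by push_cast; linarith
    calc (((k + 1 : ℕ) : ℝ)) ^ 3 ≤ (2 * (k : ℝ)) ^ 3 := pow_le_pow_left₀ (by positivity) h2 3
      _ = 8 * (k : ℝ) ^ 3 := by ring
  have hk34 : (k : ℝ) ^ 3 ≤ (x : ℝ) ^ (3 / 4 : ℝ) := by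
    have h1 : (k : ℝ) ^ 4 ≤ x := by exact_mod_cast hk1
    calc (k : ℝ) ^ 3 = ((k : ℝ) ^ 4) ^ (3 / 4 : ℝ) := by
          rw [← Real.rpow_natCast, ← Real.rpow_natCast, ← Real.rpow_mul hk0.le]
          norm_num
      _ ≤ (x : ℝ) ^ (3 / 4 : ℝ) := Real.rpow_le_rpow (by positivity) h1 (by norm_num)
  have hx1 := hM (k ^ 4) x hk1
  have hx2 := hM x ((k + 1) ^ 4) hk2.le
  have hx3 := hM0 (k ^ 4) x hk1
  have hx4 := hM0 x ((k + 1) ^ 4) hk2.le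
  have hxk : (x : ℝ) ≤ ((k + 1 : ℕ) : ℝ) ^ 4 := by exact_mod_cast hk2.le
  have hxk' : (k : ℝ) ^ 4 ≤ x := by exact_mod_cast hk1
  push_cast at hx1 hx2 hgap hcube e2 hxk
  rw [abs_le]
  constructor <;> linarith [e1.1, e1.2, e2.1, e2.2]

end Pool.Agent.T2H62.MD
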