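import Pool.Agent.T2H62.MD.H

set_option autoImplicit false

/-! # Random primes: windows with more random primes than the initial interval -/

namespace Pool.Agent.T2H62.MD

open Finset Filter Topology MeasureTheory ProbabilityTheory
open Pool.Agent.T2H53.GW
open Pool.Agent.T2H62.HRW (Admissible)

variable {Ω : Type*} [MeasurableSpace Ω] {μ : Measure Ω} [IsProbabilityMeasure μ] {S : ℕ → Set Ω}

theorem admH_prime {y : ℕ} {T : Finset ℕ} (hTy : T ⊆ Icc 1 y) (hT : Admissible T) {Q : ℕ} (hQ : Q.Prime) (hQy : y < Q) :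
    AdmH T Q 0 := by
  intro p hp
  by_cases hpQ : p = Q
  · subst hpQ
    refine ⟨0, fun h hh hd => ?_⟩
    rw [mul_zero, zero_add, zero_add, Int.natCast_dvd_natCast] at hd
    have h1 := mem_Icc.1 (hTy hh)
    have := Nat.le_of_dvd (by omega) hd
    omega
  · obtain ⟨n, hn⟩ := hT p hp
    have h5 : Nat.Coprime Q p := (Nat.coprime_primes hQ hp).2 (fun h => hpQ h.symm)
    obtain ⟨v, hv⟩ := Nat.exists_mul_mod_eq_one_of_coprime h5 hp.one_lt
    refine ⟨((v * n : ℕ) : ℤ), fun h hh hd => hn h hh ?_⟩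
    have h6 : Q * v ≡ 1 [MOD p] := by
      unfold Nat.ModEq
      rw [hv.2, Nat.mod_eq_of_lt hp.one_lt]
    have h7 : Q * (v * n) + h ≡ n + h [MOD p] := by
      have := (h6.mul_right n).add_right h
      rwa [mul_assoc, one_mul] at this
    have h8 : p ∣ Q * (v * n) + h := by
      rw [← Int.natCast_dvd_natCast]
      rw [zero_add] at hd
      push_cast
      push_cast at hd
      exact hd
    exact Nat.modEq_zero_iff_dvd.1 (h7.symm.trans (Nat.modEq_zero_iff_dvd.2 h8))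

/-- all admissible sets occur in all short intervals -/
theorem adm_short (A : ℝ) (hm : ∀ n, MeasurableSet (S n)) (hi : iIndepSet S μ) (hp : ∀ n, μ.real (S n) = pr A n) :
    ∀ᵐ ω ∂μ, ∀ (y : ℕ) (T : Finset ℕ), T ⊆ Icc 1 y → Admissible T → ∀ ε : ℝ, 0 < ε → ∀ᶠ N : ℕ in atTop,
      ∃ x ∈ Ioc N (N + ⌊(N : ℝ) ^ ε⌋₊), ∀ h ∈ T, ω ∈ S (x + h) := by
  classical
  have hmain : ∀ᵐ ω ∂μ, ∀ (y : ℕ) (T : Finset ℕ) (j : ℕ), T ⊆ Icc 1 y → Admissible T → ∀ᶠ N : ℕ in atTop,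
      ∃ x ∈ Ioc N (N + ⌊(N : ℝ) ^ (1 / ((j : ℝ) + 1))⌋₊), ∀ h ∈ T, ω ∈ S (x + h) := by
    rw [ae_all_iff]; intro y
    rw [ae_all_iff]; intro T
    rw [ae_all_iff]; intro j
    by_cases hTy : T ⊆ Icc 1 y
    · by_cases hT : Admissible T
      · obtain ⟨Q, hQ1, hQ⟩ := Nat.exists_infinite_primes (y + 1)
        have h1 := pat_short A hm hi hp T Q 0 hQ.one_lt.le (fun h hh => by
          have := mem_Icc.1 (hTy hh)
          omega) (admH_prime hTy hT hQ (by omega)) (1 / ((j : ℝ) + 1)) (by positivity) (by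
            rw [div_le_one (by positivity)]
            have : (0 : ℝ) ≤ j := Nat.cast_nonneg _
            linarith)
        filter_upwards [h1] with ω hω _ _
        exact hω.mono fun N ⟨x, hx, _, hx2⟩ => ⟨x, hx, hx2⟩
      · filter_upwards with ω _ h
        exact absurd h hT
    · filter_upwards with ω h
      exact absurd h hTy
  filter_upwards [hmain] with ω hω y T hTy hT ε hε
  obtain ⟨j, hj⟩ := exists_nat_gt (1 / ε)
  filter_upwards [hω y T j hTy hT, eventually_ge_atTop 1] with N h3 hN1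
  obtain ⟨x, hx, hxS⟩ := h3
  have hN1r : (1 : ℝ) ≤ N := by exact_mod_cast hN1
  have hexp : 1 / ((j : ℝ) + 1) ≤ ε := by
    rw [div_le_iff₀ (by positivity)]
    rw [div_lt_iff₀ hε] at hj
    nlinarith
  rw [mem_Ioc] at hx
  refine ⟨x, mem_Ioc.2 ⟨hx.1, hx.2.trans ?_⟩, hxS⟩
  apply Nat.add_le_add_left
  exact Nat.floor_le_floor (Real.rpow_le_rpow_of_exponent_le hN1r hexp)

/-- the counting function of the random primes, almost surely -/
theorem count_upper (A : ℝ) (hA : 0 < A) (hm : ∀ n, MeasurableSet (S n)) (hi : iIndepSet S μ)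
    (hp : ∀ n, μ.real (S n) = pr A n) :
    ∀ᵐ ω ∂μ, ∀ᶠ x : ℕ in atTop, cnt (Ioc 0 x) S ω ≤ x / Real.log x + 35 * x / Real.log x ^ 2 := by
  filter_upwards [count_near A hm hi hp] with ω hω
  filter_upwards [hω, mean_upper A hA, log_pow_small 2 42 (1 / 4) (by norm_num) (by norm_num),
    eventually_ge_atTop 3] with x h1 h2 h3 h4
  have hx0 : (0 : ℝ) < x := by exact_mod_cast (by omega : 0 < x)
  have hx1 : (1 : ℝ) ≤ x := by exact_mod_cast (by omega : 1 ≤ x)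
  have hl : 0 < Real.log x := Real.log_pos (by exact_mod_cast (by omega : 1 < x))
  have h5 := (abs_le.1 h1).2
  have h6 : (x : ℝ) ^ (1 / 4 : ℝ) ≤ (x : ℝ) ^ (3 / 4 : ℝ) := Real.rpow_le_rpow_of_exponent_le hx1 (by norm_num)
  have h7 : 42 * (x : ℝ) ^ (3 / 4 : ℝ) ≤ x / Real.log x ^ 2 := by
    rw [le_div_iff₀ (by positivity)]
    calc 42 * (x : ℝ) ^ (3 / 4 : ℝ) * Real.log x ^ 2 = (42 * Real.log x ^ 2) * (x : ℝ) ^ (3 / 4 : ℝ) := by ring
      _ ≤ (x : ℝ) ^ (1 / 4 : ℝ) * (x : ℝ) ^ (3 / 4 : ℝ) := mul_le_mul_of_nonneg_right h3 (by positivity)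
      _ = x := by
          rw [← Real.rpow_add hx0]
          norm_num
  have h8 : 35 * (x : ℝ) / Real.log x ^ 2 = 34 * x / Real.log x ^ 2 + x / Real.log x ^ 2 := by ring
  rw [h8]
  linarith

/-- windows with more random primes than the initial interval -/
theorem second_HL (A : ℝ) (hA : 0 < A) (hm : ∀ n, MeasurableSet (S n)) (hi : iIndepSet S μ)
    (hp : ∀ n, μ.real (S n) = pr A n) :
    ∀ᵐ ω ∂μ, ∀ α : ℝ, α < 1 / 2 → ∀ᶠ y : ℕ in atTop, ∀ ε : ℝ, 0 < ε → ∀ᶠ N : ℕ in atTop,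
      ∃ x ∈ Ioc N (N + ⌊(N : ℝ) ^ ε⌋₊),
        cnt (Ioc 0 y) S ω + α * (y * Real.log (Real.log (Real.log y)) / Real.log y ^ 2) ≤ cnt (Ioc x (x + y)) S ω := by
  classical
  obtain ⟨C, hC, hpnt⟩ := Pool.Agent.H381R2.HR.Asm.pnt2
  filter_upwards [count_upper A hA hm hi hp, adm_short A hm hi hp] with ω h1 h2 α hα
  obtain ⟨β, hβ⟩ : ∃ β : ℝ, β = (α + 1 / 2) / 2 := ⟨_, rfl⟩
  have hβ1 : β < 1 / 2 := by rw [hβ]; linarith
  have hβ2 : 0 < β - α := by rw [hβ]; linarith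
  obtain ⟨y₀, h3⟩ := Pool.Agent.T2H62.HRW.large β hβ1
  have hT : Tendsto (fun n : ℕ => (n : ℝ)) atTop atTop := tendsto_natCast_atTop_atTop
  have hl3 : ∀ᶠ y : ℕ in atTop, (35 + C) / (β - α) ≤ Real.log (Real.log (Real.log y)) :=
    (Real.tendsto_log_atTop.comp (Real.tendsto_log_atTop.comp (Real.tendsto_log_atTop.comp hT))).eventually_ge_atTop _
  filter_upwards [h1, hl3, eventually_ge_atTop y₀, eventually_ge_atTop 3] with y a1 a2 a3 a4 ε hε
  obtain ⟨T, hTy, hTa, hTc⟩ := h3 y a3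
  filter_upwards [h2 y T hTy hTa ε hε] with N hN
  obtain ⟨x, hx, hxS⟩ := hN
  refine ⟨x, hx, ?_⟩
  have hcard : (T.card : ℝ) ≤ cnt (Ioc x (x + y)) S ω := by
    rw [cnt_eq]
    have h4 : T.card ≤ ((Ioc x (x + y)).filter (fun i => ω ∈ S i)).card := by
      rw [← card_image_of_injective T (f := fun h => x + h) (fun a b h => Nat.add_left_cancel h)]
      apply card_le_card
      intro n hn
      rw [mem_image] at hn
      obtain ⟨h, hh, rfl⟩ := hn
      have h5 := mem_Icc.1 (hTy hh)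
      rw [mem_filter, mem_Ioc]
      exact ⟨by omega, hxS h hh⟩
    exact_mod_cast h4
  have hy0 : (0 : ℝ) < y := by exact_mod_cast (by omega : 0 < y)
  have hl : 0 < Real.log y := Real.log_pos (by exact_mod_cast (by omega : 1 < y))
  have hpi := hpnt y (by exact_mod_cast (by omega : 2 ≤ y))
  rw [Nat.floor_natCast] at hpi
  have hpi' := (abs_le.1 hpi).1
  obtain ⟨D, hD⟩ : ∃ D : ℝ, D = y / Real.log y ^ 2 := ⟨_, rfl⟩
  have hD0 : 0 < D := by rw [hD]; positivity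
  obtain ⟨l3, hl3'⟩ : ∃ l3 : ℝ, l3 = Real.log (Real.log (Real.log y)) := ⟨_, rfl⟩
  rw [← hl3'] at a2 hTc ⊢
  have e1 : (y : ℝ) * l3 / Real.log y ^ 2 = l3 * D := by rw [hD]; ring
  have e2 : 35 * (y : ℝ) / Real.log y ^ 2 = 35 * D := by rw [hD]; ring
  rw [e1] at hTc ⊢
  rw [e2] at a1
  rw [← hD] at hpi'
  rw [div_le_iff₀ hβ2] at a2
  have e3 : (35 + C) * D ≤ l3 * (β - α) * D := mul_le_mul_of_nonneg_right a2 hD0.le
  nlinarith

end Pool.Agent.T2H62.MD
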