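import Mathlib

set_option autoImplicit false

/-! # Legendre's sieve with several residue classes -/

namespace Pool.Agent.T2H62.MD

open Finset Filter Topology

/-- the number of the integers in `(a, b]`, congruent to `c` modulo `m`, outside the classes `X p`, `p ∈ P` -/
noncomputable def NX (P : Finset ℕ) (X : ℕ → Finset ℕ) (m c a b : ℕ) : ℕ :=
  ((Ioc a b).filter (fun n => n ≡ c [MOD m] ∧ ∀ p ∈ P, n % p ∉ X p)).card

theorem NX_empty (X : ℕ → Finset ℕ) (m c a b : ℕ) (hm : 0 < m) (hab : a ≤ b) :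
    |(NX ∅ X m c a b : ℝ) - ((b : ℝ) - a) / m| ≤ 1 := by
  unfold NX
  simp only [notMem_empty, false_imp_iff, implies_true, and_true]
  have h1 := Nat.Ioc_filter_modEq_card a b hm c
  have hm0 : (0 : ℚ) < m := by exact_mod_cast hm
  obtain ⟨u, hu⟩ : ∃ u : ℤ, u = ⌊((b : ℚ) - c) / m⌋ := ⟨_, rfl⟩
  obtain ⟨v, hv⟩ : ∃ v : ℤ, v = ⌊((a : ℚ) - c) / m⌋ := ⟨_, rfl⟩
  rw [← hu, ← hv] at h1
  have hab' : (a : ℚ) ≤ b := by exact_mod_cast hab
  have huv : v ≤ u := by
    rw [hu, hv]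
    apply Int.floor_le_floor
    exact div_le_div_of_nonneg_right (by linarith) hm0.le
  rw [max_eq_left (by omega)] at h1
  have h2 : |(((u - v : ℤ) : ℚ)) - ((b : ℚ) - a) / m| ≤ 1 := by
    have h3 := Int.floor_le (((b : ℚ) - c) / m)
    have h4 := Int.lt_floor_add_one (((b : ℚ) - c) / m)
    have h5 := Int.floor_le (((a : ℚ) - c) / m)
    have h6 := Int.lt_floor_add_one (((a : ℚ) - c) / m)
    rw [← hu] at h3 h4
    rw [← hv] at h5 h6
    have h7 : ((b : ℚ) - a) / m = ((b : ℚ) - c) / m - ((a : ℚ) - c) / m := by ring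
    rw [h7, abs_le]
    push_cast
    constructor <;> linarith
  have h3 : ((((Ioc a b).filter (fun n => n ≡ c [MOD m])).card : ℕ) : ℚ) = ((u - v : ℤ) : ℚ) := by
    rw [← h1]
    push_cast
    rfl
  rw [← h3] at h2
  have h4 : |((((((Ioc a b).filter (fun n => n ≡ c [MOD m])).card : ℕ) : ℚ) - ((b : ℚ) - a) / m : ℚ) : ℝ)| ≤ 1 := by
    exact_mod_cast h2
  push_cast at h4
  exact h4

theorem NX_insert (P : Finset ℕ) (X : ℕ → Finset ℕ) (p : ℕ) (hp : 0 < p) (hX : X p ⊆ range p) (m : ℕ) (hmp : Nat.Coprime m p)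
    (c : ℕ) : ∃ c' : ℕ → ℕ, ∀ a b : ℕ,
      NX (insert p P) X m c a b + ∑ r ∈ X p, NX P X (m * p) (c' r) a b = NX P X m c a b := by
  classical
  refine ⟨fun r => Nat.chineseRemainder hmp c r, fun a b => ?_⟩
  have h1 : ∀ r ∈ X p, NX P X (m * p) (Nat.chineseRemainder hmp c r) a b =
      (((Ioc a b).filter (fun n => n ≡ c [MOD m] ∧ ∀ q ∈ P, n % q ∉ X q)).filter (fun n => n % p = r)).card := by
    intro r hr
    unfold NX
    rw [filter_filter]
    congr 1
    apply filter_congr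
    intro n _
    have hc := (Nat.chineseRemainder hmp c r).2
    have hr' : r % p = r := Nat.mod_eq_of_lt (mem_range.1 (hX hr))
    constructor
    · rintro ⟨h2, h3⟩
      rw [← Nat.modEq_and_modEq_iff_modEq_mul hmp] at h2
      refine ⟨⟨h2.1.trans hc.1, h3⟩, ?_⟩
      have h4 := h2.2.trans hc.2
      unfold Nat.ModEq at h4
      rw [h4, hr']
    · rintro ⟨⟨h2, h3⟩, h4⟩
      refine ⟨?_, h3⟩
      rw [← Nat.modEq_and_modEq_iff_modEq_mul hmp]
      refine ⟨h2.trans hc.1.symm, ?_⟩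
      have h5 : n ≡ r [MOD p] := by
        unfold Nat.ModEq
        rw [h4, hr']
      exact h5.trans hc.2.symm
  rw [sum_congr rfl h1]
  have h2 : ∑ r ∈ X p, (((Ioc a b).filter (fun n => n ≡ c [MOD m] ∧ ∀ q ∈ P, n % q ∉ X q)).filter (fun n => n % p = r)).card
      = (((Ioc a b).filter (fun n => n ≡ c [MOD m] ∧ ∀ q ∈ P, n % q ∉ X q)).filter (fun n => n % p ∈ X p)).card := by
    rw [card_eq_sum_card_fiberwise (s := ((Ioc a b).filter (fun n => n ≡ c [MOD m] ∧ ∀ q ∈ P, n % q ∉ X q)).filter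
      (fun n => n % p ∈ X p)) (f := fun n => n % p) (t := X p) (fun n hn => by
        have := (mem_filter.1 (Finset.mem_coe.1 hn)).2
        exact this)]
    refine sum_congr rfl fun r hr => ?_
    congr 1
    ext n
    simp only [mem_filter]
    constructor
    · rintro ⟨h3, h4⟩
      exact ⟨⟨h3, by rw [h4]; exact hr⟩, h4⟩
    · rintro ⟨⟨h3, _⟩, h4⟩
      exact ⟨h3, h4⟩
  rw [h2]
  unfold NX
  have h3 := card_filter_add_card_filter_not (s := (Ioc a b).filter (fun n => n ≡ c [MOD m] ∧ ∀ q ∈ P, n % q ∉ X q))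
    (fun n => n % p ∈ X p)
  rw [← h3, add_comm]
  congr 1
  rw [filter_filter]
  congr 1
  apply filter_congr
  intro n _
  constructor
  · rintro ⟨h4, h5⟩
    exact ⟨⟨h4, fun q hq => h5 q (mem_insert_of_mem hq)⟩, h5 p (mem_insert_self _ _)⟩
  · rintro ⟨⟨h4, h5⟩, h6⟩
    refine ⟨h4, fun q hq => ?_⟩
    rcases mem_insert.1 hq with h7 | h7
    · rw [h7]; exact h6
    · exact h5 q h7

theorem legX (P : Finset ℕ) (X : ℕ → Finset ℕ) : (∀ p ∈ P, p.Prime) → (∀ p ∈ P, X p ⊆ range p) →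
    ∀ m : ℕ, 0 < m → (∀ p ∈ P, Nat.Coprime m p) → ∀ c a b : ℕ, a ≤ b →
    |(NX P X m c a b : ℝ) - ((b : ℝ) - a) / m * ∏ p ∈ P, (1 - ((X p).card : ℝ) / p)| ≤ ∏ p ∈ P, (1 + ((X p).card : ℝ)) := by
  classical
  induction P using Finset.induction_on with
  | empty =>
    intro _ _ m hm _ c a b hab
    simpa using NX_empty X m c a b hm hab
  | insert p P hpP ih =>
    intro hP hX m hm hmP c a b hab
    have hp : p.Prime := hP p (mem_insert_self _ _)
    have hXp := hX p (mem_insert_self _ _)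
    have hmp := hmP p (mem_insert_self _ _)
    have hP' : ∀ q ∈ P, q.Prime := fun q hq => hP q (mem_insert_of_mem hq)
    have hX' : ∀ q ∈ P, X q ⊆ range q := fun q hq => hX q (mem_insert_of_mem hq)
    obtain ⟨c', hc'⟩ := NX_insert P X p hp.pos hXp m hmp c
    have h1 := ih hP' hX' m hm (fun q hq => hmP q (mem_insert_of_mem hq)) c a b hab
    have h2 : ∀ r ∈ X p, |(NX P X (m * p) (c' r) a b : ℝ) - ((b : ℝ) - a) / ((m * p : ℕ) : ℝ) *
        ∏ q ∈ P, (1 - ((X q).card : ℝ) / q)| ≤ ∏ q ∈ P, (1 + ((X q).card : ℝ)) := by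
      intro r _
      refine ih hP' hX' (m * p) (Nat.mul_pos hm hp.pos) (fun q hq => ?_) (c' r) a b hab
      refine Nat.Coprime.mul_left (hmP q (mem_insert_of_mem hq)) ?_
      rw [Nat.coprime_primes hp (hP' q hq)]
      rintro rfl
      exact hpP hq
    have h3 : (NX (insert p P) X m c a b : ℝ) = NX P X m c a b - ∑ r ∈ X p, (NX P X (m * p) (c' r) a b : ℝ) := by
      have := hc' a b
      have h4 : (NX (insert p P) X m c a b : ℝ) + ∑ r ∈ X p, (NX P X (m * p) (c' r) a b : ℝ) = NX P X m c a b := by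
        exact_mod_cast this
      linarith
    rw [h3, prod_insert hpP, prod_insert hpP]
    obtain ⟨W, hW⟩ : ∃ W : ℝ, W = ∏ q ∈ P, (1 - ((X q).card : ℝ) / q) := ⟨_, rfl⟩
    obtain ⟨E, hE⟩ : ∃ E : ℝ, E = ∏ q ∈ P, (1 + ((X q).card : ℝ)) := ⟨_, rfl⟩
    rw [← hW, ← hE] at h1 h2 ⊢
    have hp0 : (p : ℝ) ≠ 0 := by exact_mod_cast hp.ne_zero
    have hm0 : (m : ℝ) ≠ 0 := by exact_mod_cast hm.ne'
    have h5 : (NX P X m c a b : ℝ) - ∑ r ∈ X p, (NX P X (m * p) (c' r) a b : ℝ) -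
        ((b : ℝ) - a) / m * ((1 - ((X p).card : ℝ) / p) * W) = ((NX P X m c a b : ℝ) - ((b : ℝ) - a) / m * W) -
        ∑ r ∈ X p, ((NX P X (m * p) (c' r) a b : ℝ) - ((b : ℝ) - a) / ((m * p : ℕ) : ℝ) * W) := by
      rw [sum_sub_distrib, sum_const, nsmul_eq_mul]
      push_cast
      field_simp
      ring
    rw [h5]
    calc |((NX P X m c a b : ℝ) - ((b : ℝ) - a) / m * W) -
          ∑ r ∈ X p, ((NX P X (m * p) (c' r) a b : ℝ) - ((b : ℝ) - a) / ((m * p : ℕ) : ℝ) * W)|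
        ≤ |((NX P X m c a b : ℝ) - ((b : ℝ) - a) / m * W)| +
          |∑ r ∈ X p, ((NX P X (m * p) (c' r) a b : ℝ) - ((b : ℝ) - a) / ((m * p : ℕ) : ℝ) * W)| := abs_sub _ _
      _ ≤ E + ∑ r ∈ X p, |(NX P X (m * p) (c' r) a b : ℝ) - ((b : ℝ) - a) / ((m * p : ℕ) : ℝ) * W| :=
          add_le_add h1 (abs_sum_le_sum_abs _ _)
      _ ≤ E + ∑ _r ∈ X p, E := by
          gcongr with r hr
          exact h2 r hr
      _ = (1 + ((X p).card : ℝ)) * E := by
          rw [sum_const, nsmul_eq_mul]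
          ring

end Pool.Agent.T2H62.MD
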