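import Pool.Agent.T2H62.MD.F

set_option autoImplicit false

/-! # The singular series -/

namespace Pool.Agent.T2H62.MD

open Finset Filter Topology
open Pool.Agent.T2H53.GW
open Pool.Agent.H305R2 (VV VV_tendsto)

/-- the number of the residue classes of `T` modulo `p` -/
def nu (T : Finset ℕ) (p : ℕ) : ℕ := (T.image (fun h => h % p)).card

/-- the partial products of the singular series -/
noncomputable def SS (T : Finset ℕ) (z : ℕ) : ℝ := ∏ p ∈ PJ z, (1 - (nu T p : ℝ) / p) * ((1 - (p : ℝ)⁻¹)⁻¹) ^ T.card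

theorem nu_le (T : Finset ℕ) (p : ℕ) : nu T p ≤ T.card := card_image_le

theorem nu_big {T : Finset ℕ} {y p : ℕ} (hT : T ⊆ Icc 1 y) (hp : y < p) : nu T p = T.card := by
  unfold nu
  apply card_image_of_injOn
  intro a ha b hb hab
  have h1 := mem_Icc.1 (hT ha)
  have h2 := mem_Icc.1 (hT hb)
  simp only at hab
  rwa [Nat.mod_eq_of_lt (by omega), Nat.mod_eq_of_lt (by omega)] at hab

theorem PJ_succ (z : ℕ) : PJ (z + 1) = if (z + 1).Prime then insert (z + 1) (PJ z) else PJ z := by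
  unfold PJ
  split_ifs with h
  · ext p
    simp only [mem_filter, mem_Icc, mem_insert]
    constructor
    · rintro ⟨h1, h2⟩
      rcases Nat.lt_or_ge p (z + 1) with h3 | h3
      · right; exact ⟨⟨h1.1, by omega⟩, h2⟩
      · left; omega
    · rintro (h1 | ⟨h1, h2⟩)
      · rw [h1]; exact ⟨⟨by omega, le_rfl⟩, h⟩
      · exact ⟨⟨h1.1, by omega⟩, h2⟩
  · ext p
    simp only [mem_filter, mem_Icc]
    constructor
    · rintro ⟨h1, h2⟩
      refine ⟨⟨h1.1, ?_⟩, h2⟩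
      rcases Nat.lt_or_ge p (z + 1) with h3 | h3
      · omega
      · have : p = z + 1 := by omega
        rw [this] at h2
        exact absurd h2 h
    · rintro ⟨h1, h2⟩
      exact ⟨⟨h1.1, by omega⟩, h2⟩

theorem SS_succ (T : Finset ℕ) (z : ℕ) : SS T (z + 1) = if (z + 1).Prime then
    ((1 - (nu T (z + 1) : ℝ) / ((z + 1 : ℕ) : ℝ)) * ((1 - (((z + 1 : ℕ) : ℝ))⁻¹)⁻¹) ^ T.card) * SS T z else SS T z := by
  unfold SS
  rw [PJ_succ]
  split_ifs with h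
  · rw [prod_insert]
    unfold PJ
    simp
  · rfl

/-- a factor of the singular series at a large prime -/
theorem factor_bd (k : ℕ) (p : ℕ) (hp : 2 * k + 2 ≤ p) :
    1 - 2 * (k : ℝ) ^ 2 / p ^ 2 ≤ (1 - (k : ℝ) / p) * ((1 - (p : ℝ)⁻¹)⁻¹) ^ k ∧
      (1 - (k : ℝ) / p) * ((1 - (p : ℝ)⁻¹)⁻¹) ^ k ≤ 1 := by
  have hp0 : (0 : ℝ) < p := by exact_mod_cast (by omega : 0 < p)
  have hp2 : (2 : ℝ) ≤ p := by exact_mod_cast (by omega : 2 ≤ p)
  have hk : 2 * (k : ℝ) ≤ p := by exact_mod_cast (by omega : 2 * k ≤ p)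
  obtain ⟨x, hx⟩ : ∃ x : ℝ, x = (k : ℝ) / p := ⟨_, rfl⟩
  have hx0 : 0 ≤ x := by rw [hx]; positivity
  have hx1 : x ≤ 1 / 2 := by
    rw [hx, div_le_iff₀ hp0]
    linarith
  have hinv : (p : ℝ)⁻¹ ≤ 1 / 2 := by
    rw [inv_eq_one_div]
    exact one_div_le_one_div_of_le (by norm_num) hp2
  have hinv0 : 0 < (p : ℝ)⁻¹ := by positivity
  have hb0 : 0 < 1 - (p : ℝ)⁻¹ := by linarith
  have hpow : 0 < (1 - (p : ℝ)⁻¹) ^ k := by positivity
  -- Bernoulli
  have h1 : 1 - x ≤ (1 - (p : ℝ)⁻¹) ^ k := by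
    have := one_add_mul_le_pow (a := -(p : ℝ)⁻¹) (by linarith) k
    have h2 : 1 + (k : ℝ) * -(p : ℝ)⁻¹ = 1 - x := by
      rw [hx]
      ring
    rw [h2, show (1 : ℝ) + -(p : ℝ)⁻¹ = 1 - (p : ℝ)⁻¹ by ring] at this
    exact this
  -- the exponential function
  have h2 : (1 - (p : ℝ)⁻¹) ^ k ≤ 1 - x + x ^ 2 := by
    have h3 : (1 - (p : ℝ)⁻¹) ^ k ≤ Real.exp (-x) := by
      have h4 : 1 - (p : ℝ)⁻¹ ≤ Real.exp (-(p : ℝ)⁻¹) := by
        have := Real.add_one_le_exp (-(p : ℝ)⁻¹)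
        linarith
      calc (1 - (p : ℝ)⁻¹) ^ k ≤ (Real.exp (-(p : ℝ)⁻¹)) ^ k := pow_le_pow_left₀ hb0.le h4 k
        _ = Real.exp (-x) := by
          rw [← Real.exp_nat_mul, hx]
          congr 1
          ring
    have h5 : |Real.exp (-x) - 1 - (-x)| ≤ (-x) ^ 2 :=
      Real.abs_exp_sub_one_sub_id_le (by rw [abs_neg, abs_of_nonneg hx0]; linarith)
    have h6 := (abs_le.1 h5).2
    nlinarith
  rw [← hx, inv_pow]
  constructor
  · have h3 : 2 * (k : ℝ) ^ 2 / p ^ 2 = 2 * x ^ 2 := by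
      rw [hx]
      ring
    rw [h3, ← div_eq_mul_inv, le_div_iff₀ hpow]
    have h4 : 0 ≤ 1 - 2 * x ^ 2 := by nlinarith
    calc (1 - 2 * x ^ 2) * (1 - (p : ℝ)⁻¹) ^ k ≤ (1 - 2 * x ^ 2) * (1 - x + x ^ 2) := mul_le_mul_of_nonneg_left h2 h4
      _ ≤ 1 - x := by nlinarith [sq_nonneg x, mul_nonneg hx0 (sq_nonneg x), sq_nonneg (x ^ 2)]
  · rw [← div_eq_mul_inv, div_le_one hpow]
    exact h1

theorem SS_tendsto (T : Finset ℕ) (y : ℕ) (hT : T ⊆ Icc 1 y) (hadm : ∀ p : ℕ, p.Prime → nu T p < p) :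
    ∃ s : ℝ, 0 < s ∧ Tendsto (SS T) atTop (𝓝 s) := by
  obtain ⟨k, hk⟩ : ∃ k, k = T.card := ⟨_, rfl⟩
  obtain ⟨z₀, hz₀⟩ : ∃ z₀, z₀ = y + 2 * k + 2 + 4 * k ^ 2 + 1 := ⟨_, rfl⟩
  have hz0 : (0 : ℝ) < z₀ := by exact_mod_cast (by omega : 0 < z₀)
  -- positivity of the partial products
  have hpos : ∀ z, 0 < SS T z := by
    intro z
    unfold SS
    refine prod_pos fun p hp => ?_
    have hpp := PJ_prime hp
    have hp0 : (0 : ℝ) < p := by exact_mod_cast hpp.pos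
    have h1 : (nu T p : ℝ) / p < 1 := by
      rw [div_lt_one hp0]
      exact_mod_cast hadm p hpp
    have h2 : (p : ℝ)⁻¹ < 1 := inv_lt_one_of_one_lt₀ (by exact_mod_cast hpp.one_lt)
    have h3 : 0 < 1 - (p : ℝ)⁻¹ := by linarith
    have h4 : 0 < 1 - (nu T p : ℝ) / p := by linarith
    positivity
  have hstep : ∀ z, z₀ ≤ z → SS T z * (1 - 2 * (k : ℝ) ^ 2 / ((z + 1 : ℕ) : ℝ) ^ 2) ≤ SS T (z + 1) ∧ SS T (z + 1) ≤ SS T z := by
    intro z hz
    rw [SS_succ]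
    have hp := hpos z
    have h0 : 0 ≤ 2 * (k : ℝ) ^ 2 / ((z + 1 : ℕ) : ℝ) ^ 2 := by positivity
    split_ifs with h
    · rw [nu_big hT (by omega : y < z + 1), ← hk]
      obtain ⟨h1, h2⟩ := factor_bd k (z + 1) (by omega)
      constructor
      · rw [mul_comm]
        exact mul_le_mul_of_nonneg_right h1 hp.le
      · calc _ ≤ 1 * SS T z := mul_le_mul_of_nonneg_right h2 hp.le
          _ = SS T z := one_mul _
    · constructor
      · nlinarith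
      · exact le_rfl
  have hlow : ∀ j : ℕ, SS T z₀ * (1 - 2 * (k : ℝ) ^ 2 * (1 / z₀ - 1 / ((z₀ + j : ℕ) : ℝ))) ≤ SS T (z₀ + j) := by
    intro j
    induction j with
    | zero => simp
    | succ j ih =>
      have h1 := (hstep (z₀ + j) (by omega)).1
      refine le_trans ?_ h1
      obtain ⟨w, hw⟩ : ∃ w : ℝ, w = ((z₀ + j : ℕ) : ℝ) := ⟨_, rfl⟩
      have hw1 : (z₀ : ℝ) ≤ w := by
        rw [hw]
        push_cast
        have : (0 : ℝ) ≤ j := Nat.cast_nonneg _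
        linarith
      have hw0 : 0 < w := by linarith
      have hc1 : ((z₀ + (j + 1) : ℕ) : ℝ) = w + 1 := by
        rw [hw]
        push_cast
        ring
      have hc2 : ((z₀ + j + 1 : ℕ) : ℝ) = w + 1 := by
        rw [hw]
        push_cast
        ring
      rw [← hw] at ih
      rw [hc1, hc2]
      have h2 : 1 / (w + 1) ^ 2 ≤ 1 / w - 1 / (w + 1) := by
        rw [div_sub_div _ _ hw0.ne' (by linarith), div_le_div_iff₀ (by positivity) (by positivity)]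
        nlinarith
      have hk2 : 0 ≤ 2 * (k : ℝ) ^ 2 := by positivity
      have h3 : 2 * (k : ℝ) ^ 2 / (w + 1) ^ 2 ≤ 2 * (k : ℝ) ^ 2 * (1 / w - 1 / (w + 1)) := by
        have := mul_le_mul_of_nonneg_left h2 hk2
        rwa [mul_one_div] at this
      -- the bounds for the factors
      have hz4 : 4 * (k : ℝ) ^ 2 ≤ z₀ := by exact_mod_cast (by omega : 4 * k ^ 2 ≤ z₀)
      have h4 : 0 ≤ 2 * (k : ℝ) ^ 2 * (1 / z₀ - 1 / w) := by
        apply mul_nonneg hk2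
        have := one_div_le_one_div_of_le hz0 hw1
        linarith
      have h5 : 2 * (k : ℝ) ^ 2 / (w + 1) ^ 2 ≤ 1 := by
        rw [div_le_one (by positivity)]
        nlinarith
      have h6 : 0 ≤ 1 - 2 * (k : ℝ) ^ 2 / (w + 1) ^ 2 := by linarith
      have h7 : 0 ≤ 2 * (k : ℝ) ^ 2 / (w + 1) ^ 2 := by positivity
      have hp := hpos z₀
      calc SS T z₀ * (1 - 2 * (k : ℝ) ^ 2 * (1 / z₀ - 1 / (w + 1)))
          ≤ SS T z₀ * ((1 - 2 * (k : ℝ) ^ 2 * (1 / z₀ - 1 / w)) * (1 - 2 * (k : ℝ) ^ 2 / (w + 1) ^ 2)) := by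
            apply mul_le_mul_of_nonneg_left _ hp.le
            nlinarith [mul_nonneg h4 h7]
        _ = SS T z₀ * (1 - 2 * (k : ℝ) ^ 2 * (1 / z₀ - 1 / w)) * (1 - 2 * (k : ℝ) ^ 2 / (w + 1) ^ 2) := by ring
        _ ≤ SS T (z₀ + j) * (1 - 2 * (k : ℝ) ^ 2 / (w + 1) ^ 2) := mul_le_mul_of_nonneg_right ih h6
  have hhalf : ∀ j : ℕ, SS T z₀ / 2 ≤ SS T (z₀ + j) := by
    intro j
    refine le_trans ?_ (hlow j)
    have hp := hpos z₀
    have hz4 : 4 * (k : ℝ) ^ 2 ≤ z₀ := by exact_mod_cast (by omega : 4 * k ^ 2 ≤ z₀)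
    have h1 : 2 * (k : ℝ) ^ 2 * (1 / z₀ - 1 / ((z₀ + j : ℕ) : ℝ)) ≤ 1 / 2 := by
      have h2 : 0 ≤ 1 / ((z₀ + j : ℕ) : ℝ) := by positivity
      have hk2 : 0 ≤ 2 * (k : ℝ) ^ 2 := by positivity
      calc 2 * (k : ℝ) ^ 2 * (1 / z₀ - 1 / ((z₀ + j : ℕ) : ℝ)) ≤ 2 * (k : ℝ) ^ 2 * (1 / z₀) :=
            mul_le_mul_of_nonneg_left (by linarith) hk2
        _ ≤ 1 / 2 := by
            rw [mul_one_div, div_le_iff₀ hz0]
            linarith
    nlinarith
  have hanti : Antitone (fun j : ℕ => SS T (j + z₀)) := by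
    apply antitone_nat_of_succ_le
    intro j
    have h1 := (hstep (j + z₀) (by omega)).2
    have h2 : j + z₀ + 1 = j + 1 + z₀ := by omega
    rw [h2] at h1
    exact h1
  have hbdd : BddBelow (Set.range (fun j : ℕ => SS T (j + z₀))) := by
    refine ⟨SS T z₀ / 2, ?_⟩
    rintro _ ⟨j, rfl⟩
    have := hhalf j
    rw [add_comm] at this
    exact this
  have h1 := tendsto_atTop_ciInf hanti hbdd
  refine ⟨⨅ j, SS T (j + z₀), ?_, ?_⟩
  · have h2 : SS T z₀ / 2 ≤ ⨅ j, SS T (j + z₀) := by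
      apply le_ciInf
      intro j
      have := hhalf j
      rw [add_comm] at this
      exact this
    have := hpos z₀
    linarith
  · exact (tendsto_add_atTop_iff_nat (f := SS T) z₀).1 h1

end Pool.Agent.T2H62.MD
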