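import Pool.Agent.T2H62.MD.P
import Pool.Agent.T2H62.MD.O
import Pool.Agent.T2H62.MD.G
import Pool.Agent.T2H53.GW.LowB

set_option autoImplicit false

/-! # The expected number of tuples of random primes in short intervals -/

namespace Pool.Agent.T2H62.MD

open Finset Filter Topology
open Pool.Agent.T2H53.GW
open Pool.Agent.H305R2 (VV VV_tendsto)

/-- the products over the primes up to two comparable bounds -/
theorem VV_ratio {u v : ℕ → ℕ} (hu : Tendsto u atTop atTop) (huv : ∀ᶠ N in atTop, u N ≤ v N ∧ v N ≤ 2 * u N) :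
    Tendsto (fun N => VV (v N) / VV (u N)) atTop (𝓝 1) := by
  have hv : Tendsto v atTop atTop := tendsto_atTop_mono' _ (huv.mono fun N h => h.1) hu
  have hT : Tendsto (fun n : ℕ => (n : ℝ)) atTop atTop := tendsto_natCast_atTop_atTop
  have hL : Tendsto (fun n : ℕ => Real.log (n : ℝ)) atTop atTop := Real.tendsto_log_atTop.comp hT
  have h1 := VV_tendsto.comp hu
  have h2 := VV_tendsto.comp hv
  have hG : Real.exp Real.eulerMascheroniConstant ≠ 0 := (Real.exp_pos _).ne'
  have h3 := h2.div h1 hG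
  rw [div_self hG] at h3
  -- the logarithms
  have h4 : Tendsto (fun N => Real.log (v N : ℝ) / Real.log (u N : ℝ)) atTop (𝓝 1) := by
    have h5 : Tendsto (fun N => 1 + Real.log 2 / Real.log (u N : ℝ)) atTop (𝓝 (1 + 0)) :=
      tendsto_const_nhds.add (Tendsto.const_div_atTop (hL.comp hu) _)
    rw [add_zero] at h5
    refine tendsto_of_tendsto_of_tendsto_of_le_of_le' tendsto_const_nhds h5 ?_ ?_
    · filter_upwards [huv, hu.eventually_ge_atTop 2] with N h6 h7
      have h8 : (1 : ℝ) < u N := by exact_mod_cast (by omega : 1 < u N)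
      rw [le_div_iff₀ (Real.log_pos h8), one_mul]
      exact Real.log_le_log (by linarith) (by exact_mod_cast h6.1)
    · filter_upwards [huv, hu.eventually_ge_atTop 2] with N h6 h7
      have h8 : (1 : ℝ) < u N := by exact_mod_cast (by omega : 1 < u N)
      have h9 := Real.log_pos h8
      rw [div_le_iff₀ h9]
      have h10 : (v N : ℝ) ≤ 2 * u N := by exact_mod_cast h6.2
      have h11 : (0 : ℝ) < v N := by
        have : (u N : ℝ) ≤ v N := by exact_mod_cast h6.1
        linarith
      have h12 := Real.log_le_log h11 h10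
      rw [Real.log_mul (by norm_num) (by linarith)] at h12
      have h13 : (1 + Real.log 2 / Real.log (u N : ℝ)) * Real.log (u N : ℝ) = Real.log (u N : ℝ) + Real.log 2 := by
        field_simp
      rw [h13]
      linarith
  have h5 := h3.mul h4
  rw [mul_one] at h5
  refine h5.congr' ?_
  filter_upwards [huv, hu.eventually_ge_atTop 2] with N h6 h7
  have h8 : (1 : ℝ) < u N := by exact_mod_cast (by omega : 1 < u N)
  have h9 : (1 : ℝ) < v N := by exact_mod_cast (by omega : 1 < v N)
  have h10 := Real.log_pos h8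
  have h11 := Real.log_pos h9
  have h12 : 0 < VV (u N) := by linarith [one_le_VV (u N)]
  simp only [Function.comp, Pi.div_apply]
  field_simp

/-- the classes to avoid -/
def XX (T : Finset ℕ) (p : ℕ) : Finset ℕ := T.image (fun h => (p - h % p) % p)

theorem XX_sub (T : Finset ℕ) {p : ℕ} (hp : 0 < p) : XX T p ⊆ range p := by
  intro r hr
  unfold XX at hr
  rw [mem_image] at hr
  obtain ⟨h, _, rfl⟩ := hr
  exact mem_range.2 (Nat.mod_lt _ hp)

theorem XX_card (T : Finset ℕ) {p : ℕ} (hp : 0 < p) : (XX T p).card = nu T p := by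
  have h1 : XX T p = (T.image (fun h => h % p)).image (fun r => (p - r) % p) := by
    unfold XX
    rw [image_image]
    rfl
  rw [h1]
  unfold nu
  apply card_image_of_injOn
  intro a ha b hb hab
  rw [Finset.mem_coe, mem_image] at ha hb
  obtain ⟨a', _, rfl⟩ := ha
  obtain ⟨b', _, rfl⟩ := hb
  have ha1 := Nat.mod_lt a' hp
  have hb1 := Nat.mod_lt b' hp
  simp only at hab
  obtain ⟨a, haa⟩ : ∃ a, a = a' % p := ⟨_, rfl⟩
  obtain ⟨b, hbb⟩ : ∃ b, b = b' % p := ⟨_, rfl⟩
  rw [← haa] at ha1 hab ⊢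
  rw [← hbb] at hb1 hab ⊢
  rcases Nat.eq_zero_or_pos a with h | h
  · rcases Nat.eq_zero_or_pos b with h' | h'
    · rw [h, h']
    · rw [h, Nat.sub_zero, Nat.mod_self, Nat.mod_eq_of_lt (by omega)] at hab
      omega
  · rcases Nat.eq_zero_or_pos b with h' | h'
    · rw [h', Nat.sub_zero, Nat.mod_self, Nat.mod_eq_of_lt (by omega)] at hab
      omega
    · rw [Nat.mod_eq_of_lt (by omega), Nat.mod_eq_of_lt (by omega)] at hab
      omega

theorem XX_iff (T : Finset ℕ) {p : ℕ} (hp : 0 < p) (n : ℕ) : n % p ∉ XX T p ↔ ∀ h ∈ T, ¬ p ∣ n + h := by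
  unfold XX
  simp only [mem_image, not_exists, not_and]
  refine forall_congr' fun h => forall_congr' fun _ => ?_
  rw [not_iff_not]
  have h1 := Nat.mod_lt h hp
  have h2 := Nat.mod_lt n hp
  rw [Nat.dvd_iff_mod_eq_zero, Nat.add_mod]
  obtain ⟨a, ha⟩ : ∃ a, a = n % p := ⟨_, rfl⟩
  obtain ⟨b, hb⟩ : ∃ b, b = h % p := ⟨_, rfl⟩
  rw [← ha] at h2 ⊢
  rw [← hb] at h1 ⊢
  rcases Nat.eq_zero_or_pos b with h' | h'
  · rw [h', Nat.sub_zero, Nat.mod_self, add_zero, Nat.mod_eq_of_lt h2]
    exact eq_comm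
  · rw [Nat.mod_eq_of_lt (by omega : p - b < p)]
    constructor
    · intro h3
      rw [← h3, Nat.sub_add_cancel (by omega), Nat.mod_self]
    · intro h3
      have h4 : p ∣ a + b := Nat.dvd_of_mod_eq_zero h3
      obtain ⟨q, hq⟩ := h4
      have h5 : q < 2 := by
        by_contra h6
        have : p * 2 ≤ p * q := Nat.mul_le_mul_left _ (by omega)
        omega
      interval_cases q <;> omega

end Pool.Agent.T2H62.MD
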