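import Pool.Agent.T2H62.MD.Q

set_option autoImplicit false

/-! # The expected number of tuples of random primes in short intervals: asymptotics -/

namespace Pool.Agent.T2H62.MD

open Finset Filter Topology
open Pool.Agent.T2H53.GW
open Pool.Agent.H305R2 (VV VV_tendsto)

theorem SS_eq (T : Finset ℕ) (z : ℕ) : SS T z = (∏ p ∈ PJ z, (1 - (nu T p : ℝ) / p)) * VV z ^ T.card := by
  unfold SS
  rw [prod_mul_distrib, prod_pow]
  rfl

theorem PJ_sub {i j : ℕ} (h : i ≤ j) : PJ i ⊆ PJ j := by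
  intro p hp
  unfold PJ at hp ⊢
  rw [mem_filter, mem_Icc] at hp ⊢
  exact ⟨⟨hp.1.1, hp.1.2.trans h⟩, hp.2⟩

/-- upper bound for the probability of a tuple -/
theorem tuple_up (A : ℝ) (hA : 0 < A) (T : Finset ℕ) (y : ℕ) (hT : T ⊆ Icc 1 y) (N n : ℕ) (hN : 3 ≤ N) (hyN : y ≤ N)
    (h1 : N < n) (h2 : n ≤ 2 * N) [Decidable (∀ p ∈ PJ ⌊A * Real.log N⌋₊, n % p ∉ XX T p)] :
    ∏ h ∈ T, pr A (n + h) ≤ (if ∀ p ∈ PJ ⌊A * Real.log N⌋₊, n % p ∉ XX T p then
      (VV ⌊A * Real.log (4 * N)⌋₊ / Real.log N) ^ T.card else 0) := by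
  have hN0 : (0 : ℝ) < N := by exact_mod_cast (by omega : 0 < N)
  have hL : 0 < Real.log (N : ℝ) := Real.log_pos (by exact_mod_cast (by omega : 1 < N))
  have hlog : ∀ h ∈ T, Real.log N ≤ Real.log ((n + h : ℕ) : ℝ) ∧ Real.log ((n + h : ℕ) : ℝ) ≤ Real.log (4 * N) := by
    intro h hh
    have h3 := mem_Icc.1 (hT hh)
    constructor
    · exact Real.log_le_log hN0 (by exact_mod_cast (by omega : N ≤ n + h))
    · exact Real.log_le_log (by exact_mod_cast (by omega : 0 < n + h)) (by exact_mod_cast (by omega : n + h ≤ 4 * N))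
  split_ifs with hc
  · rw [← prod_const]
    refine prod_le_prod (fun h _ => pr_nonneg A _) fun h hh => ?_
    obtain ⟨l1, l2⟩ := hlog h hh
    have h3 : pr A (n + h) ≤ VV ⌊A * Real.log ((n + h : ℕ) : ℝ)⌋₊ / Real.log ((n + h : ℕ) : ℝ) := by
      unfold pr
      split_ifs
      · exact min_le_right _ _
      · have h4 := one_le_VV ⌊A * Real.log ((n + h : ℕ) : ℝ)⌋₊
        have h5 : 0 < Real.log ((n + h : ℕ) : ℝ) := by linarith
        positivity
    refine h3.trans ?_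
    have h4 : VV ⌊A * Real.log ((n + h : ℕ) : ℝ)⌋₊ ≤ VV ⌊A * Real.log (4 * N)⌋₊ := by
      apply VV_mono
      apply Nat.floor_le_floor
      exact mul_le_mul_of_nonneg_left l2 hA.le
    have h5 := one_le_VV ⌊A * Real.log (4 * (N : ℝ))⌋₊
    exact div_le_div₀ (by linarith) h4 hL l1
  · push Not at hc
    obtain ⟨p, hp, hpX⟩ := hc
    have hpp := PJ_prime hp
    have h3 : ¬ (∀ h ∈ T, ¬ p ∣ n + h) := by
      rw [← XX_iff T hpp.pos n]
      exact not_not.2 hpX
    push Not at h3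
    obtain ⟨h, hh, hd⟩ := h3
    refine (prod_eq_zero hh ?_).le
    unfold pr
    rw [if_neg]
    intro h4
    refine h4 p hpp ?_ hd
    have h5 : p ≤ ⌊A * Real.log N⌋₊ := by
      unfold PJ at hp
      exact (mem_Icc.1 (mem_filter.1 hp).1).2
    have h6 : (p : ℝ) ≤ A * Real.log N := by
      refine le_trans (by exact_mod_cast h5) (Nat.floor_le (by positivity))
    exact h6.trans (mul_le_mul_of_nonneg_left (hlog h hh).1 hA.le)

/-- lower bound for the probability of a tuple -/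
theorem tuple_low (A : ℝ) (hA : 0 < A) (T : Finset ℕ) (y : ℕ) (hT : T ⊆ Icc 1 y) (N n : ℕ) (hN : 3 ≤ N) (hyN : y ≤ N)
    (h1 : N < n) (h2 : n ≤ 2 * N) (hV : VV ⌊A * Real.log N⌋₊ ≤ Real.log N)
    [Decidable (∀ p ∈ PJ ⌊A * Real.log (4 * N)⌋₊, n % p ∉ XX T p)] :
    (if ∀ p ∈ PJ ⌊A * Real.log (4 * N)⌋₊, n % p ∉ XX T p then
      (VV ⌊A * Real.log N⌋₊ / Real.log (4 * N)) ^ T.card else 0) ≤ ∏ h ∈ T, pr A (n + h) := by
  have hN0 : (0 : ℝ) < N := by exact_mod_cast (by omega : 0 < N)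
  have hL : 0 < Real.log (N : ℝ) := Real.log_pos (by exact_mod_cast (by omega : 1 < N))
  have hlog : ∀ h ∈ T, Real.log N ≤ Real.log ((n + h : ℕ) : ℝ) ∧ Real.log ((n + h : ℕ) : ℝ) ≤ Real.log (4 * N) := by
    intro h hh
    have h3 := mem_Icc.1 (hT hh)
    constructor
    · exact Real.log_le_log hN0 (by exact_mod_cast (by omega : N ≤ n + h))
    · exact Real.log_le_log (by exact_mod_cast (by omega : 0 < n + h)) (by exact_mod_cast (by omega : n + h ≤ 4 * N))
  have hL4 : 0 < Real.log (4 * (N : ℝ)) := by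
    refine lt_of_lt_of_le hL (Real.log_le_log hN0 (by linarith))
  have hV0 := one_le_VV ⌊A * Real.log (N : ℝ)⌋₊
  split_ifs with hc
  · rw [← prod_const]
    refine prod_le_prod (fun h _ => by positivity) fun h hh => ?_
    obtain ⟨l1, l2⟩ := hlog h hh
    unfold pr
    rw [if_pos]
    · apply le_min
      · rw [div_le_one hL4]
        exact hV.trans (Real.log_le_log hN0 (by linarith))
      · have h4 : VV ⌊A * Real.log N⌋₊ ≤ VV ⌊A * Real.log ((n + h : ℕ) : ℝ)⌋₊ := by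
          apply VV_mono
          apply Nat.floor_le_floor
          exact mul_le_mul_of_nonneg_left l1 hA.le
        exact div_le_div₀ (by linarith) h4 (by linarith) l2
    · intro p hpp hpl
      have hp : p ∈ PJ ⌊A * Real.log (4 * N)⌋₊ := by
        unfold PJ
        rw [mem_filter, mem_Icc]
        refine ⟨⟨hpp.one_lt.le, ?_⟩, hpp⟩
        apply Nat.le_floor
        exact hpl.trans (mul_le_mul_of_nonneg_left l2 hA.le)
      exact (XX_iff T hpp.pos n).1 (hc p hp) h hh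
  · exact prod_nonneg fun h _ => pr_nonneg A _

/-- the error terms -/
theorem err_tuple (A : ℝ) (hA : 0 < A) (k : ℕ) (ε δ : ℝ) (hε : 0 < ε) (hδ : 0 < δ) : ∀ᶠ N : ℕ in atTop,
    VV ⌊A * Real.log (4 * N)⌋₊ ^ k * ((k : ℝ) + 1) ^ (PJ ⌊A * Real.log (4 * N)⌋₊).card ≤ δ * (N : ℝ) ^ ε := by
  have hT : Tendsto (fun n : ℕ => (n : ℝ)) atTop atTop := tendsto_natCast_atTop_atTop
  have hL : Tendsto (fun n : ℕ => Real.log (n : ℝ)) atTop atTop := Real.tendsto_log_atTop.comp hT
  have hL4 : Tendsto (fun n : ℕ => Real.log (4 * (n : ℝ))) atTop atTop :=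
    Real.tendsto_log_atTop.comp (hT.const_mul_atTop (by norm_num))
  have hJ : Tendsto (fun x : ℕ => ⌊A * Real.log (4 * x)⌋₊) atTop atTop :=
    tendsto_nat_floor_atTop.comp (hL4.const_mul_atTop hA)
  obtain ⟨w, hw⟩ : ∃ w : ℝ, w = (k : ℝ) * Real.log 2 + Real.log ((k : ℝ) + 1) + 1 := ⟨_, rfl⟩
  have hk0 : (0 : ℝ) ≤ k := Nat.cast_nonneg _
  have hlk : 0 ≤ Real.log ((k : ℝ) + 1) := Real.log_nonneg (by linarith)
  have hl2 : 0 < Real.log 2 := Real.log_pos (by norm_num)
  have hw0 : 0 < w := by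
    rw [hw]
    positivity
  obtain ⟨η, hη⟩ : ∃ η : ℝ, η = ε / (4 * A * w) := ⟨_, rfl⟩
  have hη0 : 0 < η := by rw [hη]; positivity
  filter_upwards [hJ.eventually (pi_small η hη0), rpow_big (1 / δ) (ε / 2) (by positivity),
    hL.eventually_ge_atTop (Real.log 4), eventually_ge_atTop 3] with N h1 h2 h3 h4
  have hN0 : (0 : ℝ) < N := by exact_mod_cast (by omega : 0 < N)
  obtain ⟨j, hj⟩ : ∃ j, j = ⌊A * Real.log (4 * N)⌋₊ := ⟨_, rfl⟩
  obtain ⟨c, hc⟩ : ∃ c, c = (PJ j).card := ⟨_, rfl⟩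
  rw [← hj] at h1 ⊢
  rw [← hc] at h1 ⊢
  have hV := VV_le j
  rw [← hc] at hV
  have hV0 := one_le_VV j
  have hlogN : Real.log (4 * (N : ℝ)) ≤ 2 * Real.log N := by
    rw [Real.log_mul (by norm_num) hN0.ne']
    linarith
  have hlN : 0 < Real.log (N : ℝ) := Real.log_pos (by exact_mod_cast (by omega : 1 < N))
  have hj1 : (j : ℝ) ≤ A * (2 * Real.log N) := by
    rw [hj]
    refine (Nat.floor_le ?_).trans (mul_le_mul_of_nonneg_left hlogN hA.le)
    have : 0 ≤ Real.log (4 * (N : ℝ)) := by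
      rw [Real.log_mul (by norm_num) hN0.ne']
      have := Real.log_nonneg (by norm_num : (1 : ℝ) ≤ 4)
      linarith
    positivity
  have hcw : (c : ℝ) * w ≤ ε / 2 * Real.log N := by
    calc (c : ℝ) * w ≤ (η * (A * (2 * Real.log N))) * w :=
          mul_le_mul_of_nonneg_right (h1.trans (mul_le_mul_of_nonneg_left hj1 hη0.le)) hw0.le
      _ = ε / 2 * Real.log N := by
          rw [hη]
          field_simp
          ring
  calc VV j ^ k * ((k : ℝ) + 1) ^ c ≤ ((2 : ℝ) ^ c) ^ k * ((k : ℝ) + 1) ^ c := by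
        apply mul_le_mul_of_nonneg_right _ (by positivity)
        exact pow_le_pow_left₀ (by linarith) hV k
    _ = Real.exp ((c : ℝ) * ((k : ℝ) * Real.log 2 + Real.log ((k : ℝ) + 1))) := by
        rw [mul_add, Real.exp_add]
        congr 1
        · rw [← pow_mul, ← Real.rpow_natCast, Real.rpow_def_of_pos (by norm_num)]
          congr 1
          push_cast
          ring
        · rw [← Real.rpow_natCast, Real.rpow_def_of_pos (by positivity)]
          congr 1
          ring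
    _ ≤ Real.exp (ε / 2 * Real.log N) := by
        apply Real.exp_le_exp.2
        refine le_trans ?_ hcw
        rw [hw]
        have : (0 : ℝ) ≤ c := Nat.cast_nonneg _
        nlinarith
    _ = (N : ℝ) ^ (ε / 2) := by
        rw [Real.rpow_def_of_pos hN0]
        congr 1
        ring
    _ ≤ δ * ((N : ℝ) ^ (ε / 2) * (N : ℝ) ^ (ε / 2)) := by
        have h5 : 0 < (N : ℝ) ^ (ε / 2) := by positivity
        have h6 : 1 ≤ δ * (N : ℝ) ^ (ε / 2) := by
          rw [div_lt_iff₀ hδ] at h2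
          linarith
        nlinarith
    _ = δ * (N : ℝ) ^ ε := by
        rw [← Real.rpow_add hN0]
        congr 2
        ring

end Pool.Agent.T2H62.MD
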