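import Pool.Agent.T2H62.MD.R

set_option autoImplicit false

/-! # The expected number of tuples of random primes in short intervals: the asymptotic formula -/

namespace Pool.Agent.T2H62.MD

open Finset Filter Topology
open Pool.Agent.T2H53.GW
open Pool.Agent.H305R2 (VV VV_tendsto)

theorem prodX_le (T : Finset ℕ) (j j' : ℕ) (h : j ≤ j') :
    ∏ p ∈ PJ j, (1 + ((XX T p).card : ℝ)) ≤ ((T.card : ℝ) + 1) ^ (PJ j').card := by
  have hk : (1 : ℝ) ≤ (T.card : ℝ) + 1 := by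
    have : (0 : ℝ) ≤ T.card := Nat.cast_nonneg _
    linarith
  calc ∏ p ∈ PJ j, (1 + ((XX T p).card : ℝ)) ≤ ∏ p ∈ PJ j, ((T.card : ℝ) + 1) := by
        refine prod_le_prod (fun p _ => by positivity) fun p hp => ?_
        rw [XX_card T (PJ_prime hp).pos]
        have : (nu T p : ℝ) ≤ T.card := by exact_mod_cast nu_le T p
        linarith
    _ = ((T.card : ℝ) + 1) ^ (PJ j).card := prod_const _
    _ ≤ ((T.card : ℝ) + 1) ^ (PJ j').card := pow_le_pow_right₀ hk (PJ_mono h)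

theorem leg_tuple (T : Finset ℕ) (j j' : ℕ) (h : j ≤ j') (a b : ℕ) (hab : a ≤ b) :
    |(NX (PJ j) (XX T) 1 0 a b : ℝ) - ((b : ℝ) - a) * ∏ p ∈ PJ j, (1 - (nu T p : ℝ) / p)| ≤
      ((T.card : ℝ) + 1) ^ (PJ j').card := by
  have h1 := legX (PJ j) (XX T) (fun p hp => PJ_prime hp) (fun p hp => XX_sub T (PJ_prime hp).pos) 1 (by norm_num)
    (fun p _ => Nat.coprime_one_left p) 0 a b hab
  have h2 : ∏ p ∈ PJ j, (1 - ((XX T p).card : ℝ) / p) = ∏ p ∈ PJ j, (1 - (nu T p : ℝ) / p) :=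
    prod_congr rfl fun p hp => by rw [XX_card T (PJ_prime hp).pos]
  rw [h2, Nat.cast_one, div_one] at h1
  exact h1.trans (prodX_le T j j' h)

theorem mean_HL (A : ℝ) (hA : 0 < A) (T : Finset ℕ) (y : ℕ) (hT : T ⊆ Icc 1 y) (s : ℝ) (hs0 : 0 < s)
    (hs : Tendsto (SS T) atTop (𝓝 s)) (ε δ : ℝ) (hε : 0 < ε) (hδ : 0 < δ) :
    ∀ᶠ N : ℕ in atTop, ∀ M : ℕ, (N : ℝ) + (N : ℝ) ^ ε ≤ M → M ≤ 2 * N →
      |∑ n ∈ Ioc N M, ∏ h ∈ T, pr A (n + h) - s * (((M : ℝ) - N) / Real.log N ^ T.card)| ≤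
        δ * (((M : ℝ) - N) / Real.log N ^ T.card) := by
  classical
  obtain ⟨k, hk⟩ : ∃ k, k = T.card := ⟨_, rfl⟩
  have hTn : Tendsto (fun n : ℕ => (n : ℝ)) atTop atTop := tendsto_natCast_atTop_atTop
  have hL : Tendsto (fun n : ℕ => Real.log (n : ℝ)) atTop atTop := Real.tendsto_log_atTop.comp hTn
  have hL4 : Tendsto (fun n : ℕ => Real.log (4 * (n : ℝ))) atTop atTop :=
    Real.tendsto_log_atTop.comp (hTn.const_mul_atTop (by norm_num))
  obtain ⟨j₁, hj₁⟩ : ∃ j₁ : ℕ → ℕ, j₁ = fun N : ℕ => ⌊A * Real.log N⌋₊ := ⟨_, rfl⟩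
  obtain ⟨j₂, hj₂⟩ : ∃ j₂ : ℕ → ℕ, j₂ = fun N : ℕ => ⌊A * Real.log (4 * N)⌋₊ := ⟨_, rfl⟩
  have t1 : Tendsto j₁ atTop atTop := by
    rw [hj₁]
    exact tendsto_nat_floor_atTop.comp (hL.const_mul_atTop hA)
  have t2 : Tendsto j₂ atTop atTop := by
    rw [hj₂]
    exact tendsto_nat_floor_atTop.comp (hL4.const_mul_atTop hA)
  have hl4 : 0 < Real.log 4 := Real.log_pos (by norm_num)
  have huv : ∀ᶠ N in atTop, j₁ N ≤ j₂ N ∧ j₂ N ≤ 2 * j₁ N := by
    filter_upwards [t1.eventually_ge_atTop (⌊A * Real.log 4⌋₊ + 2), eventually_ge_atTop 3] with N h1 h2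
    have hN0 : (0 : ℝ) < N := by exact_mod_cast (by omega : 0 < N)
    have hlN : 0 < Real.log (N : ℝ) := Real.log_pos (by exact_mod_cast (by omega : 1 < N))
    constructor
    · rw [hj₁, hj₂]
      apply Nat.floor_le_floor
      exact mul_le_mul_of_nonneg_left (Real.log_le_log hN0 (by linarith)) hA.le
    · have h3 : j₂ N ≤ ⌊A * Real.log 4⌋₊ + 1 + j₁ N := by
        rw [hj₂]
        apply Nat.le_of_lt_succ
        rw [Nat.floor_lt (by
          have : 0 ≤ Real.log (4 * (N : ℝ)) := by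
            rw [Real.log_mul (by norm_num) hN0.ne']
            linarith
          positivity)]
        have h4 := Nat.lt_floor_add_one (A * Real.log 4)
        have h5 := Nat.lt_floor_add_one (A * Real.log (N : ℝ))
        have h6 : ((j₁ N : ℕ) : ℝ) = (⌊A * Real.log (N : ℝ)⌋₊ : ℝ) := by rw [hj₁]
        rw [Real.log_mul (by norm_num) hN0.ne']
        push_cast
        rw [h6]
        linarith
      omega
  have hr := VV_ratio t1 huv
  have hr' : Tendsto (fun N => VV (j₁ N) / VV (j₂ N)) atTop (𝓝 1) := by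
    have h1 := hr.inv₀ one_ne_zero
    rw [inv_one] at h1
    refine h1.congr fun N => ?_
    simp only [inv_div]
  have hll : Tendsto (fun N : ℕ => Real.log (N : ℝ) / Real.log (4 * (N : ℝ))) atTop (𝓝 1) := by
    have h1 : Tendsto (fun N : ℕ => 1 - Real.log 4 / Real.log (4 * (N : ℝ))) atTop (𝓝 (1 - 0)) :=
      tendsto_const_nhds.sub (Tendsto.const_div_atTop hL4 _)
    rw [sub_zero] at h1
    refine h1.congr' ?_
    filter_upwards [eventually_ge_atTop 3] with N h2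
    have hN0 : (0 : ℝ) < N := by exact_mod_cast (by omega : 0 < N)
    have hlN : 0 < Real.log (N : ℝ) := Real.log_pos (by exact_mod_cast (by omega : 1 < N))
    rw [Real.log_mul (by norm_num) hN0.ne']
    have : Real.log 4 + Real.log (N : ℝ) ≠ 0 := by positivity
    field_simp
    ring
  -- the two factors
  have ha : Tendsto (fun N => SS T (j₁ N) * (VV (j₂ N) / VV (j₁ N)) ^ k) atTop (𝓝 (s * 1 ^ k)) :=
    (hs.comp t1).mul (hr.pow k)
  have hb : Tendsto (fun N : ℕ => SS T (j₂ N) * (VV (j₁ N) / VV (j₂ N)) ^ k * (Real.log (N : ℝ) / Real.log (4 * (N : ℝ))) ^ k)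
      atTop (𝓝 (s * 1 ^ k * 1 ^ k)) :=
    ((hs.comp t2).mul (hr'.pow k)).mul (hll.pow k)
  rw [one_pow, mul_one] at ha hb
  rw [mul_one] at hb
  have hVV : ∀ᶠ N : ℕ in atTop, VV (j₁ N) ≤ Real.log N := by
    have h1 := hL.eventually (VV_ev A 1 hA one_pos le_rfl)
    have h2 : (fun u : ℝ => (1 + 1) * GG * Real.log u) =o[atTop] (fun u : ℝ => u) :=
      Real.isLittleO_log_id_atTop.const_mul_left _
    have h3 := h2.bound one_pos
    filter_upwards [h1, hL.eventually h3, hL.eventually_ge_atTop 1] with N h4 h5 h6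
    rw [hj₁]
    refine h4.trans ?_
    rw [Real.norm_eq_abs, Real.norm_eq_abs, one_mul, abs_of_nonneg (by linarith : (0 : ℝ) ≤ Real.log N)] at h5
    exact (le_abs_self _).trans h5
  filter_upwards [ha.eventually (eventually_le_nhds (show s < s + δ / 2 by linarith)),
    hb.eventually (eventually_ge_nhds (show s - δ / 2 < s by linarith)),
    err_tuple A hA k ε (δ / 2) hε (by positivity), hVV, huv, eventually_ge_atTop 3, eventually_ge_atTop y]
    with N e1 e2 e3 e4 e5 e6 e7 M hM1 hM2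
  have hN0 : (0 : ℝ) < N := by exact_mod_cast (by omega : 0 < N)
  have hlN : 0 < Real.log (N : ℝ) := Real.log_pos (by exact_mod_cast (by omega : 1 < N))
  have hNe : 0 < (N : ℝ) ^ ε := by positivity
  have hNM : N ≤ M := by
    have : (N : ℝ) ≤ M := by linarith
    exact_mod_cast this
  have hl4N : Real.log (N : ℝ) ≤ Real.log (4 * (N : ℝ)) := Real.log_le_log hN0 (by linarith)
  have hV1 := one_le_VV (j₁ N)
  have hV2 := one_le_VV (j₂ N)
  have hV12 : VV (j₁ N) ≤ VV (j₂ N) := VV_mono e5.1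
  have hj2' : ⌊A * Real.log (4 * (N : ℝ))⌋₊ = j₂ N := by rw [hj₂]
  have hj1' : ⌊A * Real.log (N : ℝ)⌋₊ = j₁ N := by rw [hj₁]
  rw [hj2'] at e3
  rw [← hk]
  obtain ⟨L, hLd⟩ : ∃ L, L = Real.log (N : ℝ) := ⟨_, rfl⟩
  obtain ⟨L4, hL4d⟩ : ∃ L4, L4 = Real.log (4 * (N : ℝ)) := ⟨_, rfl⟩
  obtain ⟨v₁, hv₁⟩ : ∃ v, v = VV (j₁ N) := ⟨_, rfl⟩
  obtain ⟨v₂, hv₂⟩ : ∃ v, v = VV (j₂ N) := ⟨_, rfl⟩
  obtain ⟨W, hW⟩ : ∃ W : ℝ, W = ((k : ℝ) + 1) ^ (PJ (j₂ N)).card := ⟨_, rfl⟩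
  obtain ⟨D, hD⟩ : ∃ D : ℝ, D = (M : ℝ) - N := ⟨_, rfl⟩
  have hD0 : 0 < D := by rw [hD]; linarith
  have hDe : (N : ℝ) ^ ε ≤ D := by rw [hD]; linarith
  have hW0 : 0 < W := by rw [hW]; positivity
  -- the two error terms
  have herr : v₂ ^ k * W ≤ δ / 2 * D := by
    rw [hv₂, hW]
    exact e3.trans (mul_le_mul_of_nonneg_left hDe (by positivity))
  rw [← hLd, ← hL4d] at hl4N
  rw [← hLd] at hlN ⊢
  rw [← hv₁, ← hv₂] at hV12
  rw [← hv₁] at hV1
  rw [← hv₂] at hV2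
  rw [← hD]
  have hL40 : 0 < L4 := by linarith
  have hv10 : 0 < v₁ := by linarith
  have hv20 : 0 < v₂ := by linarith
  have hLk : 0 < L ^ k := by positivity
  have hL4k : 0 < L4 ^ k := by positivity
  -- the counting function
  have hcount : ∀ j : ℕ, ∀ c : ℝ, ∑ n ∈ Ioc N M, (if ∀ p ∈ PJ j, n % p ∉ XX T p then c else 0) =
      (NX (PJ j) (XX T) 1 0 N M : ℝ) * c := by
    intro j c
    rw [← sum_filter, sum_const, nsmul_eq_mul]
    congr 2
    unfold NX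
    congr 1
    apply filter_congr
    intro n _
    simp [Nat.modEq_one]
  rw [abs_le]
  constructor
  · -- lower bound
    have h1 : ∑ n ∈ Ioc N M, (if ∀ p ∈ PJ (j₂ N), n % p ∉ XX T p then (v₁ / L4) ^ k else 0) ≤
        ∑ n ∈ Ioc N M, ∏ h ∈ T, pr A (n + h) := by
      refine sum_le_sum fun n hn => ?_
      rw [mem_Ioc] at hn
      have h2 := tuple_low A hA T y hT N n e6 e7 hn.1 (by omega) (by rw [hj1']; exact e4)
      rw [hj2', hj1', ← hL4d, ← hv₁, ← hk] at h2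
      exact h2
    rw [hcount] at h1
    have h2 := (abs_le.1 (leg_tuple T (j₂ N) (j₂ N) le_rfl N M hNM)).1
    rw [← hD, ← hk, ← hW] at h2
    obtain ⟨P, hP⟩ : ∃ P : ℝ, P = ∏ p ∈ PJ (j₂ N), (1 - (nu T p : ℝ) / p) := ⟨_, rfl⟩
    rw [← hP] at h2
    have hSS : SS T (j₂ N) = P * v₂ ^ k := by rw [SS_eq, hP, hv₂, hk]
    rw [hSS, ← hv₁, ← hv₂, ← hLd, ← hL4d] at e2
    have hvL : 0 ≤ (v₁ / L4) ^ k := by positivity
    have h3 : (D * P - W) * (v₁ / L4) ^ k ≤ (NX (PJ (j₂ N)) (XX T) 1 0 N M : ℝ) * (v₁ / L4) ^ k :=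
      mul_le_mul_of_nonneg_right (by linarith) hvL
    have h4 : D * P * (v₁ / L4) ^ k = D / L ^ k * (P * v₂ ^ k * (v₁ / v₂) ^ k * (L / L4) ^ k) := by
      rw [div_pow, div_pow, div_pow]
      have : v₂ ^ k ≠ 0 := by positivity
      field_simp
    have h5 : W * (v₁ / L4) ^ k ≤ δ / 2 * (D / L ^ k) := by
      have h6 : (v₁ / L4) ^ k ≤ v₂ ^ k / L ^ k := by
        rw [div_pow]
        exact div_le_div₀ (by positivity) (pow_le_pow_left₀ (by linarith) hV12 k) hLk (pow_le_pow_left₀ hlN.le hl4N k)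
      calc W * (v₁ / L4) ^ k ≤ W * (v₂ ^ k / L ^ k) := mul_le_mul_of_nonneg_left h6 hW0.le
        _ = (v₂ ^ k * W) / L ^ k := by ring
        _ ≤ (δ / 2 * D) / L ^ k := div_le_div_of_nonneg_right herr hLk.le
        _ = δ / 2 * (D / L ^ k) := by ring
    have h6 : (s - δ / 2) * (D / L ^ k) ≤ D / L ^ k * (P * v₂ ^ k * (v₁ / v₂) ^ k * (L / L4) ^ k) := by
      rw [mul_comm]
      exact mul_le_mul_of_nonneg_left e2 (by positivity)
    nlinarith
  · -- upper bound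
    have h1 : ∑ n ∈ Ioc N M, ∏ h ∈ T, pr A (n + h) ≤
        ∑ n ∈ Ioc N M, (if ∀ p ∈ PJ (j₁ N), n % p ∉ XX T p then (v₂ / L) ^ k else 0) := by
      refine sum_le_sum fun n hn => ?_
      rw [mem_Ioc] at hn
      have h2 := tuple_up A hA T y hT N n e6 e7 hn.1 (by omega)
      rw [hj2', hj1', ← hLd, ← hv₂, ← hk] at h2
      exact h2
    rw [hcount] at h1
    have h2 := (abs_le.1 (leg_tuple T (j₁ N) (j₂ N) e5.1 N M hNM)).2
    rw [← hD, ← hk, ← hW] at h2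
    obtain ⟨P, hP⟩ : ∃ P : ℝ, P = ∏ p ∈ PJ (j₁ N), (1 - (nu T p : ℝ) / p) := ⟨_, rfl⟩
    rw [← hP] at h2
    have hSS : SS T (j₁ N) = P * v₁ ^ k := by rw [SS_eq, hP, hv₁, hk]
    rw [hSS, ← hv₁, ← hv₂] at e1
    have hvL : 0 ≤ (v₂ / L) ^ k := by positivity
    have h3 : (NX (PJ (j₁ N)) (XX T) 1 0 N M : ℝ) * (v₂ / L) ^ k ≤ (D * P + W) * (v₂ / L) ^ k :=
      mul_le_mul_of_nonneg_right (by linarith) hvL
    have h4 : D * P * (v₂ / L) ^ k = D / L ^ k * (P * v₁ ^ k * (v₂ / v₁) ^ k) := by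
      rw [div_pow, div_pow]
      have : v₁ ^ k ≠ 0 := by positivity
      field_simp
    have h5 : W * (v₂ / L) ^ k ≤ δ / 2 * (D / L ^ k) := by
      rw [div_pow]
      calc W * (v₂ ^ k / L ^ k) = (v₂ ^ k * W) / L ^ k := by ring
        _ ≤ (δ / 2 * D) / L ^ k := div_le_div_of_nonneg_right herr hLk.le
        _ = δ / 2 * (D / L ^ k) := by ring
    have h6 : D / L ^ k * (P * v₁ ^ k * (v₂ / v₁) ^ k) ≤ (s + δ / 2) * (D / L ^ k) := by
      rw [mul_comm]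
      exact mul_le_mul_of_nonneg_right e1 (by positivity)
    nlinarith

end Pool.Agent.T2H62.MD
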