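import Pool.Agent.T2H62.MD.U
import Pool.Agent.T2H62.MD.K
import Pool.Agent.T2H62.MD.M

set_option autoImplicit false

/-! # Random primes: counts in short intervals and between squares -/

namespace Pool.Agent.T2H62.MD

open Finset Filter Topology MeasureTheory ProbabilityTheory
open Pool.Agent.T2H53.GW
open Pool.Agent.H305R2 (VV VV_tendsto)

theorem nu_one (p : ℕ) : nu {1} p = 1 := by
  unfold nu
  simp

theorem SS_one (z : ℕ) : SS {1} z = 1 := by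
  unfold SS
  apply prod_eq_one
  intro p hp
  have hpp := PJ_prime hp
  have h1 : (1 : ℝ) < p := by exact_mod_cast hpp.one_lt
  have h2 : (p : ℝ)⁻¹ < 1 := inv_lt_one_of_one_lt₀ h1
  have h3 : (1 : ℝ) - (p : ℝ)⁻¹ ≠ 0 := by
    have : 0 < 1 - (p : ℝ)⁻¹ := by linarith
    exact this.ne'
  rw [nu_one, card_singleton, pow_one, Nat.cast_one, one_div]
  exact mul_inv_cancel₀ h3

/-- the squares of consecutive elements -/
theorem squares {R : Set ℕ} [DecidablePred (· ∈ R)]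
    (h1 : ∀ ε δ : ℝ, 0 < ε → 0 < δ → ∀ᶠ N : ℕ in atTop, ∀ M : ℕ, (N : ℝ) + (N : ℝ) ^ ε ≤ M → M ≤ 2 * N →
      |(((Ioc N M).filter (fun n => n + 1 ∈ R)).card : ℝ) - ((M : ℝ) - N) / Real.log N| ≤ δ * (((M : ℝ) - N) / Real.log N))
    (h2 : ∀ᶠ N : ℕ in atTop, ∃ n ∈ Ioc N (N + ⌊Real.log N ^ (3 : ℝ)⌋₊), n ∈ R) (δ : ℝ) (hδ : 0 < δ) (hδ1 : δ ≤ 1) :
    ∀ᶠ r : ℕ in atTop, ∀ r' : ℕ, r < r' → (∀ n ∈ Ioo r r', n ∉ R) →
      |(((Ioo (r ^ 2) (r' ^ 2)).filter (fun n => n ∈ R)).card : ℝ) - ((r' : ℝ) ^ 2 - r ^ 2) / (2 * Real.log r)| ≤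
        δ * (((r' : ℝ) ^ 2 - r ^ 2) / (2 * Real.log r)) := by
  have hTn : Tendsto (fun n : ℕ => (n : ℝ)) atTop atTop := tendsto_natCast_atTop_atTop
  have hL : Tendsto (fun n : ℕ => Real.log (n : ℝ)) atTop atTop := Real.tendsto_log_atTop.comp hTn
  have hsq : Tendsto (fun r : ℕ => r ^ 2 - 1) atTop atTop := by
    refine tendsto_atTop.2 fun b => ?_
    filter_upwards [eventually_ge_atTop (b + 2)] with r hr
    have : b + 2 ≤ r ^ 2 := by nlinarith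
    omega
  filter_upwards [hsq.eventually (h1 (1 / 2) (δ / 4) (by norm_num) (by positivity)), h2,
    log_pow_small 3 8 1 one_pos (by norm_num), hL.eventually_ge_atTop (8 / δ + 2), eventually_ge_atTop (⌈8 / δ⌉₊ + 8)]
    with r e1 e2 e3 e4 e5 r' hrr hno
  have hr8 : 8 ≤ r := by omega
  have hr0 : (0 : ℝ) < r := by exact_mod_cast (by omega : 0 < r)
  have hr8' : (8 : ℝ) ≤ r := by exact_mod_cast hr8
  have hδ8 : 0 < 8 / δ := by positivity
  have hlr : 2 < Real.log (r : ℝ) := by linarith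
  have hrδ : 8 / δ ≤ r := by
    refine (Nat.le_ceil _).trans ?_
    exact_mod_cast (by omega : ⌈8 / δ⌉₊ ≤ r)
  -- the gap is small
  have hgap : (r' : ℝ) ≤ r + r / 8 := by
    obtain ⟨n, hn, hnR⟩ := e2
    rw [mem_Ioc] at hn
    have h3 : r' ≤ n := by
      by_contra h4
      exact hno n (mem_Ioo.2 ⟨hn.1, by omega⟩) hnR
    have h4 : r' ≤ r + ⌊Real.log (r : ℝ) ^ (3 : ℝ)⌋₊ := by omega
    obtain ⟨f, hf⟩ : ∃ f : ℕ, f = ⌊Real.log (r : ℝ) ^ (3 : ℝ)⌋₊ := ⟨_, rfl⟩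
    rw [← hf] at h4
    have h5 : (r' : ℝ) ≤ r + f := by exact_mod_cast h4
    have h7 : Real.log (r : ℝ) ^ (3 : ℝ) = Real.log (r : ℝ) ^ 3 := by
      rw [← Real.rpow_natCast]
      norm_num
    have h6 : (f : ℝ) ≤ Real.log (r : ℝ) ^ 3 := by
      rw [← h7, hf]
      exact Nat.floor_le (by positivity)
    rw [Real.rpow_one] at e3
    linarith
  have hr' : (r : ℝ) + 1 ≤ r' := by exact_mod_cast hrr
  have hrsq : 1 ≤ r ^ 2 := Nat.one_le_pow _ _ (by omega)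
  have hr'sq : r ^ 2 + 2 * r + 1 ≤ r' ^ 2 := by
    have : (r + 1) ^ 2 ≤ r' ^ 2 := Nat.pow_le_pow_left hrr 2
    nlinarith
  -- the interval
  have hN : (((r ^ 2 - 1 : ℕ)) : ℝ) = (r : ℝ) ^ 2 - 1 := by
    rw [Nat.cast_sub hrsq]
    push_cast
    ring
  have hM : (((r' ^ 2 - 2 : ℕ)) : ℝ) = (r' : ℝ) ^ 2 - 2 := by
    rw [Nat.cast_sub (by omega)]
    push_cast
    ring
  have hsqrt : (((r ^ 2 - 1 : ℕ)) : ℝ) ^ (1 / 2 : ℝ) ≤ r := by
    rw [hN, ← Real.sqrt_eq_rpow]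
    rw [Real.sqrt_le_left hr0.le]
    linarith
  have h3 := e1 (r' ^ 2 - 2) (by rw [hN] at hsqrt ⊢; rw [hM]; nlinarith) (by
    have h4 : (r' : ℝ) ^ 2 ≤ (r + r / 8) ^ 2 := pow_le_pow_left₀ (by linarith) hgap 2
    have h5 : (r' : ℝ) ^ 2 ≤ 2 * (r : ℝ) ^ 2 := by nlinarith
    have h6 : r' ^ 2 ≤ 2 * r ^ 2 := by exact_mod_cast h5
    omega)
  have hcard : ((Ioc (r ^ 2 - 1) (r' ^ 2 - 2)).filter (fun n => n + 1 ∈ R)).card =
      ((Ioo (r ^ 2) (r' ^ 2)).filter (fun n => n ∈ R)).card := by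
    refine card_bij' (fun n _ => n + 1) (fun n _ => n - 1) ?_ ?_ ?_ ?_
    · intro n hn
      rw [mem_filter, mem_Ioc] at hn
      rw [mem_filter, mem_Ioo]
      exact ⟨⟨by omega, by omega⟩, hn.2⟩
    · intro n hn
      rw [mem_filter, mem_Ioo] at hn
      rw [mem_filter, mem_Ioc]
      refine ⟨⟨by omega, by omega⟩, ?_⟩
      rw [Nat.sub_add_cancel (by omega)]
      exact hn.2
    · intro n hn
      simp
    · intro n hn
      rw [mem_filter, mem_Ioo] at hn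
      show n - 1 + 1 = n
      omega
  rw [hcard, hN, hM] at h3
  -- comparison of the main terms
  obtain ⟨D, hD⟩ : ∃ D : ℝ, D = (r' : ℝ) ^ 2 - r ^ 2 := ⟨_, rfl⟩
  have hD2 : 2 * (r : ℝ) + 1 ≤ D := by rw [hD]; nlinarith
  have hD' : (r' : ℝ) ^ 2 - 2 - ((r : ℝ) ^ 2 - 1) = D - 1 := by rw [hD]; ring
  rw [hD'] at h3
  rw [← hD]
  obtain ⟨l, hl⟩ : ∃ l, l = Real.log ((r : ℝ) ^ 2 - 1) := ⟨_, rfl⟩
  obtain ⟨L, hLd⟩ : ∃ L, L = 2 * Real.log (r : ℝ) := ⟨_, rfl⟩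
  rw [← hl] at h3
  rw [← hLd]
  have hL0 : 4 < L := by rw [hLd]; linarith
  have hlL : l ≤ L := by
    rw [hl, hLd]
    have h4 : 2 * Real.log (r : ℝ) = Real.log ((r : ℝ) ^ 2) := by rw [Real.log_pow]; norm_num
    rw [h4]
    apply Real.log_le_log (by nlinarith)
    linarith
  have hlL' : L - 1 ≤ l := by
    rw [hl, hLd]
    have h4 : 2 * Real.log (r : ℝ) = Real.log ((r : ℝ) ^ 2) := by rw [Real.log_pow]; norm_num
    have h5 : (r : ℝ) ^ 2 / 2 ≤ (r : ℝ) ^ 2 - 1 := by nlinarith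
    have h6 := Real.log_le_log (by positivity) h5
    rw [Real.log_div (by positivity) (by norm_num)] at h6
    have h7 : Real.log 2 < 1 := by
      have := Real.log_two_lt_d9
      linarith
    linarith
  have hL8 : 8 / δ ≤ L := by rw [hLd]; linarith
  have hl0 : 0 < l := by linarith
  have hLpos : 0 < L := by linarith
  -- `|(D - 1) / l - D / L| ≤ (δ / 4) D / L`
  have hk1 : (D - 1) / l ≤ (1 + δ / 4) * (D / L) := by
    have h4 : (D - 1) / l ≤ D / l := div_le_div_of_nonneg_right (by linarith) hl0.le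
    refine h4.trans ?_
    rw [← mul_div_assoc, div_le_div_iff₀ hl0 hLpos]
    have h5 : L ≤ (1 + δ / 4) * l := by
      rw [div_le_iff₀ hδ] at hL8
      nlinarith
    nlinarith
  have hk2 : (1 - δ / 4) * (D / L) ≤ (D - 1) / l := by
    have h4 : (D - 1) / L ≤ (D - 1) / l := div_le_div_of_nonneg_left (by linarith) hl0 hlL
    refine le_trans ?_ h4
    rw [← mul_div_assoc]
    apply div_le_div_of_nonneg_right _ hLpos.le
    have h5 : 1 ≤ δ / 4 * D := by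
      rw [div_le_iff₀ hδ] at hrδ
      nlinarith
    linarith
  have hDL : 0 < D / L := div_pos (by linarith) hLpos
  obtain ⟨c, hc⟩ : ∃ c : ℝ, c = (((Ioo (r ^ 2) (r' ^ 2)).filter (fun n => n ∈ R)).card : ℝ) := ⟨_, rfl⟩
  rw [← hc] at h3 ⊢
  have h6 := abs_le.1 h3
  have h7 : δ / 4 * ((D - 1) / l) ≤ δ / 4 * ((1 + δ / 4) * (D / L)) := mul_le_mul_of_nonneg_left hk1 (by positivity)
  rw [abs_le]
  constructor
  · nlinarith [h6.1, mul_pos hδ hDL]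
  · nlinarith [h6.2, mul_pos hδ hDL]

end Pool.Agent.T2H62.MD
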