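import Pool.Agent.T2H62.MD.W
import Pool.Agent.T2H62.MD.L

set_option autoImplicit false

/-! # Random primes: the probability of a gap of the length of the square root -/

namespace Pool.Agent.T2H62.MD

open Finset Filter Topology MeasureTheory ProbabilityTheory
open Pool.Agent.T2H53.GW

variable {Ω : Type*} [MeasurableSpace Ω] {μ : Measure Ω} [IsProbabilityMeasure μ] {S : ℕ → Set Ω}

/-- the expected number of random primes in `(N, M]` -/
theorem mean_one (A : ℝ) (hA : 0 < A) (δ : ℝ) (hδ : 0 < δ) : ∀ᶠ N : ℕ in atTop, ∀ M : ℕ,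
    (N : ℝ) + (N : ℝ) ^ (1 / 2 : ℝ) ≤ M → M ≤ 2 * N →
      |∑ n ∈ Ioc N M, pr A n - ((M : ℝ) - N) / Real.log N| ≤ δ * (((M : ℝ) - N) / Real.log N) := by
  have h1 := mean_HL A hA {1} 1 (by decide) 1 one_pos (tendsto_const_nhds.congr fun z => (SS_one z).symm) (1 / 2) (δ / 2)
    (by norm_num) (by positivity)
  filter_upwards [h1, log_pow_small 1 (2 / δ) (1 / 2) (by norm_num) (by positivity), eventually_ge_atTop 3]
    with N h2 h3 h4 M hM1 hM2
  have h5 := h2 M hM1 hM2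
  rw [card_singleton, pow_one, one_mul] at h5
  have hN0 : (0 : ℝ) < N := by exact_mod_cast (by omega : 0 < N)
  have hl : 0 < Real.log (N : ℝ) := Real.log_pos (by exact_mod_cast (by omega : 1 < N))
  have hNM : N ≤ M := by
    have : 0 < (N : ℝ) ^ (1 / 2 : ℝ) := by positivity
    have h6 : (N : ℝ) ≤ M := by linarith
    exact_mod_cast h6
  have h6 : ∑ n ∈ Ioc N M, ∏ h ∈ ({1} : Finset ℕ), pr A (n + h) = ∑ n ∈ Ioc N M, pr A (n + 1) :=
    sum_congr rfl fun n _ => prod_singleton _ _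
  rw [h6] at h5
  have h7 : ∑ n ∈ Ioc N M, pr A (n + 1) + pr A (N + 1) = ∑ n ∈ Ioc N M, pr A n + pr A (M + 1) := by
    rw [← sum_Ioc_succ_top hNM]
    have h8 : ∑ n ∈ Ioc N (M + 1), pr A n = pr A (N + 1) + ∑ n ∈ Ioc (N + 1) (M + 1), pr A n := by
      rw [← sum_Ioc_consecutive (fun n => pr A n) (by omega : N ≤ N + 1) (by omega : N + 1 ≤ M + 1)]
      congr 1
      rw [sum_Ioc_succ_top le_rfl]
      simp
    rw [h8, add_comm]
    congr 1
    have h9 : Ioc (N + 1) (M + 1) = (Ioc N M).image (fun n => n + 1) := by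
      ext n
      simp only [mem_Ioc, mem_image]
      constructor
      · rintro ⟨h10, h11⟩
        exact ⟨n - 1, ⟨by omega, by omega⟩, by omega⟩
      · rintro ⟨m, ⟨h10, h11⟩, rfl⟩
        exact ⟨by omega, by omega⟩
    rw [h9, sum_image (fun x _ y _ h => by simpa using h)]
  have h8 := pr_nonneg A (N + 1)
  have h9 := pr_le_one A (N + 1)
  have h10 := pr_nonneg A (M + 1)
  have h11 := pr_le_one A (M + 1)
  have h12 : 1 ≤ δ / 2 * (((M : ℝ) - N) / Real.log N) := by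
    rw [pow_one] at h3
    have h13 : 2 / δ * Real.log N ≤ (M : ℝ) - N := by linarith
    rw [div_mul_eq_mul_div, div_le_iff₀ hδ] at h13
    rw [← mul_div_assoc, le_div_iff₀ hl]
    linarith
  have h13 := abs_le.1 h5
  rw [abs_le]
  constructor
  · linarith [h13.1]
  · linarith [h13.2]

/-- the random primes have a gap of the length of the square root beyond `x` -/
def Fail (S : ℕ → Set Ω) (x : ℕ) : Set Ω := {ω | ∃ r r' : ℕ, x ≤ r ∧ r < r' ∧ ω ∈ S r ∧ ω ∈ S r' ∧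
  (∀ n ∈ Ioo r r', ω ∉ S n) ∧ 1 ≤ Real.sqrt r' - Real.sqrt r}

theorem fail_sub (S : ℕ → Set Ω) (x : ℕ) :
    Fail S x ⊆ ⋃ j : ℕ, (HF S (Ioc (x + j) (x + j + ⌊2 * Real.sqrt ((x + j : ℕ) : ℝ)⌋₊)))ᶜ := by
  rintro ω ⟨r, r', h1, h2, h3, h4, h5, h6⟩
  rw [Set.mem_iUnion]
  refine ⟨r - x, ?_⟩
  have hr : x + (r - x) = r := by omega
  rw [hr]
  intro h7
  unfold HF at h7
  simp only [Set.mem_iUnion] at h7
  obtain ⟨n, hn1, hn2⟩ := h7
  rw [mem_Ioc] at hn1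
  have h8 : Real.sqrt r + 1 ≤ Real.sqrt r' := by linarith
  have h9 : (r : ℝ) + 2 * Real.sqrt r + 1 ≤ r' := by
    have h10 : (Real.sqrt r + 1) ^ 2 ≤ Real.sqrt r' ^ 2 := pow_le_pow_left₀ (by positivity) h8 2
    rw [Real.sq_sqrt (Nat.cast_nonneg _)] at h10
    have h11 : (Real.sqrt r + 1) ^ 2 = r + 2 * Real.sqrt r + 1 := by
      rw [add_sq, Real.sq_sqrt (Nat.cast_nonneg _)]
      ring
    linarith
  have h10 : ((⌊2 * Real.sqrt (r : ℝ)⌋₊ : ℕ) : ℝ) ≤ 2 * Real.sqrt r := Nat.floor_le (by positivity)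
  have h11 : ((r + ⌊2 * Real.sqrt (r : ℝ)⌋₊ : ℕ) : ℝ) < r' := by
    push_cast
    linarith
  have h12 : r + ⌊2 * Real.sqrt (r : ℝ)⌋₊ < r' := by exact_mod_cast h11
  exact h5 n (mem_Ioo.2 ⟨hn1.1, by omega⟩) hn2

/-- the upper bound -/
theorem fail_upper (A : ℝ) (hA : 0 < A) (hm : ∀ n, MeasurableSet (S n)) (hi : iIndepSet S μ)
    (hp : ∀ n, μ.real (S n) = pr A n) (δ : ℝ) (hδ : 0 < δ) (hδ1 : δ ≤ 1 / 4) :
    ∃ c : ℝ, 0 < c ∧ ∀ᶠ x : ℕ in atTop, μ.real (Fail S x) ≤ c * Real.exp (-((2 - 4 * δ) * (Real.sqrt x / Real.log x))) := by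
  have hTn : Tendsto (fun n : ℕ => (n : ℝ)) atTop atTop := tendsto_natCast_atTop_atTop
  have hsum : Summable (fun n : ℕ => 1 / (n : ℝ) ^ 2) := Real.summable_one_div_nat_pow.2 (by norm_num)
  refine ⟨∑' n : ℕ, 1 / (n : ℝ) ^ 2 + 1, ?_, ?_⟩
  · have : 0 ≤ ∑' n : ℕ, 1 / (n : ℝ) ^ 2 := tsum_nonneg fun n => by positivity
    linarith
  obtain ⟨n₀, hn₀⟩ := eventually_atTop.1 (mean_one A hA δ hδ)
  obtain ⟨n₁, hn₁⟩ := eventually_atTop.1 (log_pow_small 2 (2 / δ) (1 / 2) (by norm_num) (by positivity))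
  obtain ⟨n₂, hn₂⟩ := eventually_atTop.1 (rpow_big (1 / δ) (1 / 2) (by norm_num))
  filter_upwards [eventually_ge_atTop n₀, eventually_ge_atTop n₁, eventually_ge_atTop n₂, eventually_ge_atTop 16] with x g0 g1 g2 g3
  obtain ⟨ρ, hρ⟩ : ∃ ρ : ℝ, ρ = Real.sqrt x / Real.log x := ⟨_, rfl⟩
  rw [← hρ]
  have hone : ∀ n : ℕ, x ≤ n → μ.real ((HF S (Ioc n (n + ⌊2 * Real.sqrt (n : ℝ)⌋₊)))ᶜ) ≤
      Real.exp (-((2 - 4 * δ) * ρ)) * (1 / (n : ℝ) ^ 2) := by
    intro n hxn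
    have hn16 : (16 : ℝ) ≤ n := by exact_mod_cast (by omega : 16 ≤ n)
    have hx16 : (16 : ℝ) ≤ x := by exact_mod_cast g3
    have hn0 : (0 : ℝ) < n := by linarith
    have hs4 : 4 ≤ Real.sqrt n := by
      rw [show (4 : ℝ) = Real.sqrt 16 by rw [show (16 : ℝ) = 4 ^ 2 by norm_num]; rw [Real.sqrt_sq (by norm_num)]]
      exact Real.sqrt_le_sqrt hn16
    have hsn : Real.sqrt n ^ 2 = n := Real.sq_sqrt hn0.le
    have hl : 0 < Real.log (n : ℝ) := Real.log_pos (by linarith)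
    have h1 := none_le S hm hi (Ioc n (n + ⌊2 * Real.sqrt (n : ℝ)⌋₊))
    refine h1.trans ?_
    have hfl := Nat.lt_floor_add_one (2 * Real.sqrt (n : ℝ))
    have hfl2 : ((⌊2 * Real.sqrt (n : ℝ)⌋₊ : ℕ) : ℝ) ≤ 2 * Real.sqrt n := Nat.floor_le (by positivity)
    have h2 := hn₀ n (by omega) (n + ⌊2 * Real.sqrt (n : ℝ)⌋₊) (by
      rw [← Real.sqrt_eq_rpow]
      push_cast
      linarith) (by
      have h3 : ((n + ⌊2 * Real.sqrt (n : ℝ)⌋₊ : ℕ) : ℝ) ≤ ((2 * n : ℕ) : ℝ) := by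
        push_cast
        nlinarith
      exact_mod_cast h3)
    have h3 : (((n + ⌊2 * Real.sqrt (n : ℝ)⌋₊ : ℕ) : ℝ) - n) = (⌊2 * Real.sqrt (n : ℝ)⌋₊ : ℝ) := by
      push_cast
      ring
    rw [h3] at h2
    have h4 : ∑ m ∈ Ioc n (n + ⌊2 * Real.sqrt (n : ℝ)⌋₊), μ.real (S m) =
        ∑ m ∈ Ioc n (n + ⌊2 * Real.sqrt (n : ℝ)⌋₊), pr A m := sum_congr rfl fun m _ => hp m
    rw [h4]
    have h5 : (2 - 3 * δ) * (Real.sqrt n / Real.log n) ≤ ∑ m ∈ Ioc n (n + ⌊2 * Real.sqrt (n : ℝ)⌋₊), pr A m := by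
      have h6 := (abs_le.1 h2).1
      have h7 : (2 - 3 * δ) * (Real.sqrt n / Real.log n) ≤ (1 - δ) * ((⌊2 * Real.sqrt (n : ℝ)⌋₊ : ℝ) / Real.log n) := by
        rw [← mul_div_assoc, ← mul_div_assoc]
        apply div_le_div_of_nonneg_right _ hl.le
        have h8 : 1 ≤ δ * Real.sqrt n := by
          have h9 := hn₂ n (by omega)
          rw [← Real.sqrt_eq_rpow, div_lt_iff₀ hδ] at h9
          linarith
        have h9 : 2 * Real.sqrt n - 1 ≤ (⌊2 * Real.sqrt (n : ℝ)⌋₊ : ℝ) := by linarith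
        have h10 : (1 - δ) * (2 * Real.sqrt n - 1) ≤ (1 - δ) * (⌊2 * Real.sqrt (n : ℝ)⌋₊ : ℝ) :=
          mul_le_mul_of_nonneg_left h9 (by linarith)
        nlinarith
      linarith
    have h6 : 2 * Real.log n ≤ δ * (Real.sqrt n / Real.log n) := by
      have h7 := hn₁ n (by omega)
      rw [← Real.sqrt_eq_rpow, div_mul_eq_mul_div, div_le_iff₀ hδ] at h7
      rw [← mul_div_assoc, le_div_iff₀ hl]
      nlinarith
    have h7 : ρ ≤ Real.sqrt n / Real.log n := by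
      have he2 : Real.exp 2 ≤ 16 := by
        have h8 : Real.exp 2 = Real.exp 1 ^ 2 := by
          rw [← Real.exp_nat_mul]
          norm_num
        rw [h8]
        have := Real.exp_one_lt_d9
        have h9 := Real.exp_pos 1
        nlinarith
      have h8 := Real.log_div_sqrt_antitoneOn (show (x : ℝ) ∈ Set.Ici (Real.exp 2) from by
        rw [Set.mem_Ici]; linarith) (show (n : ℝ) ∈ Set.Ici (Real.exp 2) from by rw [Set.mem_Ici]; linarith)
        (by exact_mod_cast hxn)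
      have h9 : 0 < Real.log (n : ℝ) / Real.sqrt n := div_pos hl (by linarith)
      have h10 := one_div_le_one_div_of_le h9 h8
      rw [one_div_div, one_div_div] at h10
      rw [hρ]
      exact h10
    have h8 : Real.exp (-(2 * Real.log (n : ℝ))) = 1 / (n : ℝ) ^ 2 := by
      rw [Real.exp_neg, show 2 * Real.log (n : ℝ) = Real.log ((n : ℝ) ^ 2) by rw [Real.log_pow]; norm_num,
        Real.exp_log (by positivity), one_div]
    rw [← h8, ← Real.exp_add]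
    apply Real.exp_le_exp.2
    have h9 : (2 - 4 * δ) * ρ ≤ (2 - 4 * δ) * (Real.sqrt n / Real.log n) := mul_le_mul_of_nonneg_left h7 (by linarith)
    nlinarith
  -- the union
  have hK : 0 < Real.exp (-((2 - 4 * δ) * ρ)) := Real.exp_pos _
  have hsx : Summable (fun j : ℕ => 1 / ((x + j : ℕ) : ℝ) ^ 2) := by
    have := (summable_nat_add_iff x).2 hsum
    refine this.congr fun j => ?_
    rw [add_comm j x]
  have hle : ∑' j : ℕ, 1 / ((x + j : ℕ) : ℝ) ^ 2 ≤ ∑' n : ℕ, 1 / (n : ℝ) ^ 2 := by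
    have h1 := hsum.sum_add_tsum_nat_add x
    have h2 : ∑' j : ℕ, 1 / ((x + j : ℕ) : ℝ) ^ 2 = ∑' j : ℕ, 1 / ((j + x : ℕ) : ℝ) ^ 2 := by
      congr 1
      ext j
      rw [add_comm j x]
    rw [h2]
    have h3 : 0 ≤ ∑ i ∈ range x, 1 / (i : ℝ) ^ 2 := sum_nonneg fun i _ => by positivity
    linarith
  have hμ : μ (Fail S x) ≤ ENNReal.ofReal (Real.exp (-((2 - 4 * δ) * ρ)) * ∑' n : ℕ, 1 / (n : ℝ) ^ 2) := by
    calc μ (Fail S x) ≤ μ (⋃ j : ℕ, (HF S (Ioc (x + j) (x + j + ⌊2 * Real.sqrt ((x + j : ℕ) : ℝ)⌋₊)))ᶜ) :=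
          measure_mono (fail_sub S x)
      _ ≤ ∑' j : ℕ, μ ((HF S (Ioc (x + j) (x + j + ⌊2 * Real.sqrt ((x + j : ℕ) : ℝ)⌋₊)))ᶜ) := measure_iUnion_le _
      _ ≤ ∑' j : ℕ, ENNReal.ofReal (Real.exp (-((2 - 4 * δ) * ρ)) * (1 / ((x + j : ℕ) : ℝ) ^ 2)) := by
          refine ENNReal.tsum_le_tsum fun j => ?_
          rw [← ofReal_measureReal]
          exact ENNReal.ofReal_le_ofReal (hone (x + j) (by omega))
      _ = ENNReal.ofReal (∑' j : ℕ, Real.exp (-((2 - 4 * δ) * ρ)) * (1 / ((x + j : ℕ) : ℝ) ^ 2)) := by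
          rw [ENNReal.ofReal_tsum_of_nonneg (fun j => by positivity) (hsx.mul_left _)]
      _ ≤ ENNReal.ofReal (Real.exp (-((2 - 4 * δ) * ρ)) * ∑' n : ℕ, 1 / (n : ℝ) ^ 2) := by
          apply ENNReal.ofReal_le_ofReal
          rw [tsum_mul_left]
          exact mul_le_mul_of_nonneg_left hle hK.le
  have h1 : 0 ≤ Real.exp (-((2 - 4 * δ) * ρ)) * ∑' n : ℕ, 1 / (n : ℝ) ^ 2 :=
    mul_nonneg hK.le (tsum_nonneg fun n => by positivity)
  have h2 : μ.real (Fail S x) ≤ Real.exp (-((2 - 4 * δ) * ρ)) * ∑' n : ℕ, 1 / (n : ℝ) ^ 2 := by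
    rw [measureReal_def]
    exact ENNReal.toReal_le_of_le_ofReal h1 hμ
  refine h2.trans ?_
  nlinarith

end Pool.Agent.T2H62.MD
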